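import Pool.Agent.H19.Wa.Defs

/-!
# Waring's problem for almost every polynomial: definitions (helper82, MP_efcac8_nt)

THEOREM. For every k >= 2 there is c > 0 such that, for all a in R^(k-1) outside a set of Hausdorff dimension at most
k-1-c, the polynomial f(x) = x^k + a_(k-1) x^(k-1) + ... + a_1 x has the property: for every s >= 2k+1 every
large real τ satisfies |f(x_1) + ... + f(x_s) - τ| < τ^(-c) for some natural numbers x_i.

Notation. `F k a x = f(x)` (`a j` is the coefficient of x^(j+1), j : Fin (k-1)); `T k a u v t = ∑_{u<x<=v} e(t f(x))`;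
`Bx k P` = tuples (x_i), i < k, with (2i+1)P < x_i <= (2i+2)P; `Ph k a x = ∑_i f(x_i)`;
`V k a P t = ∏_i T k a ((2i+1)P) ((2i+2)P) t = ∑_{x in Bx} e(t Ph x)`; `Q n A = [-A,A]^n`;
`H k P a = ∑_{x,y in Bx} exp(-π(Ph x - Ph y)^2)`;
`Rb k P L a b τ = ∑_{x,y in Bx} ∑_{P<z<=LP} exp(-π b^2 (Ph x + Ph y + f(z) - τ)^2)`.

PLAN. J = 4^m, P = J^(4 D1) = R^4, R = J^D1, b = J^2, b2 = R^2/P^k.
(1) `countN`: #{(x,y) : |∑ x_i^j - y_i^j| <= W, j = 1..k} <= C W P^k (elementary, separated intervals).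
(2) `meanH`: ∫_Q H <= C P^k (1 + log P), because ∫_Q exp(-π (B_k + ∑ a_j B_j)^2) <= C / max |B_j|.
(3) `sup_bad`: off a set of a of measure <= C/J, |T k a P (LP) t| < P/J^5 for c1/P^(k-1) <= |t| <= J^3
(inverse Weyl inequality: such t is near a rational p/(q k!), p ≠ 0; net; second moment over a_1).
(4) `kl`: |T k a u v t| <= C/(|t| P^(k-1)) for |t| <= c1/P^(k-1) (Kusmin-Landau).
(5) `compare`: b Rb(b) = ∫ exp(-π t^2/b^2) e(-tτ) V^2 T dt is compared with b2 Rb(b2) >= c P^(k+1) (`main_count`).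
(6) `bad_vol`, `dim_abs`, `Final`.
-/

set_option autoImplicit false

namespace Pool.H82.WP

open Finset MeasureTheory
open Pool.H19.Wa (e)

noncomputable section

/-- f(x) = x^k + a_{k-1} x^{k-1} + ... + a_1 x; `a j` is the coefficient of x^(j+1) -/
def F (k : ℕ) (a : Fin (k - 1) → ℝ) (x : ℝ) : ℝ := x ^ k + ∑ j, a j * x ^ ((j : ℕ) + 1)

/-- the exponential sum over (u, v] -/
def T (k : ℕ) (a : Fin (k - 1) → ℝ) (u v : ℕ) (t : ℝ) : ℂ := ∑ x ∈ Ioc u v, e (t * F k a x)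

/-- the box of k-tuples, x_i in ((2i+1)P, (2i+2)P] -/
def Bx (k P : ℕ) : Finset (Fin k → ℕ) :=
  Fintype.piFinset (fun i : Fin k => Ioc ((2 * (i : ℕ) + 1) * P) ((2 * (i : ℕ) + 2) * P))

/-- the value of a tuple -/
def Ph (k : ℕ) (a : Fin (k - 1) → ℝ) (x : Fin k → ℕ) : ℝ := ∑ i, F k a (x i)

/-- the product of the k short sums -/
def V (k : ℕ) (a : Fin (k - 1) → ℝ) (P : ℕ) (t : ℝ) : ℂ :=
  ∏ i : Fin k, T k a ((2 * (i : ℕ) + 1) * P) ((2 * (i : ℕ) + 2) * P) t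

/-- the cube [-A, A]^n -/
def Q (n A : ℕ) : Set (Fin n → ℝ) := Set.pi Set.univ (fun _ => Set.Icc (-(A : ℝ)) A)

/-- the smoothed number of pairs of tuples with nearly the same value -/
def H (k P : ℕ) (a : Fin (k - 1) → ℝ) : ℝ :=
  ∑ x ∈ Bx k P, ∑ y ∈ Bx k P, Real.exp (-(Real.pi * (Ph k a x - Ph k a y) ^ 2))

/-- difference of power sums -/
def Bd (k : ℕ) (x y : Fin k → ℕ) (j : ℕ) : ℤ := ∑ i, ((x i : ℤ) ^ j - (y i : ℤ) ^ j)

/-- pairs of tuples with close power sums -/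
def NB (k P W : ℕ) : Finset ((Fin k → ℕ) × (Fin k → ℕ)) := by
  classical exact (Bx k P ×ˢ Bx k P).filter (fun p => ∀ j : ℕ, 1 ≤ j → j ≤ k → |Bd k p.1 p.2 j| ≤ (W : ℤ))

/-- the smoothed number of representations -/
def Rb (k P L : ℕ) (a : Fin (k - 1) → ℝ) (b tau : ℝ) : ℝ :=
  ∑ x ∈ Bx k P, ∑ y ∈ Bx k P, ∑ z ∈ Ioc P (L * P),
    Real.exp (-(Real.pi * b ^ 2 * (Ph k a x + Ph k a y + F k a z - tau) ^ 2))

/-- lower end of the range of targets, in units of P^k -/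
def A1 (k : ℕ) : ℝ := 2 * (2 * k + 1) * (2 * k) ^ k

/-- upper end of the range of targets, in units of P^k -/
def A2 (k L : ℕ) : ℝ := (L : ℝ) ^ k / 2

end

/-! ### elementary facts -/

theorem Ph_sub (k : ℕ) (a : Fin (k - 1) → ℝ) (x y : Fin k → ℕ) :
    Ph k a x - Ph k a y = (Bd k x y k : ℝ) + ∑ j : Fin (k - 1), a j * (Bd k x y ((j : ℕ) + 1) : ℝ) := by
  unfold Ph F Bd
  push_cast
  simp only [Finset.sum_add_distrib, Finset.sum_sub_distrib, mul_sub, Finset.mul_sum]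
  rw [Finset.sum_comm (s := Finset.univ) (t := Finset.univ) (f := fun i (j : Fin (k-1)) => a j * (x i : ℝ) ^ ((j : ℕ) + 1)),
    Finset.sum_comm (s := Finset.univ) (t := Finset.univ) (f := fun i (j : Fin (k-1)) => a j * (y i : ℝ) ^ ((j : ℕ) + 1))]
  ring

theorem V_eq (k : ℕ) (a : Fin (k - 1) → ℝ) (P : ℕ) (t : ℝ) :
    V k a P t = ∑ x ∈ Bx k P, e (t * Ph k a x) := by
  unfold V T Bx Ph
  rw [Finset.prod_univ_sum]
  refine Finset.sum_congr rfl fun x _ => ?_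
  rw [Finset.mul_sum, Pool.H19.Wa.e_sum]

theorem continuous_T (k : ℕ) (u v : ℕ) :
    Continuous (fun p : (Fin (k - 1) → ℝ) × ℝ => T k p.1 u v p.2) := by
  unfold T F
  refine continuous_finsetSum _ fun x _ => Pool.H19.Wa.continuous_e.comp ?_
  fun_prop

theorem continuous_T_t (k : ℕ) (a : Fin (k - 1) → ℝ) (u v : ℕ) :
    Continuous (fun t : ℝ => T k a u v t) :=
  (continuous_T k u v).comp (Continuous.prodMk continuous_const continuous_id)

theorem continuous_V_t (k : ℕ) (a : Fin (k - 1) → ℝ) (P : ℕ) : Continuous (fun t : ℝ => V k a P t) := by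
  unfold V
  exact continuous_finsetProd _ fun i _ => continuous_T_t k a _ _

theorem norm_T_le (k : ℕ) (a : Fin (k - 1) → ℝ) (u v : ℕ) (t : ℝ) : ‖T k a u v t‖ ≤ ((v - u : ℕ) : ℝ) := by
  unfold T
  refine (norm_sum_le _ _).trans ?_
  simp [Pool.H19.Wa.norm_e]

theorem norm_V_le (k : ℕ) (a : Fin (k - 1) → ℝ) (P : ℕ) (t : ℝ) : ‖V k a P t‖ ≤ (P : ℝ) ^ k := by
  unfold V
  rw [norm_prod]
  calc ∏ i : Fin k, ‖T k a ((2 * (i : ℕ) + 1) * P) ((2 * (i : ℕ) + 2) * P) t‖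
      ≤ ∏ _i : Fin k, (P : ℝ) := by
        refine Finset.prod_le_prod (fun i _ => norm_nonneg _) fun i _ => ?_
        refine (norm_T_le k a _ _ t).trans (le_of_eq ?_)
        congr 1
        have : (2 * (i : ℕ) + 2) * P = (2 * (i : ℕ) + 1) * P + P := by ring
        omega
    _ = (P : ℝ) ^ k := by simp

theorem card_Bx (k P : ℕ) : (Bx k P).card = P ^ k := by
  unfold Bx
  rw [Fintype.card_piFinset]
  have : ∀ i : Fin k, (Ioc ((2 * (i : ℕ) + 1) * P) ((2 * (i : ℕ) + 2) * P)).card = P := by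
    intro i
    rw [Nat.card_Ioc]
    have : (2 * (i : ℕ) + 2) * P = (2 * (i : ℕ) + 1) * P + P := by ring
    omega
  simp [this]

theorem mem_Bx {k P : ℕ} {x : Fin k → ℕ} :
    x ∈ Bx k P ↔ ∀ i : Fin k, (2 * (i : ℕ) + 1) * P < x i ∧ x i ≤ (2 * (i : ℕ) + 2) * P := by
  unfold Bx
  simp [Fintype.mem_piFinset, Finset.mem_Ioc]

theorem mem_Q {n A : ℕ} {a : Fin n → ℝ} : a ∈ Q n A ↔ ∀ j, |a j| ≤ A := by
  unfold Q
  simp only [Set.mem_pi, Set.mem_univ, forall_true_left, Set.mem_Icc, abs_le]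

theorem measurableSet_Q (n A : ℕ) : MeasurableSet (Q n A) :=
  MeasurableSet.univ_pi fun _ => measurableSet_Icc

theorem volume_Q (n A : ℕ) : volume (Q n A) = ENNReal.ofReal ((2 * A : ℝ) ^ n) := by
  unfold Q
  rw [volume_pi_pi]
  simp only [Real.volume_Icc, Finset.prod_const, Finset.card_univ, Fintype.card_fin]
  rw [← ENNReal.ofReal_pow (by linarith [(Nat.cast_nonneg A : (0:ℝ) ≤ A)])]
  congr 2
  ring

theorem mem_NB {k P W : ℕ} {p : (Fin k → ℕ) × (Fin k → ℕ)} :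
    p ∈ NB k P W ↔ (p.1 ∈ Bx k P ∧ p.2 ∈ Bx k P) ∧ ∀ j : ℕ, 1 ≤ j → j ≤ k → |Bd k p.1 p.2 j| ≤ (W : ℤ) := by
  classical
  unfold NB
  rw [Finset.mem_filter, Finset.mem_product]

theorem continuous_H (k P : ℕ) : Continuous (fun a : Fin (k - 1) → ℝ => H k P a) := by
  unfold H Ph F
  fun_prop

theorem H_nonneg (k P : ℕ) (a : Fin (k - 1) → ℝ) : 0 ≤ H k P a :=
  Finset.sum_nonneg fun _ _ => Finset.sum_nonneg fun _ _ => (Real.exp_pos _).le

end Pool.H82.WP
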