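import Pool.Agent.H26.LDP.Diff
import Pool.Agent.H26.LDP.Recur
import Pool.Agent.H82.WP.Defs

/-!
# Module WEYLINV: large polynomial exponential sums force a rational approximation of the leading coefficient

Uses `weyl_diff`, `geom`, `norm_sum_e_le`, `recur`, `nn` of Pool.Agent.H26.LDP (its `e` is `LDP.e`), and the proof pattern
of Pool/Agent/H26/LDP/Weyl.lean (degree 3; `popular` there is private, copy it).

Proof by induction on d >= 1, with constants A_1 = 1, A_(d+1) = 15 A_d + 15 (any natural number will do).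
d = 1: p.eval m = θ m + c. `geom`: κ M * 2 nn θ <= 1, so nn θ <= 1/(2κM): q = 1, and 1 <= (1/κ)^A, nn θ <= (1/κ)/M.
d -> d+1: let A = A_d, p of degree <= d+1, θ = coeff (d+1), T = ∑_{m in Icc 1 n} e(p(m)), n <= M, ‖T‖ >= κM. Put
κ1 = κ^2/8. `weyl_diff`: κ^2M^2 <= ‖T‖^2 <= M + 2 ∑_{h=1}^{n-1} ‖D_h‖, D_h = ∑_{m=1}^{n-h} e(p(m+h)-p(m)), ‖D_h‖ <= M.
`popular`: the set L1 of h in Icc 1 (n-1) with ‖D_h‖ >= κ1 M has at least κ1 M elements (needs 2 <= κ^2 M).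
The polynomial r_h = p.comp (X + C h) - p has natDegree <= d and coeff d equal to (d+1) h θ (Taylor: the coefficient of
X^d in (X+h)^(d+1) is (d+1)h, the X^d terms of p cancel). So d! * coeff = (d+1)! θ h. Induction hypothesis with κ1 (<= 1/2),
M, n-h: for h in L1 there is q_h with 1 <= q_h <= (1/κ1)^A, nn(q_h (d+1)! θ h) <= (1/κ1)^A/M^d.
Pigeonhole on q_h (as in LDP/Weyl.lean, `exists_le_card_fiber_of_nsmul_le_card_of_maps_to`): one q1 serves at least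
κ1^(A+1) M of the h in L1. `recur` with N = M, g = q1 (d+1)! θ, τ = (1/κ1)^A/M^d, ν = κ1^(A+1):
needs 2 <= νM, 16 τ <= ν, i.e. 16 <= κ1^(2A+1) M^d; gives 1 <= q2 <= 2/ν with nn(q2 g) <= 32 τ/(ν^2 M)
= 32 (1/κ1)^(3A+2)/M^(d+1). q = q1 q2 <= 2 (1/κ1)^(2A+1).
As κ <= 1/2: 1/κ1 = 8/κ^2 <= (1/κ)^5, so q <= (1/κ)^(10A+6), the nn bound is <= (1/κ)^(15A+15)/M^(d+1), and
M >= (1/κ)^(15A+15) implies all the conditions (also (1/κ1)^A <= M).
-/

set_option autoImplicit false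

namespace Pool.H82.WP

open Finset
open Pool.Agent.H26.LDP (e nn geom norm_sum_e_le weyl_diff recur nn_nonneg)

/-- Many of the summands are large. -/
private theorem wi_popular (M n : ℕ) (hn : n ≤ M) (B : ℕ → ℝ) (hB : ∀ h ∈ Icc 1 n, B h ≤ M) (κ : ℝ)
    (hκ : 0 < κ) (hM : 2 ≤ κ ^ 2 * (M : ℝ))
    (h : κ ^ 2 * (M : ℝ) ^ 2 ≤ M + 2 * ∑ h ∈ Icc 1 n, B h) :
    κ ^ 2 / 8 * (M : ℝ) ≤ (((Icc 1 n).filter (fun h => κ ^ 2 / 8 * (M : ℝ) ≤ B h)).card : ℝ) := by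
  have hM0 : (0 : ℝ) < M := by
    by_contra hcon
    have : (M : ℝ) = 0 := le_antisymm (not_lt.mp hcon) (Nat.cast_nonneg M)
    rw [this] at hM
    linarith
  have h1 : ∑ h ∈ Icc 1 n, B h ≤
      (((Icc 1 n).filter (fun h => κ ^ 2 / 8 * (M : ℝ) ≤ B h)).card : ℝ) * M
        + (n : ℝ) * (κ ^ 2 / 8 * M) := by
    rw [← sum_filter_add_sum_filter_not (Icc 1 n) (fun h => κ ^ 2 / 8 * (M : ℝ) ≤ B h)]
    apply add_le_add
    · calc ∑ h ∈ (Icc 1 n).filter (fun h => κ ^ 2 / 8 * (M : ℝ) ≤ B h), B h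
          ≤ ∑ _h ∈ (Icc 1 n).filter (fun h => κ ^ 2 / 8 * (M : ℝ) ≤ B h), (M : ℝ) :=
            sum_le_sum fun h hh => hB h (mem_filter.mp hh).1
        _ = _ := by rw [sum_const, nsmul_eq_mul]
    · calc ∑ h ∈ (Icc 1 n).filter (fun h => ¬ κ ^ 2 / 8 * (M : ℝ) ≤ B h), B h
          ≤ ∑ _h ∈ (Icc 1 n).filter (fun h => ¬ κ ^ 2 / 8 * (M : ℝ) ≤ B h), (κ ^ 2 / 8 * M) :=
            sum_le_sum fun h hh => (not_le.mp (mem_filter.mp hh).2).le
        _ = (((Icc 1 n).filter (fun h => ¬ κ ^ 2 / 8 * (M : ℝ) ≤ B h)).card : ℝ)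
              * (κ ^ 2 / 8 * M) := by rw [sum_const, nsmul_eq_mul]
        _ ≤ (n : ℝ) * (κ ^ 2 / 8 * M) := by
            apply mul_le_mul_of_nonneg_right _ (by positivity)
            have := card_filter_le (Icc 1 n) (fun h => ¬ κ ^ 2 / 8 * (M : ℝ) ≤ B h)
            rw [Nat.card_Icc, Nat.add_sub_cancel] at this
            exact_mod_cast this
  have h2 : (n : ℝ) * (κ ^ 2 / 8 * M) ≤ (M : ℝ) * (κ ^ 2 / 8 * M) := by
    apply mul_le_mul_of_nonneg_right _ (by positivity)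
    exact_mod_cast hn
  have h3 : 2 * (M : ℝ) ≤ κ ^ 2 * M * M := mul_le_mul_of_nonneg_right hM hM0.le
  have h4 : κ ^ 2 / 8 * (M : ℝ) * M ≤
      (((Icc 1 n).filter (fun h => κ ^ 2 / 8 * (M : ℝ) ≤ B h)).card : ℝ) * M := by
    nlinarith
  exact le_of_mul_le_mul_right h4 hM0

/-- the difference polynomial -/
private theorem wi_diff {d : ℕ} (p : Polynomial ℝ) (hp : p.natDegree ≤ d + 1) (h : ℝ) :
    (p.comp (Polynomial.X + Polynomial.C h) - p).natDegree ≤ d ∧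
      (p.comp (Polynomial.X + Polynomial.C h) - p).coeff d = ((d : ℝ) + 1) * h * p.coeff (d + 1) := by
  rw [← Polynomial.taylor_apply]
  constructor
  · rw [Polynomial.natDegree_le_iff_coeff_eq_zero]
    intro N hN
    rw [Polynomial.coeff_sub]
    rcases Nat.lt_or_ge (d + 1) N with h1 | h1
    · rw [Polynomial.coeff_eq_zero_of_natDegree_lt (by rw [Polynomial.natDegree_taylor]; omega),
        Polynomial.coeff_eq_zero_of_natDegree_lt (by omega), sub_zero]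
    · have hN1 : N = d + 1 := by omega
      subst hN1
      rw [Polynomial.taylor_coeff]
      have h2 : (Polynomial.hasseDeriv (d + 1) p).natDegree ≤ 0 :=
        (Polynomial.natDegree_hasseDeriv_le p (d + 1)).trans (by omega)
      rw [Polynomial.eq_C_of_natDegree_le_zero h2, Polynomial.eval_C, Polynomial.hasseDeriv_coeff]
      simp
  · rw [Polynomial.coeff_sub, Polynomial.taylor_coeff]
    have h2 : (Polynomial.hasseDeriv d p).natDegree ≤ 1 :=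
      (Polynomial.natDegree_hasseDeriv_le p d).trans (by omega)
    rw [Polynomial.eq_X_add_C_of_natDegree_le_one h2]
    simp only [Polynomial.eval_add, Polynomial.eval_mul, Polynomial.eval_C, Polynomial.eval_X,
      Polynomial.hasseDeriv_coeff]
    rw [Nat.zero_add, Nat.choose_self, Nat.add_comm 1 d, Nat.choose_succ_self_right]
    push_cast
    ring

/-- the inductive step -/
private theorem wi_step (d : ℕ) (hd : 1 ≤ d) (A : ℕ)
    (ih : ∀ (M n : ℕ) (κ : ℝ) (p : Polynomial ℝ),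
      0 < κ → κ ≤ 1 / 2 → n ≤ M → (1 / κ) ^ A ≤ M → p.natDegree ≤ d →
      κ * M ≤ ‖∑ m ∈ Icc 1 n, e (p.eval (m : ℝ))‖ →
      ∃ q : ℕ, 1 ≤ q ∧ (q : ℝ) ≤ (1 / κ) ^ A ∧
        nn ((q : ℝ) * ((d.factorial : ℝ) * p.coeff d)) ≤ (1 / κ) ^ A / (M : ℝ) ^ d)
    (M n : ℕ) (κ : ℝ) (p : Polynomial ℝ) (hκ : 0 < κ) (hκ2 : κ ≤ 1 / 2) (hn : n ≤ M)
    (hM : (1 / κ) ^ (15 * A + 15) ≤ M) (hp : p.natDegree ≤ d + 1)
    (hT : κ * M ≤ ‖∑ m ∈ Icc 1 n, e (p.eval (m : ℝ))‖) :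
    ∃ q : ℕ, 1 ≤ q ∧ (q : ℝ) ≤ (1 / κ) ^ (15 * A + 15) ∧
      nn ((q : ℝ) * (((d + 1).factorial : ℝ) * p.coeff (d + 1))) ≤
        (1 / κ) ^ (15 * A + 15) / (M : ℝ) ^ (d + 1) := by
  obtain ⟨u, hu⟩ : ∃ u : ℝ, u = 1 / κ := ⟨_, rfl⟩
  have hκu : κ = 1 / u := by rw [hu, one_div_one_div]
  have hu2 : 2 ≤ u := by
    rw [hu, le_div_iff₀ hκ]
    linarith
  have hu0 : 0 < u := by linarith
  have hu1 : 1 ≤ u := by linarith
  rw [← hu] at hM ⊢
  obtain ⟨w, hw⟩ : ∃ w : ℝ, w = 8 * u ^ 2 := ⟨_, rfl⟩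
  have hw0 : 0 < w := by rw [hw]; positivity
  have hk1 : κ ^ 2 / 8 = 1 / w := by
    rw [hκu, hw]
    field_simp
  have h8 : (8 : ℝ) ≤ u ^ 3 := by
    have := pow_le_pow_left₀ (by norm_num : (0 : ℝ) ≤ 2) hu2 3
    linarith
  have hwu : w ≤ u ^ 5 := by
    rw [hw]
    have e1 : u ^ 5 = u ^ 3 * u ^ 2 := by ring
    rw [e1]
    exact mul_le_mul_of_nonneg_right h8 (by positivity)
  have hw1 : 1 ≤ w := by
    rw [hw]
    nlinarith
  have hw32 : 32 ≤ w := by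
    rw [hw]
    nlinarith
  have hwp : ∀ k, w ^ k ≤ u ^ (5 * k) := by
    intro k
    rw [pow_mul]
    exact pow_le_pow_left₀ hw0.le hwu k
  have hup : ∀ k, k ≤ 15 * A + 15 → u ^ k ≤ (M : ℝ) := fun k hk =>
    (pow_le_pow_right₀ hu1 hk).trans hM
  have hM0 : (0 : ℝ) < M := lt_of_lt_of_le (by positivity) hM
  have hM1 : (1 : ℝ) ≤ M := by
    have := hup 0 (by omega)
    simpa using this
  set θ := p.coeff (d + 1) with hθ
  -- first differencing
  set D : ℕ → ℝ := fun h => ‖∑ m ∈ Icc 1 (n - h), e (p.eval ((m + h : ℕ) : ℝ) - p.eval (m : ℝ))‖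
    with hD
  have h1 := weyl_diff (fun m => p.eval (m : ℝ)) n
  have h2 : κ ^ 2 * (M : ℝ) ^ 2 ≤ M + 2 * ∑ h ∈ Icc 1 (n - 1), D h := by
    have h3 : (κ * M) ^ 2 ≤ ‖∑ m ∈ Icc 1 n, e (p.eval (m : ℝ))‖ ^ 2 :=
      pow_le_pow_left₀ (by positivity) hT 2
    have h4 : (n : ℝ) ≤ M := by exact_mod_cast hn
    calc κ ^ 2 * (M : ℝ) ^ 2 = (κ * M) ^ 2 := by ring
      _ ≤ _ := h3
      _ ≤ _ := h1
      _ ≤ _ := by linarith
  have hDM : ∀ h ∈ Icc 1 (n - 1), D h ≤ M := by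
    intro h _
    refine (norm_sum_e_le (fun m => p.eval ((m + h : ℕ) : ℝ) - p.eval (m : ℝ)) (n - h)).trans ?_
    exact_mod_cast (Nat.sub_le _ _).trans hn
  have c0 : 2 ≤ κ ^ 2 * (M : ℝ) := by
    have e1 := hup 3 (by omega)
    have e2 : κ ^ 2 * u ^ 3 = u := by
      rw [hκu]
      field_simp
    have e3 : κ ^ 2 * u ^ 3 ≤ κ ^ 2 * M := mul_le_mul_of_nonneg_left e1 (by positivity)
    linarith
  have h5 := wi_popular M (n - 1) ((Nat.sub_le _ _).trans hn) D hDM κ hκ c0 h2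
  rw [hk1] at h5
  set L1 := (Icc 1 (n - 1)).filter (fun h => 1 / w * (M : ℝ) ≤ D h) with hL1
  have H : ∀ h ∈ L1, ∃ q : ℕ, 1 ≤ q ∧ (q : ℝ) ≤ w ^ A ∧
      nn ((q : ℝ) * (((d + 1).factorial : ℝ) * (h * θ))) ≤ w ^ A / (M : ℝ) ^ d := by
    intro h hh
    obtain ⟨hr1, hr2⟩ := wi_diff p hp (h : ℝ)
    have hsum : ∑ m ∈ Icc 1 (n - h),
          e ((p.comp (Polynomial.X + Polynomial.C (h : ℝ)) - p).eval (m : ℝ)) =
        ∑ m ∈ Icc 1 (n - h), e (p.eval ((m + h : ℕ) : ℝ) - p.eval (m : ℝ)) := by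
      refine Finset.sum_congr rfl fun m _ => ?_
      rw [Polynomial.eval_sub, Polynomial.eval_comp, Polynomial.eval_add, Polynomial.eval_X,
        Polynomial.eval_C]
      push_cast
      rfl
    have h6 := ih M (n - h) (1 / w) (p.comp (Polynomial.X + Polynomial.C (h : ℝ)) - p)
      (by positivity) (by
        rw [div_le_div_iff₀ hw0 (by norm_num)]
        linarith) ((Nat.sub_le _ _).trans hn) (by
        rw [one_div_one_div]
        exact (hwp A).trans (hup _ (by omega))) hr1 (by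
        rw [hsum]
        exact (mem_filter.mp hh).2)
    rw [one_div_one_div] at h6
    obtain ⟨q, hq1, hq2, hq3⟩ := h6
    refine ⟨q, hq1, hq2, ?_⟩
    rw [hr2] at hq3
    have e1 : ((d + 1).factorial : ℝ) * (h * θ) = (d.factorial : ℝ) * (((d : ℝ) + 1) * h * θ) := by
      rw [Nat.factorial_succ]
      push_cast
      ring
    rw [e1]
    exact hq3
  choose! qf hqf1 hqf2 hqf3 using H
  obtain ⟨ν, hν⟩ : ∃ ν : ℝ, ν = 1 / w ^ (A + 1) := ⟨_, rfl⟩
  have hν0 : 0 < ν := by rw [hν]; positivity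
  have hνw : ν * w ^ (A + 1) = 1 := by rw [hν]; field_simp
  -- pigeonhole
  obtain ⟨q1, hq1t, hq1c⟩ := exists_le_card_fiber_of_nsmul_le_card_of_maps_to (s := L1)
    (t := Icc 1 ⌊w ^ A⌋₊) (f := qf) (b := ν * (M : ℝ)) (by
      intro h hh
      rw [mem_Icc]
      exact ⟨hqf1 h hh, Nat.le_floor (hqf2 h hh)⟩) (by
      refine ⟨1, mem_Icc.mpr ⟨le_rfl, Nat.le_floor ?_⟩⟩
      rw [Nat.cast_one]
      exact one_le_pow₀ hw1) (by
      rw [Nat.card_Icc, Nat.add_sub_cancel, nsmul_eq_mul]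
      have h6 : (⌊w ^ A⌋₊ : ℝ) ≤ w ^ A := Nat.floor_le (by positivity)
      calc (⌊w ^ A⌋₊ : ℝ) * (ν * M) ≤ w ^ A * (ν * M) :=
            mul_le_mul_of_nonneg_right h6 (by positivity)
        _ = 1 / w * M := by
            rw [hν, pow_succ]
            field_simp
        _ ≤ _ := h5)
  rw [mem_Icc] at hq1t
  have hq1r : (q1 : ℝ) ≤ w ^ A := (Nat.le_floor_iff (by positivity)).mp hq1t.2
  have hsub : L1.filter (fun h => qf h = q1) ⊆ Icc 1 M := by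
    intro l hl
    rw [mem_filter, hL1, mem_filter, mem_Icc] at hl
    rw [mem_Icc]
    omega
  have hνM : 2 ≤ ν * (M : ℝ) := by
    have e1 := hup (5 * (A + 1) + 1) (by omega)
    have e2 : 2 * w ^ (A + 1) ≤ M := by
      calc 2 * w ^ (A + 1) ≤ u * u ^ (5 * (A + 1)) :=
            mul_le_mul hu2 (hwp _) (by positivity) hu0.le
        _ = u ^ (5 * (A + 1) + 1) := by rw [pow_succ]; ring
        _ ≤ M := e1
    calc (2 : ℝ) = ν * (2 * w ^ (A + 1)) := by linarith [hνw]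
      _ ≤ ν * M := mul_le_mul_of_nonneg_left e2 hν0.le
  have hMd : (M : ℝ) ≤ (M : ℝ) ^ d := by
    calc (M : ℝ) = (M : ℝ) ^ 1 := (pow_one _).symm
      _ ≤ (M : ℝ) ^ d := pow_le_pow_right₀ hM1 hd
  have h16 : 16 * (w ^ A / (M : ℝ) ^ d) ≤ ν := by
    rw [mul_div_assoc', div_le_iff₀ (by positivity), hν, div_mul_eq_mul_div, one_mul,
      le_div_iff₀ (by positivity)]
    have e1 := hup (5 * (A + (A + 1)) + 4) (by omega)
    have e4 : (16 : ℝ) ≤ u ^ 4 := by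
      have := pow_le_pow_left₀ (by norm_num : (0 : ℝ) ≤ 2) hu2 4
      linarith
    calc 16 * w ^ A * w ^ (A + 1) = 16 * w ^ (A + (A + 1)) := by rw [pow_add]; ring
      _ ≤ u ^ 4 * u ^ (5 * (A + (A + 1))) := mul_le_mul e4 (hwp _) (by positivity) (by positivity)
      _ = u ^ (5 * (A + (A + 1)) + 4) := by rw [← pow_add]; congr 1; ring
      _ ≤ M := e1
      _ ≤ _ := hMd
  obtain ⟨q2, hq21, hq22, hq23⟩ := recur M _ hsub (q1 * (((d + 1).factorial : ℝ) * θ))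
    (w ^ A / (M : ℝ) ^ d) ν hν0 hq1c hνM h16 (by
      intro l hl
      rw [mem_filter] at hl
      have h7 := hqf3 l hl.1
      rw [hl.2] at h7
      have e1 : (l : ℝ) * (q1 * (((d + 1).factorial : ℝ) * θ)) =
          (q1 : ℝ) * (((d + 1).factorial : ℝ) * (l * θ)) := by ring
      rw [e1]
      exact h7)
  refine ⟨q1 * q2, Nat.mul_pos hq1t.1 hq21, ?_, ?_⟩
  · push_cast
    have h9 : (q2 : ℝ) ≤ 2 * w ^ (A + 1) := by
      refine hq22.trans (le_of_eq ?_)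
      rw [hν]
      field_simp
    calc (q1 : ℝ) * q2 ≤ w ^ A * (2 * w ^ (A + 1)) :=
          mul_le_mul hq1r h9 (Nat.cast_nonneg _) (by positivity)
      _ = 2 * w ^ (A + (A + 1)) := by rw [pow_add w A (A + 1)]; ring
      _ ≤ u * u ^ (5 * (A + (A + 1))) := mul_le_mul hu2 (hwp _) (by positivity) hu0.le
      _ = u ^ (5 * (A + (A + 1)) + 1) := by rw [pow_succ]; ring
      _ ≤ u ^ (15 * A + 15) := pow_le_pow_right₀ hu1 (by omega)
  · have e1 : ((q1 * q2 : ℕ) : ℝ) * (((d + 1).factorial : ℝ) * θ) =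
        (q2 : ℝ) * (q1 * (((d + 1).factorial : ℝ) * θ)) := by
      push_cast
      ring
    rw [e1]
    refine hq23.trans ?_
    have e2 : 32 * (w ^ A / (M : ℝ) ^ d) / (ν ^ 2 * M) =
        32 * w ^ (A + 2 * (A + 1)) / (M : ℝ) ^ (d + 1) := by
      have e3 : w ^ (A + 2 * (A + 1)) = w ^ A * (w ^ (A + 1)) ^ 2 := by
        rw [← pow_mul, ← pow_add]
        congr 1
        ring
      rw [hν, e3, pow_succ (M : ℝ) d]
      field_simp
    rw [e2]
    apply div_le_div_of_nonneg_right _ (by positivity)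
    have e5 : (32 : ℝ) ≤ u ^ 5 := by
      have := pow_le_pow_left₀ (by norm_num : (0 : ℝ) ≤ 2) hu2 5
      linarith
    calc 32 * w ^ (A + 2 * (A + 1)) ≤ u ^ 5 * u ^ (5 * (A + 2 * (A + 1))) :=
          mul_le_mul e5 (hwp _) (by positivity) (by positivity)
      _ = u ^ (15 * A + 15) := by rw [← pow_add]; congr 1; ring

theorem weyl_inv (d : ℕ) (hd : 1 ≤ d) : ∃ A : ℕ, 1 ≤ A ∧ ∀ (M n : ℕ) (κ : ℝ) (p : Polynomial ℝ),
    0 < κ → κ ≤ 1 / 2 → n ≤ M → (1 / κ) ^ A ≤ M → p.natDegree ≤ d →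
    κ * M ≤ ‖∑ m ∈ Icc 1 n, Pool.Agent.H26.LDP.e (p.eval (m : ℝ))‖ →
    ∃ q : ℕ, 1 ≤ q ∧ (q : ℝ) ≤ (1 / κ) ^ A ∧
      Pool.Agent.H26.LDP.nn ((q : ℝ) * ((d.factorial : ℝ) * p.coeff d)) ≤ (1 / κ) ^ A / (M : ℝ) ^ d := by
  induction d, hd using Nat.le_induction with
  | base =>
    refine ⟨1, le_rfl, ?_⟩
    intro M n κ p hκ hκ2 hn hM hp hT
    have hM0 : (0 : ℝ) < M := lt_of_lt_of_le (by positivity) hM
    refine ⟨1, le_rfl, ?_, ?_⟩
    · rw [pow_one, Nat.cast_one, le_div_iff₀ hκ]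
      linarith
    · have h1 := geom (p.coeff 1) (p.coeff 0) n
      have h2 : ∑ m ∈ Icc 1 n, e (p.eval (m : ℝ)) = ∑ m ∈ Icc 1 n, e (p.coeff 1 * m + p.coeff 0) := by
        refine sum_congr rfl fun m _ => ?_
        congr 1
        conv_lhs => rw [Polynomial.eq_X_add_C_of_natDegree_le_one hp]
        simp
      rw [h2] at hT
      have h3 := nn_nonneg (p.coeff 1)
      have h4 : κ * M * (2 * nn (p.coeff 1)) ≤ 1 :=
        (mul_le_mul_of_nonneg_right hT (by linarith)).trans h1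
      rw [Nat.factorial_one, Nat.cast_one, one_mul, one_mul, pow_one, pow_one, div_div,
        le_div_iff₀ (by positivity)]
      have h5 : 0 ≤ κ * M * nn (p.coeff 1) := by positivity
      nlinarith
  | succ d hd ih =>
    obtain ⟨A, hA, ih⟩ := ih
    refine ⟨15 * A + 15, by omega, ?_⟩
    intro M n κ p hκ hκ2 hn hM hp hT
    exact wi_step d hd A ih M n κ p hκ hκ2 hn hM hp hT

/-- the two copies of the additive character agree -/
theorem e_eq_e (x : ℝ) : Pool.Agent.H26.LDP.e x = Pool.H19.Wa.e x := by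
  unfold Pool.Agent.H26.LDP.e Pool.H19.Wa.e
  congr 1
  ring

end Pool.H82.WP
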