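import Pool.Agent.H82.WP.WeylInv

/-!
# Module ARCNEAR: if the long sum is large then t is near a rational number with denominator q k!

Proof. Let Aw = A of `weyl_inv k`. Given t with P/J^5 <= ‖T k a P (LP) t‖ put M = L P, n = L P - P, κ = 1/(L J^5) (<= 1/2
as J >= 2, L >= 1), so κ M = P/J^5, (1/κ)^Aw = (L J^5)^Aw <= M. Let p = C t * ((X + C P)^k + ∑ j, C (a j) (X + C P)^(j+1)),
so p.eval m = t F(P + m), natDegree <= k and coeff k = t (k >= 1; `Polynomial.coeff_X_add_C_pow`, the terms with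
j + 1 < k have smaller degree), and T k a P (LP) t = ∑_{m in Icc 1 n} e(p.eval m) (shift x = P + m, `e_eq_e`).
Result: nn(q k! t) <= (L J^5)^Aw/(LP)^k <= (L J^5)^Aw/P^k, and p0 = round(q k! t).
(P >= 1 may be assumed: P = 0 is excluded because (L J^5)^Aw <= L*P forces L*P > 0.)
-/

set_option autoImplicit false

namespace Pool.H82.WP

open Finset

theorem arc_near (k : ℕ) (hk : 1 ≤ k) : ∃ Aw : ℕ, 1 ≤ Aw ∧ ∀ (L P J : ℕ), 1 ≤ L → 2 ≤ J →
    (L * J ^ 5) ^ Aw ≤ L * P → ∀ (a : Fin (k - 1) → ℝ) (t : ℝ),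
    (P : ℝ) / (J : ℝ) ^ 5 ≤ ‖T k a P (L * P) t‖ →
    ∃ q : ℕ, 1 ≤ q ∧ q ≤ (L * J ^ 5) ^ Aw ∧ ∃ p : ℤ,
      |(q : ℝ) * (k.factorial : ℝ) * t - p| ≤ (((L * J ^ 5) ^ Aw : ℕ) : ℝ) / (P : ℝ) ^ k := by
  obtain ⟨A, hA, hw⟩ := weyl_inv k hk
  refine ⟨A, hA, ?_⟩
  intro L P J hL hJ hbig a t hT
  set p : Polynomial ℝ := Polynomial.C t * ((Polynomial.X + Polynomial.C (P : ℝ)) ^ k +
    ∑ j : Fin (k - 1), Polynomial.C (a j) * (Polynomial.X + Polynomial.C (P : ℝ)) ^ ((j : ℕ) + 1)) with hp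
  have heval : ∀ m : ℝ, p.eval m = t * F k a (P + m) := by
    intro m
    rw [hp]
    unfold F
    simp only [Polynomial.eval_mul, Polynomial.eval_C, Polynomial.eval_add, Polynomial.eval_pow,
      Polynomial.eval_X, Polynomial.eval_finsetSum]
    congr 1
    congr 1
    · ring
    · refine Finset.sum_congr rfl fun j _ => ?_
      ring
  have hXC : ∀ n : ℕ, ((Polynomial.X + Polynomial.C (P : ℝ)) ^ n : Polynomial ℝ).natDegree = n := by
    intro n
    rw [Polynomial.natDegree_pow, Polynomial.natDegree_X_add_C, mul_one]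
  have hsum : (∑ j : Fin (k - 1), Polynomial.C (a j) *
      (Polynomial.X + Polynomial.C (P : ℝ)) ^ ((j : ℕ) + 1)).natDegree < k := by
    have h1 : (∑ j : Fin (k - 1), Polynomial.C (a j) *
      (Polynomial.X + Polynomial.C (P : ℝ)) ^ ((j : ℕ) + 1)).natDegree ≤ k - 1 := by
      refine Polynomial.natDegree_sum_le_of_forall_le _ _ fun j _ => ?_
      refine (Polynomial.natDegree_C_mul_le _ _).trans ?_
      rw [hXC]
      have := j.2
      omega
    omega
  have hdeg : p.natDegree ≤ k := by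
    rw [hp]
    refine (Polynomial.natDegree_C_mul_le _ _).trans ?_
    refine (Polynomial.natDegree_add_le _ _).trans ?_
    rw [hXC]
    exact max_le le_rfl hsum.le
  have hcoeff : p.coeff k = t := by
    rw [hp, Polynomial.coeff_C_mul, Polynomial.coeff_add, Polynomial.coeff_eq_zero_of_natDegree_lt hsum,
      Polynomial.coeff_X_add_C_pow]
    simp
  have hJ0 : (0 : ℝ) < (J : ℝ) := by
    have : (2 : ℝ) ≤ (J : ℝ) := by exact_mod_cast hJ
    linarith
  have hL0 : (0 : ℝ) < (L : ℝ) := by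
    have : (1 : ℝ) ≤ (L : ℝ) := by exact_mod_cast hL
    linarith
  have hLJ : (0 : ℝ) < (L : ℝ) * (J : ℝ) ^ 5 := by positivity
  have hLJ2 : (2 : ℝ) ≤ (L : ℝ) * (J : ℝ) ^ 5 := by
    have h1 : (1 : ℝ) ≤ (L : ℝ) := by exact_mod_cast hL
    have h2 : (2 : ℝ) ≤ (J : ℝ) := by exact_mod_cast hJ
    have h3 : (2 : ℝ) ^ 5 ≤ (J : ℝ) ^ 5 := pow_le_pow_left₀ (by norm_num) h2 5
    nlinarith
  have hP : 0 < P := by
    rcases Nat.eq_zero_or_pos P with h | h
    · exfalso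
      rw [h, Nat.mul_zero] at hbig
      have : 0 < (L * J ^ 5) ^ A := by positivity
      omega
    · exact h
  have hPr : (0 : ℝ) < (P : ℝ) := by exact_mod_cast hP
  -- the sum
  have hT2 : T k a P (L * P) t = ∑ m ∈ Icc 1 (L * P - P), Pool.Agent.H26.LDP.e (p.eval (m : ℝ)) := by
    unfold T
    refine Finset.sum_nbij' (fun x => x - P) (fun m => P + m) ?_ ?_ ?_ ?_ ?_
    · intro x hx
      rw [Finset.mem_Ioc] at hx
      rw [Finset.mem_Icc]
      omega
    · intro m hm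
      rw [Finset.mem_Icc] at hm
      rw [Finset.mem_Ioc]
      omega
    · intro x hx
      rw [Finset.mem_Ioc] at hx
      omega
    · intro m hm
      omega
    · intro x hx
      rw [Finset.mem_Ioc] at hx
      rw [heval, e_eq_e]
      congr 3
      rw [Nat.cast_sub hx.1.le]
      ring
  have hκ : (0 : ℝ) < 1 / ((L : ℝ) * (J : ℝ) ^ 5) := by positivity
  have hκ2 : 1 / ((L : ℝ) * (J : ℝ) ^ 5) ≤ 1 / 2 := by
    apply one_div_le_one_div_of_le (by norm_num) hLJ2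
  have hinv : 1 / (1 / ((L : ℝ) * (J : ℝ) ^ 5)) = (L : ℝ) * (J : ℝ) ^ 5 := one_div_one_div _
  have hbigr : (((L : ℝ) * (J : ℝ) ^ 5)) ^ A ≤ ((L * P : ℕ) : ℝ) := by
    have : (((L * J ^ 5) ^ A : ℕ) : ℝ) ≤ ((L * P : ℕ) : ℝ) := by exact_mod_cast hbig
    push_cast at this ⊢
    exact this
  obtain ⟨q, hq1, hq2, hq3⟩ := hw (L * P) (L * P - P) (1 / ((L : ℝ) * (J : ℝ) ^ 5)) p hκ hκ2
    (Nat.sub_le _ _) (by rw [hinv]; exact hbigr) hdeg (by
      rw [← hT2]
      refine le_trans (le_of_eq ?_) hT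
      push_cast
      field_simp)
  rw [hinv] at hq2 hq3
  rw [hcoeff] at hq3
  refine ⟨q, hq1, ?_, round ((q : ℝ) * (k.factorial : ℝ) * t), ?_⟩
  · have : (q : ℝ) ≤ (((L * J ^ 5) ^ A : ℕ) : ℝ) := by
      push_cast
      exact hq2
    exact_mod_cast this
  · have h1 : |(q : ℝ) * (k.factorial : ℝ) * t - (round ((q : ℝ) * (k.factorial : ℝ) * t) : ℤ)| =
        Pool.Agent.H26.LDP.nn ((q : ℝ) * ((k.factorial : ℝ) * t)) := by
      unfold Pool.Agent.H26.LDP.nn
      rw [mul_assoc]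
    rw [h1]
    refine hq3.trans ?_
    push_cast
    refine div_le_div_of_nonneg_left (by positivity) (by positivity) ?_
    refine pow_le_pow_left₀ hPr.le ?_ k
    have h1 : (1 : ℝ) ≤ (L : ℝ) := by exact_mod_cast hL
    nlinarith

end Pool.H82.WP
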