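import Pool.Agent.H82.WP.Defs

/-!
# Module COORD: integrating one coordinate first

Proof of `coord_bound`. Fubini for the measurable equivalence `MeasurableEquiv.piFinSuccAbove` with the measure
preserving property `MeasureTheory.volume_preserving_piFinSuccAbove (fun _ => ℝ) j` (n = n' + 1, since Fin n is
inhabited by j): Fin n → ℝ  ≃  ℝ × (Fin n' → ℝ), Q n A corresponds to [-A,A] × Q n' A. The integral equals
∫_{Q n' A} (∫_{[-A,A]} f(insertNth j u a') du) da' <= ∫_{Q n' A} B = (2A)^(n') B; insertNth j u a' is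
`Function.update a j u` for a = insertNth j 0 a'. f is continuous, Q compact, so everything is integrable.
(`volume_Q` is in Defs.) Alternatives: `lintegral` version first, or `MeasureTheory.lmarginal`.

Proof of `gauss_lin`. Let β >= 1 be |c| or some |v_j|.
(a) If |v_j| >= β/(2nA+1) for some j: for every a, ∫_{[-A,A]} exp(-π(c + ∑_i (update a j u)_i v_i)^2) du
<= ∫_ℝ exp(-π(c' + u v_j)^2) du = 1/|v_j| <= (2nA+1)/β; now `coord_bound`.
(b) Otherwise β = |c| and |∑ a_j v_j| <= n A β/(2nA+1) <= β/2 on Q, so the integrand is at most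
exp(-π β^2/4) <= 1/β and the integral at most (2A)^n/β.
C = (2nA+1) (2A)^(n-1) + (2A)^n works (also for n = 0: then case (b), Q 0 A has volume 1).
-/

set_option autoImplicit false

namespace Pool.H82.WP

open Finset MeasureTheory

theorem isCompact_Q' (n A : ℕ) : IsCompact (Q n A) :=
  isCompact_univ_pi fun _ => isCompact_Icc

theorem coord_bound (n A : ℕ) (f : (Fin n → ℝ) → ℝ) (hf : Continuous f) (hf0 : ∀ a, 0 ≤ f a) (j : Fin n)
    (B : ℝ) (hB : ∀ a, (∫ u in Set.Icc (-(A : ℝ)) A, f (Function.update a j u)) ≤ B) :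
    ∫ a in Q n A, f a ≤ (2 * A : ℝ) ^ (n - 1) * B := by
  obtain ⟨m, rfl⟩ : ∃ m, n = m + 1 := ⟨n - 1, by have := j.pos; omega⟩
  have hmp := MeasureTheory.volume_preserving_piFinSuccAbove (fun _ : Fin (m + 1) => ℝ) j
  set E := MeasurableEquiv.piFinSuccAbove (fun _ : Fin (m + 1) => ℝ) j with hE
  have hpre : E ⁻¹' (Set.Icc (-(A : ℝ)) A ×ˢ Q m A) = Q (m + 1) A := by
    ext a
    simp only [Set.mem_preimage, Set.mem_prod, mem_Q]
    constructor
    · rintro ⟨h1, h2⟩ i
      rcases Fin.eq_self_or_eq_succAbove j i with h | ⟨i', h⟩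
      · subst h
        exact abs_le.2 h1
      · subst h
        exact h2 i'
    · intro h
      exact ⟨abs_le.1 (h j), fun i => h (j.succAbove i)⟩
  have hcont : Continuous fun p : ℝ × (Fin m → ℝ) => f (j.insertNth p.1 p.2) :=
    hf.comp (Continuous.finInsertNth j continuous_fst continuous_snd)
  have h1 : ∫ a in Q (m + 1) A, f a =
      ∫ p in (Set.Icc (-(A : ℝ)) A ×ˢ Q m A), f (j.insertNth p.1 p.2) := by
    rw [← hpre]
    rw [← hmp.setIntegral_preimage_emb E.measurableEmbedding
      (fun p : ℝ × (Fin m → ℝ) => f (j.insertNth p.1 p.2)) (Set.Icc (-(A : ℝ)) A ×ˢ Q m A)]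
    refine setIntegral_congr_fun (E.measurable (measurableSet_Icc.prod (measurableSet_Q m A))) ?_
    intro a _
    have : E.symm (E a) = a := E.symm_apply_apply a
    show f a = f (j.insertNth (E a).1 (E a).2)
    conv_lhs => rw [← this]
    rfl
  have hint : IntegrableOn (fun p : ℝ × (Fin m → ℝ) => f (j.insertNth p.1 p.2))
      (Set.Icc (-(A : ℝ)) A ×ˢ Q m A) :=
    hcont.continuousOn.integrableOn_compact (isCompact_Icc.prod (isCompact_Q' m A))
  have h2 : ∫ p in (Set.Icc (-(A : ℝ)) A ×ˢ Q m A), f (j.insertNth p.1 p.2) =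
      ∫ a' in Q m A, ∫ u in Set.Icc (-(A : ℝ)) A, f (j.insertNth u a') := by
    have hint' := hint
    unfold IntegrableOn at hint'
    rw [Measure.volume_eq_prod, ← Measure.prod_restrict] at hint' ⊢
    exact integral_prod_symm _ hint'
  rw [h1, h2]
  have h3 : ∀ a' : Fin m → ℝ, (∫ u in Set.Icc (-(A : ℝ)) A, f (j.insertNth u a')) ≤ B := by
    intro a'
    have := hB (j.insertNth 0 a')
    simpa [Fin.update_insertNth] using this
  have hB0 : 0 ≤ B := le_trans (setIntegral_nonneg measurableSet_Icc fun u _ => hf0 _)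
    (h3 fun _ => 0)
  have hvol : volume (Q m A) = ENNReal.ofReal ((2 * A : ℝ) ^ m) := volume_Q m A
  calc ∫ a' in Q m A, ∫ u in Set.Icc (-(A : ℝ)) A, f (j.insertNth u a')
      ≤ ∫ _a' in Q m A, B := by
        refine integral_mono_of_nonneg (Filter.Eventually.of_forall fun a' =>
          setIntegral_nonneg measurableSet_Icc fun u _ => hf0 _) ?_
          (Filter.Eventually.of_forall h3)
        exact integrable_const_iff.2 (Or.inr (by
          constructor
          rw [Measure.restrict_apply_univ, hvol]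
          exact ENNReal.ofReal_lt_top))
    _ = (2 * A : ℝ) ^ (m + 1 - 1) * B := by
        rw [setIntegral_const, smul_eq_mul, Measure.real, hvol, ENNReal.toReal_ofReal (by positivity)]
        simp

theorem gauss_lin (n A : ℕ) : ∃ C : ℝ, 0 < C ∧ ∀ (c : ℤ) (v : Fin n → ℤ) (β : ℕ), 1 ≤ β →
    ((β : ℤ) = |c| ∨ ∃ j, (β : ℤ) = |v j|) →
    ∫ a in Q n A, Real.exp (-(Real.pi * ((c : ℝ) + ∑ j, a j * (v j : ℝ)) ^ 2)) ≤ C / β := by
  have hCpos : 0 < (2 * n * A + 1 : ℝ) * (2 * A : ℝ) ^ (n - 1) + 2 * (2 * A : ℝ) ^ n + 1 := by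
    positivity
  refine ⟨_, hCpos, ?_⟩
  intro c v β hβ hcv
  have hβ' : (1 : ℝ) ≤ β := by exact_mod_cast hβ
  have hβ0 : (0 : ℝ) < β := by linarith
  have hD : (0 : ℝ) < 2 * n * A + 1 := by positivity
  have hcont : Continuous fun a : Fin n → ℝ =>
      Real.exp (-(Real.pi * ((c : ℝ) + ∑ j, a j * (v j : ℝ)) ^ 2)) := by fun_prop
  by_cases hbig : ∃ j, (β : ℝ) / (2 * n * A + 1) ≤ |(v j : ℝ)|
  · obtain ⟨j, hj⟩ := hbig
    have hvj : (0 : ℝ) < |(v j : ℝ)| := lt_of_lt_of_le (by positivity) hj
    have key : ∀ a : Fin n → ℝ, (∫ u in Set.Icc (-(A : ℝ)) A,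
        Real.exp (-(Real.pi * ((c : ℝ) + ∑ i, (Function.update a j u) i * (v i : ℝ)) ^ 2))) ≤
        (2 * n * A + 1) / β := by
      intro a
      set c' : ℝ := (c : ℝ) + ∑ i ∈ Finset.univ.erase j, a i * (v i : ℝ) with hc'
      have hrew : ∀ u : ℝ, (c : ℝ) + ∑ i, (Function.update a j u) i * (v i : ℝ) =
          (v j : ℝ) * (u + c' / v j) := by
        intro u
        have hv0 : (v j : ℝ) ≠ 0 := abs_pos.1 hvj
        rw [← Finset.add_sum_erase _ _ (Finset.mem_univ j), Function.update_self]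
        have : ∑ i ∈ Finset.univ.erase j, (Function.update a j u) i * (v i : ℝ) =
            ∑ i ∈ Finset.univ.erase j, a i * (v i : ℝ) := by
          refine Finset.sum_congr rfl fun i hi => ?_
          rw [Function.update_of_ne (Finset.ne_of_mem_erase hi)]
        rw [this]
        field_simp
        rw [hc']
        ring
      have hfun : ∀ u : ℝ, Real.exp (-(Real.pi * ((c : ℝ) + ∑ i, (Function.update a j u) i * (v i : ℝ)) ^ 2))
          = Real.exp (-(Real.pi * (v j : ℝ) ^ 2) * (u + c' / v j) ^ 2) := by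
        intro u
        rw [hrew u]
        congr 1
        ring
      simp_rw [hfun]
      have hb : 0 < Real.pi * (v j : ℝ) ^ 2 := by
        have := abs_pos.1 hvj
        positivity
      have hI : Integrable fun u : ℝ => Real.exp (-(Real.pi * (v j : ℝ) ^ 2) * (u + c' / v j) ^ 2) :=
        (integrable_exp_neg_mul_sq hb).comp_add_right (c' / v j)
      calc ∫ u in Set.Icc (-(A : ℝ)) A, Real.exp (-(Real.pi * (v j : ℝ) ^ 2) * (u + c' / v j) ^ 2)
          ≤ ∫ u : ℝ, Real.exp (-(Real.pi * (v j : ℝ) ^ 2) * (u + c' / v j) ^ 2) :=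
            setIntegral_le_integral hI (Filter.Eventually.of_forall fun u => (Real.exp_pos _).le)
        _ = ∫ u : ℝ, Real.exp (-(Real.pi * (v j : ℝ) ^ 2) * u ^ 2) :=
            integral_add_right_eq_self (fun u : ℝ => Real.exp (-(Real.pi * (v j : ℝ) ^ 2) * u ^ 2)) (c' / v j)
        _ = Real.sqrt (Real.pi / (Real.pi * (v j : ℝ) ^ 2)) := integral_gaussian _
        _ = 1 / |(v j : ℝ)| := by
            rw [div_mul_cancel_left₀ Real.pi_ne_zero, ← one_div, Real.sqrt_div zero_le_one, Real.sqrt_one,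
              Real.sqrt_sq_eq_abs]
        _ ≤ (2 * n * A + 1) / β := by
            rw [div_le_div_iff₀ hvj hβ0]
            rw [div_le_iff₀ hD] at hj
            linarith
    have := coord_bound n A _ hcont (fun a => (Real.exp_pos _).le) j _ key
    refine this.trans ?_
    rw [← mul_div_assoc]
    gcongr
    have : (0 : ℝ) ≤ 2 * (2 * A : ℝ) ^ n := by positivity
    nlinarith
  · push Not at hbig
    have hcβ : (β : ℝ) = |(c : ℝ)| := by
      rcases hcv with h | ⟨j, h⟩
      · exact_mod_cast h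
      · exfalso
        have h1 := hbig j
        have h2 : (β : ℝ) = |(v j : ℝ)| := by exact_mod_cast h
        rw [← h2, lt_div_iff₀ hD] at h1
        have : (0 : ℝ) ≤ 2 * n * A := by positivity
        nlinarith
    have hpt : ∀ a ∈ Q n A, Real.exp (-(Real.pi * ((c : ℝ) + ∑ j, a j * (v j : ℝ)) ^ 2)) ≤ 2 / β := by
      intro a ha
      rw [mem_Q] at ha
      have hsum : |∑ j, a j * (v j : ℝ)| ≤ β / 2 := by
        calc |∑ j, a j * (v j : ℝ)| ≤ ∑ j, |a j * (v j : ℝ)| := Finset.abs_sum_le_sum_abs _ _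
          _ ≤ ∑ _j : Fin n, (A : ℝ) * ((β : ℝ) / (2 * n * A + 1)) := by
              refine Finset.sum_le_sum fun j _ => ?_
              rw [abs_mul]
              exact mul_le_mul (ha j) (hbig j).le (abs_nonneg _) (Nat.cast_nonneg _)
          _ = (n * A : ℝ) * ((β : ℝ) / (2 * n * A + 1)) := by
              rw [Finset.sum_const, Finset.card_univ, Fintype.card_fin, nsmul_eq_mul]
              ring
          _ ≤ β / 2 := by
              rw [← mul_div_assoc, div_le_div_iff₀ hD (by norm_num)]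
              nlinarith
      have habs : (β : ℝ) / 2 ≤ |(c : ℝ) + ∑ j, a j * (v j : ℝ)| := by
        have := abs_sub_abs_le_abs_sub (c : ℝ) (-(∑ j, a j * (v j : ℝ)))
        rw [sub_neg_eq_add, abs_neg] at this
        rw [← hcβ] at this
        linarith
      have hsq : (β : ℝ) ^ 2 / 4 ≤ ((c : ℝ) + ∑ j, a j * (v j : ℝ)) ^ 2 := by
        rw [← sq_abs ((c : ℝ) + ∑ j, a j * (v j : ℝ))]
        nlinarith [abs_nonneg ((c : ℝ) + ∑ j, a j * (v j : ℝ))]
      set X := Real.pi * ((c : ℝ) + ∑ j, a j * (v j : ℝ)) ^ 2 with hX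
      have hpi := Real.pi_gt_three
      have hXlow : (β : ℝ) / 2 ≤ X := by
        have : 3 * ((β : ℝ) ^ 2 / 4) ≤ X := by
          rw [hX]
          exact mul_le_mul hpi.le hsq (by positivity) (by positivity)
        nlinarith
      have hX0 : 0 < X := by linarith
      have hexp : X ≤ Real.exp X := by linarith [Real.add_one_le_exp X]
      rw [Real.exp_neg]
      rw [inv_eq_one_div, div_le_div_iff₀ (Real.exp_pos _) hβ0]
      nlinarith
    have hvol : volume (Q n A) = ENNReal.ofReal ((2 * A : ℝ) ^ n) := volume_Q n A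
    calc ∫ a in Q n A, Real.exp (-(Real.pi * ((c : ℝ) + ∑ j, a j * (v j : ℝ)) ^ 2))
        ≤ ∫ _a in Q n A, (2 / β : ℝ) := by
          refine setIntegral_mono_on (hcont.continuousOn.integrableOn_compact (isCompact_Q' n A)) ?_
            (measurableSet_Q n A) hpt
          exact integrableOn_const (by rw [hvol]; exact ENNReal.ofReal_ne_top)
      _ = (2 * (2 * A : ℝ) ^ n) / β := by
          rw [setIntegral_const, smul_eq_mul, Measure.real, hvol, ENNReal.toReal_ofReal (by positivity)]
          ring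
      _ ≤ _ := by
          gcongr
          have : (0 : ℝ) ≤ (2 * n * A + 1 : ℝ) * (2 * A : ℝ) ^ (n - 1) := by positivity
          linarith

end Pool.H82.WP
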