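import Pool.Agent.H82.WP.Defs

/-!
# Module DYADIC: a sum of reciprocals from counting

Proof. For i in s let l = Nat.log 2 (β i), so l < n, 2^l <= β i < 2^(l+1) and 1/β i <= 2^(-l). Hence
∑ 1/β_i <= ∑_{l<n} 2^(-l) #{i : β_i <= 2^(l+1)} <= ∑_{l<n} 2^(-l) D 2^(l+1) = 2 D n.
-/

set_option autoImplicit false

namespace Pool.H82.WP

open Finset

theorem dyadic_sum {ι : Type*} (s : Finset ι) (β : ι → ℕ) (D : ℝ) (n : ℕ)
    (h1 : ∀ i ∈ s, 1 ≤ β i) (h2 : ∀ i ∈ s, β i < 2 ^ n)
    (hc : ∀ W : ℕ, 1 ≤ W → ((s.filter (fun i => β i ≤ W)).card : ℝ) ≤ D * W) :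
    ∑ i ∈ s, (1 : ℝ) / β i ≤ 2 * D * n := by
  classical
  have hmap : ∀ i ∈ s, Nat.log 2 (β i) ∈ range n := by
    intro i hi
    rw [mem_range]
    exact Nat.log_lt_of_lt_pow (by have := h1 i hi; omega) (h2 i hi)
  have hstep : ∀ i ∈ s, (1 : ℝ) / β i ≤ (1 / 2 : ℝ) ^ (Nat.log 2 (β i)) := by
    intro i hi
    have hb : β i ≠ 0 := by have := h1 i hi; omega
    have h3 : 2 ^ Nat.log 2 (β i) ≤ β i := Nat.pow_log_le_self 2 hb
    have h4 : ((2 : ℝ)) ^ Nat.log 2 (β i) ≤ (β i : ℝ) := by exact_mod_cast h3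
    rw [one_div_pow]
    exact one_div_le_one_div_of_le (by positivity) h4
  calc ∑ i ∈ s, (1 : ℝ) / β i ≤ ∑ i ∈ s, (1 / 2 : ℝ) ^ (Nat.log 2 (β i)) := sum_le_sum hstep
    _ = ∑ l ∈ range n, ∑ i ∈ s.filter (fun i => Nat.log 2 (β i) = l),
          (1 / 2 : ℝ) ^ (Nat.log 2 (β i)) := (sum_fiberwise_of_maps_to hmap _).symm
    _ ≤ ∑ _l ∈ range n, 2 * D := by
        refine sum_le_sum fun l _ => ?_
        have e1 : ∑ i ∈ s.filter (fun i => Nat.log 2 (β i) = l),
            (1 / 2 : ℝ) ^ (Nat.log 2 (β i)) =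
            ((s.filter (fun i => Nat.log 2 (β i) = l)).card : ℝ) * (1 / 2 : ℝ) ^ l := by
          rw [← nsmul_eq_mul, ← sum_const]
          refine sum_congr rfl fun i hi => ?_
          rw [(mem_filter.1 hi).2]
        rw [e1]
        have h5 : ((s.filter (fun i => Nat.log 2 (β i) = l)).card : ℝ) ≤ D * 2 ^ (l + 1) := by
          have h6 := hc (2 ^ (l + 1)) Nat.one_le_two_pow
          push_cast at h6
          refine le_trans ?_ h6
          have h7 : s.filter (fun i => Nat.log 2 (β i) = l) ⊆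
              s.filter (fun i => β i ≤ 2 ^ (l + 1)) := by
            intro i hi
            rw [mem_filter] at hi ⊢
            refine ⟨hi.1, ?_⟩
            have := Nat.lt_pow_succ_log_self (b := 2) (by norm_num) (β i)
            rw [hi.2] at this
            exact this.le
          exact_mod_cast card_le_card h7
        calc ((s.filter (fun i => Nat.log 2 (β i) = l)).card : ℝ) * (1 / 2 : ℝ) ^ l
            ≤ (D * 2 ^ (l + 1)) * (1 / 2 : ℝ) ^ l := by
              exact mul_le_mul_of_nonneg_right h5 (by positivity)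
          _ = 2 * D := by
              rw [pow_succ, one_div_pow]
              field_simp
    _ = 2 * D * n := by
        rw [sum_const, card_range, nsmul_eq_mul]
        ring

end Pool.H82.WP
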