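import Pool.Agent.H82.WP.CountN
import Pool.Agent.H82.WP.Dyadic
import Pool.Agent.H82.WP.Coord

/-!
# Module MEANH: the mean of H over the cube

Proof of `meanH`. By `Ph_sub` and exchanging the finite sums with the integral,
∫_Q H = ∑_{(x,y)} ∫_Q exp(-π(Bd k + ∑_j a_j Bd (j+1))^2) da. Let β(x,y) = max 1 (max_{1<=j<=k} |Bd x y j|) (e.g. with
`Finset.sup` of natAbs over Icc 1 k). If max = 0 then each integral is <= (2A)^(k-1) (`volume_Q`); otherwise the max
is attained by some j: j = k gives β = |c|, j < k gives β = |v_(j-1)|, and `gauss_lin` (n = k-1) gives <= C1/β. So each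
integral is <= C2/β(x,y) with C2 = max(C1, (2A)^(k-1)). By `countN`, #{(x,y) : β <= W} <= C0 P^k W for W >= 1.
|Bd x y j| <= k (2kP)^k for 1 <= j <= k, since 0 <= x_i, y_i <= 2kP, so β < 2^n for n = k (1 + Nat.log 2 P) + c_k
with 2^(c_k) > k (2k)^k, and n <= (k + c_k)(1 + Nat.log 2 P). `dyadic_sum` gives ∑ 1/β <= 2 C0 P^k n.

`markovH`: Markov inequality (`mul_meas_ge_le_integral_of_nonneg` for volume restricted to Q, or its lintegral
version): P^k J * volume {a in Q : P^k J <= H} <= ∫_Q H.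
-/

set_option autoImplicit false

namespace Pool.H82.WP

open Finset MeasureTheory

private theorem isCompact_Q (n A : ℕ) : IsCompact (Q n A) :=
  isCompact_univ_pi fun _ => isCompact_Icc

private noncomputable def Mp (k : ℕ) (p : (Fin k → ℕ) × (Fin k → ℕ)) : ℕ :=
  (Finset.Icc 1 k).sup (fun j => (Bd k p.1 p.2 j).natAbs)

private noncomputable def bet (k : ℕ) (p : (Fin k → ℕ) × (Fin k → ℕ)) : ℕ := max 1 (Mp k p)

private theorem natAbs_Bd_le_Mp {k : ℕ} {p : (Fin k → ℕ) × (Fin k → ℕ)} {j : ℕ} (h1 : 1 ≤ j)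
    (h2 : j ≤ k) : (Bd k p.1 p.2 j).natAbs ≤ Mp k p :=
  Finset.le_sup (f := fun j => (Bd k p.1 p.2 j).natAbs) (Finset.mem_Icc.mpr ⟨h1, h2⟩)

private theorem integral_pair_le (k A : ℕ) (hk : 2 ≤ k) : ∃ C : ℝ, 0 < C ∧
    ∀ p : (Fin k → ℕ) × (Fin k → ℕ),
    ∫ a in Q (k - 1) A, Real.exp (-(Real.pi * (Ph k a p.1 - Ph k a p.2) ^ 2)) ≤
      C * (1 / (bet k p : ℝ)) := by
  obtain ⟨C1, hC1, hG⟩ := gauss_lin (k - 1) A
  refine ⟨C1 + (2 * A : ℝ) ^ (k - 1), by positivity, ?_⟩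
  intro p
  have hQr : volume.real (Q (k - 1) A) = (2 * A : ℝ) ^ (k - 1) := by
    rw [Measure.real, volume_Q, ENNReal.toReal_ofReal (by positivity)]
  rcases Nat.eq_zero_or_pos (Mp k p) with h0 | h0
  · have hb : bet k p = 1 := by
      unfold bet
      rw [h0]
      rfl
    rw [hb]
    have h : ∫ a in Q (k - 1) A, Real.exp (-(Real.pi * (Ph k a p.1 - Ph k a p.2) ^ 2)) ≤
        ∫ _a in Q (k - 1) A, (1 : ℝ) := by
      refine integral_mono_of_nonneg (Filter.Eventually.of_forall fun a => (Real.exp_pos _).le)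
        ?_ (Filter.Eventually.of_forall fun a => ?_)
      · exact integrable_const_iff.mpr (Or.inr ⟨by
          rw [Measure.restrict_apply_univ, volume_Q]; exact ENNReal.ofReal_lt_top⟩)
      · refine Real.exp_le_one_iff.mpr ?_
        have := Real.pi_pos
        have h2 : 0 ≤ Real.pi * (Ph k a p.1 - Ph k a p.2) ^ 2 := by positivity
        linarith
    refine h.trans ?_
    rw [setIntegral_const, hQr]
    simp only [smul_eq_mul, mul_one, Nat.cast_one, div_one]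
    linarith
  · have hb : bet k p = Mp k p := by
      unfold bet
      exact max_eq_right h0
    have hne : (Finset.Icc 1 k).Nonempty := ⟨1, Finset.mem_Icc.mpr ⟨le_rfl, by omega⟩⟩
    obtain ⟨j, hj, hjeq⟩ := Finset.exists_mem_eq_sup (Finset.Icc 1 k) hne
      (fun j => (Bd k p.1 p.2 j).natAbs)
    rw [Finset.mem_Icc] at hj
    have hM : Mp k p = (Bd k p.1 p.2 j).natAbs := hjeq
    have hcase : ((bet k p : ℕ) : ℤ) = |Bd k p.1 p.2 k| ∨
        ∃ i : Fin (k - 1), ((bet k p : ℕ) : ℤ) = |(fun i : Fin (k - 1) =>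
          Bd k p.1 p.2 ((i : ℕ) + 1)) i| := by
      rw [hb, hM]
      rcases eq_or_lt_of_le hj.2 with h | h
      · left
        rw [h, Int.natCast_natAbs]
      · right
        refine ⟨⟨j - 1, by omega⟩, ?_⟩
        have : j - 1 + 1 = j := by omega
        simp only [this]
        rw [Int.natCast_natAbs]
    have h := hG (Bd k p.1 p.2 k) (fun i : Fin (k - 1) => Bd k p.1 p.2 ((i : ℕ) + 1))
      (bet k p) (le_max_left _ _) hcase
    have he : ∀ a : Fin (k - 1) → ℝ, Real.exp (-(Real.pi * (Ph k a p.1 - Ph k a p.2) ^ 2)) =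
        Real.exp (-(Real.pi * ((Bd k p.1 p.2 k : ℝ) + ∑ j : Fin (k - 1),
          a j * ((Bd k p.1 p.2 ((j : ℕ) + 1) : ℤ) : ℝ)) ^ 2)) := by
      intro a
      rw [Ph_sub]
    simp_rw [he]
    refine h.trans ?_
    rw [mul_one_div]
    have hbpos : (0 : ℝ) < bet k p := by
      have : 1 ≤ bet k p := le_max_left _ _
      exact_mod_cast this
    refine div_le_div_of_nonneg_right ?_ hbpos.le
    have : (0 : ℝ) ≤ (2 * A : ℝ) ^ (k - 1) := by positivity
    linarith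

private theorem Mp_le {k P : ℕ} (hk : 2 ≤ k) (hP : 1 ≤ P) {p : (Fin k → ℕ) × (Fin k → ℕ)}
    (hp : p ∈ Bx k P ×ˢ Bx k P) : Mp k p ≤ k * (2 * k * P) ^ k := by
  rw [Finset.mem_product, mem_Bx, mem_Bx] at hp
  unfold Mp
  refine Finset.sup_le fun j hj => ?_
  rw [Finset.mem_Icc] at hj
  have hK : 1 ≤ 2 * k * P := Nat.one_le_iff_ne_zero.mpr (by positivity)
  have hub : ∀ x : Fin k → ℕ, (∀ i : Fin k, (2 * (i : ℕ) + 1) * P < x i ∧
      x i ≤ (2 * (i : ℕ) + 2) * P) → ∀ i, x i ^ j ≤ (2 * k * P) ^ k := by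
    intro x hx i
    have h1 : x i ≤ 2 * k * P := (hx i).2.trans (Nat.mul_le_mul_right _ (by omega))
    exact (Nat.pow_le_pow_left h1 j).trans (Nat.pow_le_pow_right hK hj.2)
  have h1 : |Bd k p.1 p.2 j| ≤ ((k * (2 * k * P) ^ k : ℕ) : ℤ) := by
    unfold Bd
    refine (Finset.abs_sum_le_sum_abs _ _).trans ?_
    calc ∑ i : Fin k, |(p.1 i : ℤ) ^ j - (p.2 i : ℤ) ^ j|
        ≤ ∑ _i : Fin k, (((2 * k * P) ^ k : ℕ) : ℤ) := by
          refine Finset.sum_le_sum fun i _ => ?_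
          have a1 : ((p.1 i ^ j : ℕ) : ℤ) ≤ (((2 * k * P) ^ k : ℕ) : ℤ) := by
            exact_mod_cast hub p.1 hp.1 i
          have a2 : ((p.2 i ^ j : ℕ) : ℤ) ≤ (((2 * k * P) ^ k : ℕ) : ℤ) := by
            exact_mod_cast hub p.2 hp.2 i
          have a3 : (0 : ℤ) ≤ ((p.1 i ^ j : ℕ) : ℤ) := Int.natCast_nonneg _
          have a4 : (0 : ℤ) ≤ ((p.2 i ^ j : ℕ) : ℤ) := Int.natCast_nonneg _
          rw [Nat.cast_pow] at a1 a2 a3 a4
          rw [abs_le]
          constructor <;> linarith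
      _ = ((k * (2 * k * P) ^ k : ℕ) : ℤ) := by
          rw [Finset.sum_const, Finset.card_univ, Fintype.card_fin]
          push_cast
          simp
  rw [← Int.natCast_natAbs] at h1
  exact_mod_cast h1

private theorem bet_lt {k P : ℕ} (hk : 2 ≤ k) (hP : 1 ≤ P) {p : (Fin k → ℕ) × (Fin k → ℕ)}
    (hp : p ∈ Bx k P ×ˢ Bx k P) :
    bet k p < 2 ^ (Nat.log 2 (k * (2 * k) ^ k) + 1 + k * (1 + Nat.log 2 P)) := by
  have h1 : bet k p ≤ k * (2 * k) ^ k * P ^ k := by
    unfold bet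
    refine max_le ?_ ?_
    · exact Nat.one_le_iff_ne_zero.mpr (by positivity)
    · refine (Mp_le hk hP hp).trans (le_of_eq ?_)
      rw [mul_pow, mul_assoc]
  refine h1.trans_lt ?_
  rw [pow_add]
  refine Nat.mul_lt_mul_of_lt_of_le (Nat.lt_pow_succ_log_self (by norm_num) _) ?_
    (by positivity)
  rw [mul_comm k, pow_mul]
  refine Nat.pow_le_pow_left ?_ k
  rw [add_comm 1]
  exact (Nat.lt_pow_succ_log_self (by norm_num) _).le

theorem meanH (k A : ℕ) (hk : 2 ≤ k) : ∃ C : ℝ, 0 < C ∧ ∀ P : ℕ, 1 ≤ P →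
    ∫ a in Q (k - 1) A, H k P a ≤ C * (P : ℝ) ^ k * (1 + Nat.log 2 P) := by
  obtain ⟨C2, hC2, hpair⟩ := integral_pair_le k A hk
  obtain ⟨C0, hC0, hcount⟩ := countN k (by omega)
  set ck : ℕ := Nat.log 2 (k * (2 * k) ^ k) + 1 with hck
  refine ⟨2 * C2 * C0 * (k + ck), by positivity, ?_⟩
  intro P hP
  set n : ℕ := ck + k * (1 + Nat.log 2 P) with hn
  have hsum : ∫ a in Q (k - 1) A, H k P a = ∑ p ∈ Bx k P ×ˢ Bx k P,
      ∫ a in Q (k - 1) A, Real.exp (-(Real.pi * (Ph k a p.1 - Ph k a p.2) ^ 2)) := by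
    rw [← integral_finsetSum]
    · refine integral_congr_ae (Filter.Eventually.of_forall fun a => ?_)
      simp only [H]
      rw [Finset.sum_product]
    · intro p _
      have hc : Continuous (fun a : Fin (k - 1) → ℝ =>
          Real.exp (-(Real.pi * (Ph k a p.1 - Ph k a p.2) ^ 2))) := by
        unfold Ph F
        fun_prop
      exact hc.continuousOn.integrableOn_compact (isCompact_Q _ _)
  rw [hsum]
  have hdy := dyadic_sum (Bx k P ×ˢ Bx k P) (bet k) (C0 * (P : ℝ) ^ k) n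
    (fun p _ => le_max_left _ _) (fun p hp => bet_lt hk hP hp) (by
      intro W hW
      have hsub : (Bx k P ×ˢ Bx k P).filter (fun p => bet k p ≤ W) ⊆ NB k P W := by
        intro p hp
        rw [Finset.mem_filter] at hp
        rw [mem_NB]
        refine ⟨Finset.mem_product.mp hp.1, fun j h1 h2 => ?_⟩
        have h3 := natAbs_Bd_le_Mp (p := p) h1 h2
        have h4 : Mp k p ≤ bet k p := le_max_right _ _
        have h5 : (Bd k p.1 p.2 j).natAbs ≤ W := h3.trans (h4.trans hp.2)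
        rw [← Int.natCast_natAbs]
        exact_mod_cast h5
      have h6 : (((Bx k P ×ˢ Bx k P).filter (fun p => bet k p ≤ W)).card : ℝ) ≤
          ((NB k P W).card : ℝ) := by
        exact_mod_cast Finset.card_le_card hsub
      refine h6.trans ((hcount P W hP hW).trans (le_of_eq ?_))
      ring)
  calc ∑ p ∈ Bx k P ×ˢ Bx k P,
      ∫ a in Q (k - 1) A, Real.exp (-(Real.pi * (Ph k a p.1 - Ph k a p.2) ^ 2))
      ≤ ∑ p ∈ Bx k P ×ˢ Bx k P, C2 * (1 / (bet k p : ℝ)) :=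
        Finset.sum_le_sum fun p _ => hpair p
    _ = C2 * ∑ p ∈ Bx k P ×ˢ Bx k P, (1 / (bet k p : ℝ)) := by rw [Finset.mul_sum]
    _ ≤ C2 * (2 * (C0 * (P : ℝ) ^ k) * n) := by gcongr
    _ ≤ C2 * (2 * (C0 * (P : ℝ) ^ k) * ((k + ck) * (1 + Nat.log 2 P))) := by
        gcongr
        rw [hn]
        push_cast
        have h1 : (0 : ℝ) ≤ (ck : ℝ) := Nat.cast_nonneg _
        have h2 : (0 : ℝ) ≤ (Nat.log 2 P : ℝ) := Nat.cast_nonneg _
        nlinarith [mul_nonneg h1 h2]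
    _ = 2 * C2 * C0 * (k + ck) * (P : ℝ) ^ k * (1 + Nat.log 2 P) := by ring

theorem markovH (k A : ℕ) (hk : 2 ≤ k) : ∃ C : ℝ, 0 < C ∧ ∀ P J : ℕ, 1 ≤ P → 1 ≤ J →
    volume {a | a ∈ Q (k - 1) A ∧ (P : ℝ) ^ k * J ≤ H k P a} ≤
      ENNReal.ofReal (C * (1 + Nat.log 2 P) / J) := by
  obtain ⟨C, hC, hm⟩ := meanH k A hk
  refine ⟨C, hC, fun P J hP hJ => ?_⟩
  have hPp : (0 : ℝ) < (P : ℝ) ^ k := by
    have : (0 : ℝ) < P := by exact_mod_cast hP
    positivity
  have hJp : (0 : ℝ) < J := by exact_mod_cast hJ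
  have hint : Integrable (fun a => H k P a) (volume.restrict (Q (k - 1) A)) :=
    (continuous_H k P).continuousOn.integrableOn_compact (isCompact_Q _ _)
  have hmk := mul_meas_ge_le_integral_of_nonneg (μ := volume.restrict (Q (k - 1) A))
    (Filter.Eventually.of_forall fun a => H_nonneg k P a) hint ((P : ℝ) ^ k * J)
  have hmeas : MeasurableSet {a : Fin (k - 1) → ℝ | (P : ℝ) ^ k * J ≤ H k P a} :=
    measurableSet_le measurable_const (continuous_H k P).measurable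
  have hset : (volume.restrict (Q (k - 1) A)) {a | (P : ℝ) ^ k * J ≤ H k P a} =
      volume {a | a ∈ Q (k - 1) A ∧ (P : ℝ) ^ k * J ≤ H k P a} := by
    rw [Measure.restrict_apply hmeas]
    congr 1
    ext a
    simp only [Set.mem_inter_iff, Set.mem_ofPred_eq]
    exact and_comm
  rw [Measure.real, hset] at hmk
  have hfin : volume {a | a ∈ Q (k - 1) A ∧ (P : ℝ) ^ k * J ≤ H k P a} ≠ ⊤ := by
    refine ne_top_of_le_ne_top (b := volume (Q (k - 1) A)) ?_ (measure_mono fun a ha => ha.1)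
    rw [volume_Q]
    exact ENNReal.ofReal_ne_top
  rw [← ENNReal.ofReal_toReal hfin]
  refine ENNReal.ofReal_le_ofReal ?_
  rw [le_div_iff₀ hJp]
  have h1 := hmk.trans (hm P hP)
  have h2 : (P : ℝ) ^ k * ((volume {a | a ∈ Q (k - 1) A ∧
      (P : ℝ) ^ k * J ≤ H k P a}).toReal * J) ≤ (P : ℝ) ^ k * (C * (1 + Nat.log 2 P)) := by
    calc _ = (P : ℝ) ^ k * J * (volume {a | a ∈ Q (k - 1) A ∧
          (P : ℝ) ^ k * J ≤ H k P a}).toReal := by ring
      _ ≤ _ := h1
      _ = _ := by ring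
  exact le_of_mul_le_mul_left h2 hPp

end Pool.H82.WP
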