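import Pool.Agent.H82.WP.Defs

/-!
# Module SECMOM: the second moment of the long sum over the cube, at a fixed frequency

Proof of `sec_mom`. ‖T k a P (LP) s‖^2 = ∑_{x,y in (P,LP]} e(s(F(x) - F(y))) (real part). F(x) - F(y) =
x^k - y^k + ∑_j a_j (x^(j+1) - y^(j+1)), so the integral over Q = product of intervals factors
(`integral_fintype_prod_eq_prod` for Measure.pi of the restricted measures, `Measure.restrict_pi_pi`; volume on
Fin n → ℝ is `Measure.pi`), each factor is ∫_{-A}^{A} e(s (x^(j+1) - y^(j+1)) u) du, of norm at most 2A, and for j = 0,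
x ≠ y, at most 1/(π |s| |x-y|) (|∫_{-A}^{A} e(λu) du| = |sin(2πλA)/(πλ)| <= 1/(π|λ|)). Diagonal: (2A)^(k-1) L P.
Off-diagonal: (2A)^(k-2) ∑_{x≠y} 1/(π|s||x-y|) <= (2A)^(k-2) L P * 2 ∑_{h=1}^{LP} 1/h * 1/τ0, and
∑_{h<=LP} 1/h <= 1 + log(LP) <= C (1 + Nat.log 2 P) (`harmonic_le_one_add_log`, or a direct dyadic bound).
As τ0 <= 1 the sum of both is <= C P (1 + Nat.log 2 P)/τ0. (Alternatively use the `coord_bound` pattern and only the
coordinate 0, for the real-valued function ‖T‖^2: for fixed other coordinates ∫_{-A}^{A} ‖T(update a 0 u)‖^2 du <=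
sum over x,y of |∫ e(...)|, then `coord_bound` from Coord.lean; import it if you like.)

`sec_mom_meas`: Markov: volume {a in Q : P/(2J^5) <= ‖T s‖} <= (2J^5/P)^2 ∫_Q ‖T s‖^2.
-/

set_option autoImplicit false

namespace Pool.H82.WP

open Finset MeasureTheory
open Pool.H19.Wa (e)

/-- one-dimensional integral -/
noncomputable def secmomI (A : ℕ) (l : ℝ) : ℂ := ∫ u in Set.Icc (-(A : ℝ)) A, e (l * u)

theorem secmomI_norm_le (A : ℕ) (l : ℝ) : ‖secmomI A l‖ ≤ 2 * A := by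
  unfold secmomI
  have h := norm_setIntegral_le_of_norm_le_const (μ := volume) (s := Set.Icc (-(A : ℝ)) A)
    (f := fun u => e (l * u)) (C := 1) (by simp)
    (fun u _ => by rw [Pool.H19.Wa.norm_e])
  rw [one_mul] at h
  refine h.trans (le_of_eq ?_)
  rw [Real.volume_real_Icc_of_le (by linarith [(Nat.cast_nonneg A : (0:ℝ) ≤ A)])]
  ring

theorem secmomI_norm_le' (A : ℕ) {l : ℝ} (hl : l ≠ 0) : ‖secmomI A l‖ ≤ 1 / (Real.pi * |l|) := by
  unfold secmomI
  have hA : -(A : ℝ) ≤ A := by linarith [(Nat.cast_nonneg A : (0:ℝ) ≤ A)]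
  rw [integral_Icc_eq_integral_Ioc, ← intervalIntegral.integral_of_le hA]
  have hc : (2 * Real.pi * l * Complex.I : ℂ) ≠ 0 := by
    have : (l : ℂ) ≠ 0 := by exact_mod_cast hl
    have h2 : (Real.pi : ℂ) ≠ 0 := by exact_mod_cast Real.pi_ne_zero
    simp [this, h2]
  have e1 : ∀ u : ℝ, e (l * u) = Complex.exp ((2 * Real.pi * l * Complex.I) * u) := by
    intro u
    unfold Pool.H19.Wa.e
    congr 1
    push_cast
    ring
  simp_rw [e1]
  rw [integral_exp_mul_complex hc, norm_div]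
  have h3 : ‖(2 * Real.pi * l * Complex.I : ℂ)‖ = 2 * (Real.pi * |l|) := by
    rw [norm_mul, norm_mul, norm_mul, Complex.norm_I, Complex.norm_real, Complex.norm_real,
      Real.norm_eq_abs, Real.norm_eq_abs, abs_of_pos Real.pi_pos]
    norm_num
    ring
  have h4 : ‖Complex.exp ((2 * Real.pi * l * Complex.I) * (A : ℝ)) -
      Complex.exp ((2 * Real.pi * l * Complex.I) * (-(A : ℝ) : ℝ))‖ ≤ 2 := by
    refine (norm_sub_le _ _).trans ?_
    rw [← e1, ← e1, Pool.H19.Wa.norm_e, Pool.H19.Wa.norm_e]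
    norm_num
  rw [h3]
  have hp : 0 < Real.pi * |l| := mul_pos Real.pi_pos (abs_pos.2 hl)
  rw [div_le_div_iff₀ (by positivity) hp]
  nlinarith [h4]

theorem secmom_F_sub (k : ℕ) (a : Fin (k - 1) → ℝ) (x y : ℝ) :
    F k a x - F k a y = (x ^ k - y ^ k) + ∑ j : Fin (k - 1),
      (x ^ ((j : ℕ) + 1) - y ^ ((j : ℕ) + 1)) * a j := by
  unfold F
  rw [add_sub_add_comm, ← Finset.sum_sub_distrib]
  congr 1
  refine Finset.sum_congr rfl fun j _ => ?_
  ring

/-- the integral of a product of characters over the cube -/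
theorem secmom_prod (n A : ℕ) (c : Fin n → ℝ) :
    ∫ a in Q n A, ∏ j, e (c j * a j) = ∏ j, secmomI A (c j) := by
  unfold Q
  rw [volume_pi, Measure.restrict_pi_pi,
    integral_fintype_prod_eq_prod (𝕜 := ℂ) (μ := fun _ => volume.restrict (Set.Icc (-(A : ℝ)) A))
      (f := fun j u => e (c j * u))]
  rfl

theorem secmom_sq (k : ℕ) (a : Fin (k - 1) → ℝ) (u v : ℕ) (s : ℝ) :
    ((‖T k a u v s‖ ^ 2 : ℝ) : ℂ) = ∑ x ∈ Ioc u v, ∑ y ∈ Ioc u v,
      e (s * ((x : ℝ) ^ k - (y : ℝ) ^ k)) *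
        ∏ j : Fin (k - 1), e ((s * ((x : ℝ) ^ ((j : ℕ) + 1) - (y : ℝ) ^ ((j : ℕ) + 1))) * a j) := by
  have h1 : ((‖T k a u v s‖ ^ 2 : ℝ) : ℂ) = T k a u v s * (starRingEnd ℂ) (T k a u v s) := by
    rw [Complex.mul_conj, Complex.normSq_eq_norm_sq]
  rw [h1]
  unfold T
  rw [map_sum, Finset.sum_mul_sum]
  refine Finset.sum_congr rfl fun x _ => Finset.sum_congr rfl fun y _ => ?_
  rw [← Pool.H19.Wa.e_neg, ← Pool.H19.Wa.e_add, ← Pool.H19.Wa.e_sum, ← Pool.H19.Wa.e_add]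
  congr 1
  have h2 := secmom_F_sub k a x y
  have h3 : s * F k a x + -(s * F k a y) = s * (F k a x - F k a y) := by ring
  rw [h3, h2, mul_add, Finset.mul_sum]
  congr 1
  refine Finset.sum_congr rfl fun j _ => ?_
  ring

theorem secmom_integral (k A : ℕ) (u v : ℕ) (s : ℝ) :
    ((∫ a in Q (k - 1) A, ‖T k a u v s‖ ^ 2 : ℝ) : ℂ) = ∑ x ∈ Ioc u v, ∑ y ∈ Ioc u v,
      e (s * ((x : ℝ) ^ k - (y : ℝ) ^ k)) *
        ∏ j : Fin (k - 1), secmomI A (s * ((x : ℝ) ^ ((j : ℕ) + 1) - (y : ℝ) ^ ((j : ℕ) + 1))) := by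
  have hcpt : IsCompact (Q (k - 1) A) := isCompact_univ_pi fun _ => isCompact_Icc
  rw [← integral_complex_ofReal]
  simp_rw [secmom_sq]
  have hint : ∀ x ∈ Ioc u v, ∀ y ∈ Ioc u v, IntegrableOn (fun a : Fin (k - 1) → ℝ =>
      e (s * ((x : ℝ) ^ k - (y : ℝ) ^ k)) *
        ∏ j : Fin (k - 1), e ((s * ((x : ℝ) ^ ((j : ℕ) + 1) - (y : ℝ) ^ ((j : ℕ) + 1))) * a j))
      (Q (k - 1) A) := by
    intro x _ y _
    refine ContinuousOn.integrableOn_compact hcpt (Continuous.continuousOn ?_)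
    refine continuous_const.mul (continuous_finsetProd _ fun j _ => ?_)
    refine Pool.H19.Wa.continuous_e.comp ?_
    fun_prop
  rw [integral_finset_sum _ fun x hx => integrable_finset_sum _ fun y hy => hint x hx y hy]
  refine Finset.sum_congr rfl fun x hx => ?_
  rw [integral_finset_sum _ fun y hy => hint x hx y hy]
  refine Finset.sum_congr rfl fun y hy => ?_
  rw [integral_const_mul, secmom_prod]

theorem secmom_term (k A : ℕ) (hk : 2 ≤ k) (x y : ℕ) (s : ℝ) (hs : s ≠ 0) :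
    ‖e (s * ((x : ℝ) ^ k - (y : ℝ) ^ k)) *
        ∏ j : Fin (k - 1), secmomI A (s * ((x : ℝ) ^ ((j : ℕ) + 1) - (y : ℝ) ^ ((j : ℕ) + 1)))‖ ≤
      (2 * A : ℝ) ^ (k - 2) * (if x = y then 2 * (A : ℝ) else 1 / (Real.pi * |s| * |(x : ℝ) - y|)) := by
  rw [norm_mul, Pool.H19.Wa.norm_e, one_mul, norm_prod]
  obtain ⟨m, rfl⟩ : ∃ m, k = m + 2 := ⟨k - 2, by omega⟩
  change ∏ j : Fin (m + 1), ‖secmomI A (s * ((x : ℝ) ^ ((j : ℕ) + 1) - (y : ℝ) ^ ((j : ℕ) + 1)))‖ ≤
    (2 * A : ℝ) ^ m * _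
  rw [Fin.prod_univ_succ, mul_comm]
  refine mul_le_mul ?_ ?_ (norm_nonneg _) (by positivity)
  · calc ∏ j : Fin m, ‖secmomI A (s * ((x : ℝ) ^ (((Fin.succ j : Fin (m + 1)) : ℕ) + 1) -
          (y : ℝ) ^ (((Fin.succ j : Fin (m + 1)) : ℕ) + 1)))‖ ≤ ∏ _j : Fin m, (2 * A : ℝ) :=
          Finset.prod_le_prod (fun _ _ => norm_nonneg _) fun _ _ => secmomI_norm_le _ _
      _ = (2 * A : ℝ) ^ m := by simp
  · simp only [Fin.val_zero, zero_add, pow_one]
    by_cases hxy : x = y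
    · rw [if_pos hxy]
      exact secmomI_norm_le _ _
    · rw [if_neg hxy]
      have hne : (x : ℝ) - y ≠ 0 := by
        intro h
        apply hxy
        have : (x : ℝ) = y := by linarith
        exact_mod_cast this
      refine (secmomI_norm_le' A (mul_ne_zero hs hne)).trans (le_of_eq ?_)
      rw [abs_mul, mul_assoc]

theorem secmom_harm (N x : ℕ) (S : Finset ℕ) (hS : ∀ y ∈ S, 1 ≤ y ∧ y ≤ N) (hx : 1 ≤ x ∧ x ≤ N) :
    ∑ y ∈ S, (if x = y then (0 : ℝ) else 1 / |(x : ℝ) - y|) ≤ 2 * ∑ h ∈ Icc 1 N, 1 / (h : ℝ) := by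
  have h1 : ∀ y ∈ S, (if x = y then (0 : ℝ) else 1 / |(x : ℝ) - y|) ≤
      (if y < x then 1 / ((x - y : ℕ) : ℝ) else 0) + (if x < y then 1 / ((y - x : ℕ) : ℝ) else 0) := by
    intro y _
    rcases lt_trichotomy x y with h | h | h
    · rw [if_neg h.ne, if_neg (by omega), if_pos h, Nat.cast_sub h.le, zero_add, abs_sub_comm,
        abs_of_pos]
      have : (x : ℝ) < y := by exact_mod_cast h
      linarith
    · subst h; simp
    · rw [if_neg h.ne', if_pos h, if_neg (by omega), Nat.cast_sub h.le, add_zero, abs_of_pos]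
      have : (y : ℝ) < x := by exact_mod_cast h
      linarith
  refine (Finset.sum_le_sum h1).trans ?_
  rw [Finset.sum_add_distrib, two_mul]
  refine add_le_add ?_ ?_
  · rw [← Finset.sum_filter]
    have h2 : ∑ y ∈ S.filter (fun y => y < x), 1 / ((x - y : ℕ) : ℝ) =
        ∑ h ∈ (S.filter (fun y => y < x)).image (fun y => x - y), 1 / (h : ℝ) := by
      rw [Finset.sum_image]
      intro y hy y' hy' hyy
      have h3 := (Finset.mem_filter.1 hy).2
      have h4 := (Finset.mem_filter.1 hy').2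
      simp only at hyy
      omega
    rw [h2]
    refine Finset.sum_le_sum_of_subset_of_nonneg ?_ (fun h _ _ => by positivity)
    intro h hh
    obtain ⟨y, hy, rfl⟩ := Finset.mem_image.1 hh
    have h3 := Finset.mem_filter.1 hy
    have h4 := hS y h3.1
    rw [Finset.mem_Icc]
    omega
  · rw [← Finset.sum_filter]
    have h2 : ∑ y ∈ S.filter (fun y => x < y), 1 / ((y - x : ℕ) : ℝ) =
        ∑ h ∈ (S.filter (fun y => x < y)).image (fun y => y - x), 1 / (h : ℝ) := by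
      rw [Finset.sum_image]
      intro y hy y' hy' hyy
      have h3 := (Finset.mem_filter.1 hy).2
      have h4 := (Finset.mem_filter.1 hy').2
      simp only at hyy
      omega
    rw [h2]
    refine Finset.sum_le_sum_of_subset_of_nonneg ?_ (fun h _ _ => by positivity)
    intro h hh
    obtain ⟨y, hy, rfl⟩ := Finset.mem_image.1 hh
    have h3 := Finset.mem_filter.1 hy
    have h4 := hS y h3.1
    rw [Finset.mem_Icc]
    omega

theorem secmom_log (L P : ℕ) (hP : 1 ≤ P) :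
    ∑ h ∈ Icc 1 (L * P), 1 / (h : ℝ) ≤ (L + 2) * (1 + Nat.log 2 P) := by
  have h0 : (0 : ℝ) ≤ (L + 2) * (1 + Nat.log 2 P) := by positivity
  rcases Nat.eq_zero_or_pos L with hL | hL
  · subst hL
    simp only [zero_mul]
    rw [Finset.Icc_eq_empty (by norm_num), Finset.sum_empty]
    exact_mod_cast h0
  have h1 : ∑ h ∈ Icc 1 (L * P), 1 / (h : ℝ) = ((harmonic (L * P) : ℚ) : ℝ) := by
    rw [harmonic_eq_sum_Icc]
    push_cast
    refine Finset.sum_congr rfl fun h _ => ?_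
    rw [one_div]
  rw [h1]
  refine (harmonic_le_one_add_log (L * P)).trans ?_
  have hP' : (0 : ℝ) < P := by exact_mod_cast hP
  have hL' : (0 : ℝ) < L := by exact_mod_cast hL
  rw [Nat.cast_mul, Real.log_mul hL'.ne' hP'.ne']
  have h2 : Real.log L ≤ L := (Real.log_le_sub_one_of_pos hL').trans (by linarith)
  have h3 : Real.log P ≤ 1 + Nat.log 2 P := by
    have h4 : (P : ℝ) ≤ (2 : ℝ) ^ (Nat.log 2 P + 1) := by
      exact_mod_cast (Nat.lt_pow_succ_log_self (by norm_num) P).le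
    have h5 := Real.log_le_log hP' h4
    rw [Real.log_pow] at h5
    have h6 : Real.log 2 ≤ 1 := by
      have := Real.log_le_sub_one_of_pos (show (0 : ℝ) < 2 by norm_num)
      linarith
    have h7 : ((Nat.log 2 P + 1 : ℕ) : ℝ) * Real.log 2 ≤ ((Nat.log 2 P + 1 : ℕ) : ℝ) * 1 :=
      mul_le_mul_of_nonneg_left h6 (by positivity)
    push_cast at h5 h7
    linarith
  have h8 : (0 : ℝ) ≤ Nat.log 2 P := by positivity
  nlinarith [mul_nonneg hL'.le h8]

theorem sec_mom (k A L : ℕ) (hk : 2 ≤ k) : ∃ C : ℝ, 0 < C ∧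
    ∀ (P : ℕ) (s τ0 : ℝ), 1 ≤ P → 0 < τ0 → τ0 ≤ 1 → τ0 ≤ |s| →
    ∫ a in Q (k - 1) A, ‖T k a P (L * P) s‖ ^ 2 ≤ C * P * (1 + Nat.log 2 P) / τ0 := by
  refine ⟨(2 * A : ℝ) ^ (k - 2) * (L * (2 * A + 2 * (L + 2))) + 1, by positivity, ?_⟩
  intro P s τ0 hP hτ hτ1 hs
  have hs0 : s ≠ 0 := by
    intro h
    rw [h, abs_zero] at hs
    linarith
  have hs1 : 0 < |s| := abs_pos.2 hs0
  have hnn : 0 ≤ ∫ a in Q (k - 1) A, ‖T k a P (L * P) s‖ ^ 2 :=
    integral_nonneg fun _ => by positivity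
  have h1 : ∫ a in Q (k - 1) A, ‖T k a P (L * P) s‖ ^ 2 ≤
      ∑ x ∈ Ioc P (L * P), ∑ y ∈ Ioc P (L * P), (2 * A : ℝ) ^ (k - 2) *
        (if x = y then 2 * (A : ℝ) else 1 / (Real.pi * |s| * |(x : ℝ) - y|)) := by
    have h2 : ∫ a in Q (k - 1) A, ‖T k a P (L * P) s‖ ^ 2 =
        ‖((∫ a in Q (k - 1) A, ‖T k a P (L * P) s‖ ^ 2 : ℝ) : ℂ)‖ := by
      rw [Complex.norm_real, Real.norm_eq_abs, abs_of_nonneg hnn]
    rw [h2, secmom_integral]
    refine (norm_sum_le _ _).trans (Finset.sum_le_sum fun x _ => ?_)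
    refine (norm_sum_le _ _).trans (Finset.sum_le_sum fun y _ => ?_)
    exact secmom_term k A hk x y s hs0
  set l : ℝ := 1 + Nat.log 2 P with hl
  have hl1 : 1 ≤ l := by
    rw [hl]
    have : (0 : ℝ) ≤ Nat.log 2 P := by positivity
    linarith
  have h3 : ∀ x ∈ Ioc P (L * P), ∑ y ∈ Ioc P (L * P), (2 * A : ℝ) ^ (k - 2) *
        (if x = y then 2 * (A : ℝ) else 1 / (Real.pi * |s| * |(x : ℝ) - y|)) ≤
      (2 * A : ℝ) ^ (k - 2) * ((2 * A + 2 * (L + 2)) * l / τ0) := by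
    intro x hx
    rw [← Finset.mul_sum]
    refine mul_le_mul_of_nonneg_left ?_ (by positivity)
    have h4 : ∀ y ∈ Ioc P (L * P), (if x = y then 2 * (A : ℝ) else 1 / (Real.pi * |s| * |(x : ℝ) - y|)) ≤
        (if x = y then 2 * (A : ℝ) else 0) +
          1 / τ0 * (if x = y then (0 : ℝ) else 1 / |(x : ℝ) - y|) := by
      intro y _
      by_cases hxy : x = y
      · rw [if_pos hxy, if_pos hxy, if_pos hxy, mul_zero, add_zero]
      · rw [if_neg hxy, if_neg hxy, if_neg hxy, zero_add, ← one_div_mul_one_div_rev, mul_comm]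
        have hne : (x : ℝ) - y ≠ 0 := by
          intro h
          apply hxy
          have : (x : ℝ) = y := by linarith
          exact_mod_cast this
        refine mul_le_mul_of_nonneg_right ?_ (by positivity)
        refine one_div_le_one_div_of_le hτ (hs.trans ?_)
        have := Real.pi_gt_three
        nlinarith
    refine (Finset.sum_le_sum h4).trans ?_
    rw [Finset.sum_add_distrib, ← Finset.mul_sum]
    have h5 : ∑ y ∈ Ioc P (L * P), (if x = y then 2 * (A : ℝ) else 0) = 2 * A := by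
      rw [Finset.sum_ite_eq, if_pos hx]
    rw [h5]
    have hx' := Finset.mem_Ioc.1 hx
    have h6 := secmom_harm (L * P) x (Ioc P (L * P)) (fun y hy => by
      have := Finset.mem_Ioc.1 hy
      omega) ⟨by omega, hx'.2⟩
    have h7 := secmom_log L P hP
    have h8 : 1 / τ0 * ∑ y ∈ Ioc P (L * P), (if x = y then (0 : ℝ) else 1 / |(x : ℝ) - y|) ≤
        1 / τ0 * (2 * ((L + 2) * l)) :=
      mul_le_mul_of_nonneg_left (h6.trans (by linarith)) (by positivity)
    have h9 : (2 * A : ℝ) ≤ 2 * A * l / τ0 := by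
      rw [le_div_iff₀ hτ]
      have h10 : (0 : ℝ) ≤ 2 * A := by positivity
      nlinarith [mul_le_mul_of_nonneg_left hτ1 h10, mul_le_mul_of_nonneg_left hl1 h10]
    calc (2 * A : ℝ) + 1 / τ0 * ∑ y ∈ Ioc P (L * P), (if x = y then (0 : ℝ) else 1 / |(x : ℝ) - y|)
        ≤ 2 * A * l / τ0 + 1 / τ0 * (2 * ((L + 2) * l)) := add_le_add h9 h8
      _ = (2 * A + 2 * (L + 2)) * l / τ0 := by ring
  refine h1.trans ((Finset.sum_le_sum h3).trans ?_)
  rw [Finset.sum_const, Nat.card_Ioc, nsmul_eq_mul]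
  have h11 : ((L * P - P : ℕ) : ℝ) ≤ L * P := by
    have : L * P - P ≤ L * P := Nat.sub_le _ _
    exact_mod_cast this
  have hP' : (0 : ℝ) < P := by exact_mod_cast hP
  have h12 : (0 : ℝ) ≤ (2 * A : ℝ) ^ (k - 2) * ((2 * A + 2 * (L + 2)) * l / τ0) := by positivity
  calc ((L * P - P : ℕ) : ℝ) * ((2 * A : ℝ) ^ (k - 2) * ((2 * A + 2 * (L + 2)) * l / τ0))
      ≤ (L * P) * ((2 * A : ℝ) ^ (k - 2) * ((2 * A + 2 * (L + 2)) * l / τ0)) :=
        mul_le_mul_of_nonneg_right h11 h12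
    _ = ((2 * A : ℝ) ^ (k - 2) * (L * (2 * A + 2 * (L + 2)))) * P * l / τ0 := by ring
    _ ≤ ((2 * A : ℝ) ^ (k - 2) * (L * (2 * A + 2 * (L + 2))) + 1) * P * l / τ0 := by
        refine div_le_div_of_nonneg_right ?_ hτ.le
        have h13 : (0 : ℝ) ≤ P * l := by positivity
        nlinarith

theorem sec_mom_meas (k A L : ℕ) (hk : 2 ≤ k) : ∃ C : ℝ, 0 < C ∧
    ∀ (P J : ℕ) (s τ0 : ℝ), 1 ≤ P → 1 ≤ J → 0 < τ0 → τ0 ≤ 1 → τ0 ≤ |s| →
    volume {a | a ∈ Q (k - 1) A ∧ (P : ℝ) / (2 * (J : ℝ) ^ 5) ≤ ‖T k a P (L * P) s‖} ≤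
      ENNReal.ofReal (C * (J : ℝ) ^ 10 * (1 + Nat.log 2 P) / (P * τ0)) := by
  obtain ⟨C, hC, h⟩ := sec_mom k A L hk
  refine ⟨4 * C, by positivity, ?_⟩
  intro P J s τ0 hP hJ hτ hτ1 hs
  have hI := h P s τ0 hP hτ hτ1 hs
  have hcpt : IsCompact (Q (k - 1) A) := isCompact_univ_pi fun _ => isCompact_Icc
  have hcont : Continuous fun a : Fin (k - 1) → ℝ => ‖T k a P (L * P) s‖ ^ 2 :=
    (((continuous_T k P (L * P)).comp (Continuous.prodMk continuous_id continuous_const)).norm).pow 2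
  have hint : Integrable (fun a : Fin (k - 1) → ℝ => ‖T k a P (L * P) s‖ ^ 2)
      (volume.restrict (Q (k - 1) A)) := hcont.continuousOn.integrableOn_compact hcpt
  have hP' : (0 : ℝ) < P := by exact_mod_cast hP
  have hJ' : (0 : ℝ) < J := by exact_mod_cast hJ
  set ε : ℝ := (P / (2 * (J : ℝ) ^ 5)) ^ 2 with hε
  have hε0 : 0 < ε := by positivity
  have hM := mul_meas_ge_le_integral_of_nonneg (μ := volume.restrict (Q (k - 1) A))
    (f := fun a : Fin (k - 1) → ℝ => ‖T k a P (L * P) s‖ ^ 2)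
    (Filter.Eventually.of_forall fun _ => by positivity) hint ε
  have hsub : {a | a ∈ Q (k - 1) A ∧ (P : ℝ) / (2 * (J : ℝ) ^ 5) ≤ ‖T k a P (L * P) s‖} ⊆
      {a | ε ≤ ‖T k a P (L * P) s‖ ^ 2} ∩ Q (k - 1) A := by
    rintro a ⟨h1, h2⟩
    refine ⟨?_, h1⟩
    change (P / (2 * (J : ℝ) ^ 5)) ^ 2 ≤ _
    exact pow_le_pow_left₀ (by positivity) h2 2
  have hmeas : MeasurableSet {a : Fin (k - 1) → ℝ | ε ≤ ‖T k a P (L * P) s‖ ^ 2} :=
    measurableSet_le measurable_const hcont.measurable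
  refine (measure_mono hsub).trans ?_
  rw [← Measure.restrict_apply hmeas]
  have hfin : (volume.restrict (Q (k - 1) A)) {a | ε ≤ ‖T k a P (L * P) s‖ ^ 2} ≠ ⊤ := by
    rw [Measure.restrict_apply hmeas]
    refine ne_top_of_le_ne_top ?_ (measure_mono Set.inter_subset_right)
    exact hcpt.measure_lt_top.ne
  rw [← ENNReal.ofReal_toReal hfin]
  refine ENNReal.ofReal_le_ofReal ?_
  change (volume.restrict (Q (k - 1) A)).real {a | ε ≤ ‖T k a P (L * P) s‖ ^ 2} ≤ _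
  have h5 : (volume.restrict (Q (k - 1) A)).real {a | ε ≤ ‖T k a P (L * P) s‖ ^ 2} ≤
      (C * P * (1 + Nat.log 2 P) / τ0) / ε := by
    rw [le_div_iff₀ hε0, mul_comm]
    exact hM.trans hI
  refine h5.trans (le_of_eq ?_)
  rw [hε]
  field_simp
  ring

end Pool.H82.WP
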