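import Pool.Agent.H82.WP.Net
import Pool.Agent.H82.WP.SecMom

/-!
# Module SUPBAD: off a small set of polynomials the long sum is small on the minor range

Proof. Aw from `net`, D0 = 5 Aw + 6. Given D1 >= D0, A, L, c1: C1, J01 from `net`, C2 from `sec_mom_meas`;
P = J^(4 D1) >= J^(6Aw+1). The set is contained in ∪_{s in N} {a in Q : P/(2J^5) <= ‖T(s)‖}, each of measure at most
C2 J^10 (1 + Nat.log 2 P)/(P τ0) with τ0 = 1/(C1' J^(5Aw)), C1' = max C1 1. Total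
<= C1 J^(15Aw+9) C2 J^10 C1' J^(5Aw) (1 + Nat.log 2 P)/P <= C J^(20Aw+19) (1 + Nat.log 2 P)/J^(4D1), and
1 + Nat.log 2 P <= 1 + 4 D1 (Nat.log 2 J + 1) <= 9 D1 J (J >= 1) and 4 D1 >= 20Aw+24, so the total is <= C'/J.
-/

set_option autoImplicit false

namespace Pool.H82.WP

open Finset MeasureTheory

theorem sup_bad (k : ℕ) (hk : 2 ≤ k) : ∃ D0 : ℕ, 1 ≤ D0 ∧ ∀ D1 : ℕ, D0 ≤ D1 →
    ∀ (A L : ℕ) (c1 : ℝ), 1 ≤ L → 0 < c1 → ∃ (C : ℝ) (J0 : ℕ), 0 < C ∧ ∀ J P : ℕ, J0 ≤ J → P = J ^ (4 * D1) →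
    volume {a | a ∈ Q (k - 1) A ∧ ∃ t : ℝ, c1 / (P : ℝ) ^ (k - 1) ≤ |t| ∧ |t| ≤ (J : ℝ) ^ 3 ∧
        (P : ℝ) / (J : ℝ) ^ 5 ≤ ‖T k a P (L * P) t‖} ≤ ENNReal.ofReal (C / J) := by
  obtain ⟨Aw, hAw, hnet⟩ := net k hk
  refine ⟨5 * Aw + 6, by omega, fun D1 hD1 A L c1 hL hc1 => ?_⟩
  obtain ⟨C1, J01, hC1, hN⟩ := hnet A L c1 hL hc1
  obtain ⟨C2, hC2, hS⟩ := sec_mom_meas k A L hk
  have hD1r : (0 : ℝ) < D1 := by
    have : 0 < D1 := by omega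
    exact_mod_cast this
  refine ⟨C1 * C2 * (max C1 1) * (4 * D1), max J01 1, by positivity, fun J P hJ hP => ?_⟩
  have hJ1 : 1 ≤ J := le_trans (le_max_right _ _) hJ
  have hJr : (1 : ℝ) ≤ J := by exact_mod_cast hJ1
  have hJ0 : (0 : ℝ) < J := by linarith
  have hP1 : 1 ≤ P := by rw [hP]; exact Nat.one_le_pow _ _ hJ1
  have hPr : (P : ℝ) = (J : ℝ) ^ (4 * D1) := by rw [hP]; push_cast; ring
  have hPJ : J ^ (6 * Aw + 1) ≤ P := by
    rw [hP]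
    exact Nat.pow_le_pow_right hJ1 (by omega)
  obtain ⟨N, hNc, hNs, hNa⟩ := hN J P (le_trans (le_max_left _ _) hJ) hPJ
  set C1' : ℝ := max C1 1 with hC1'
  have hC1'1 : 1 ≤ C1' := le_max_right _ _
  have hC1'C : C1 ≤ C1' := le_max_left _ _
  have hC1'0 : 0 < C1' := by linarith
  set τ0 : ℝ := 1 / (C1' * (J : ℝ) ^ (5 * Aw)) with hτ0
  have hJp : (1 : ℝ) ≤ (J : ℝ) ^ (5 * Aw) := one_le_pow₀ hJr
  have hτ0p : 0 < τ0 := by rw [hτ0]; positivity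
  have hτ01 : τ0 ≤ 1 := by
    rw [hτ0, div_le_one (by positivity)]
    nlinarith
  have hτs : ∀ s ∈ N, τ0 ≤ |s| := by
    intro s hs
    have h1 := hNs s hs
    rw [hτ0, div_le_iff₀ (by positivity)]
    calc (1 : ℝ) ≤ C1 * (J : ℝ) ^ (5 * Aw) * |s| := h1
      _ ≤ C1' * (J : ℝ) ^ (5 * Aw) * |s| := by gcongr
      _ = |s| * (C1' * (J : ℝ) ^ (5 * Aw)) := by ring
  set B : ℝ := C2 * (J : ℝ) ^ 10 * (1 + Nat.log 2 P) / (P * τ0) with hB
  have hlog : (1 : ℝ) + Nat.log 2 P ≤ 4 * D1 * J := by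
    have h1 : P < 2 ^ (4 * D1 * J) := by
      rw [hP]
      calc J ^ (4 * D1) < (2 ^ J) ^ (4 * D1) := Nat.pow_lt_pow_left Nat.lt_two_pow_self (by omega)
        _ = 2 ^ (4 * D1 * J) := by rw [← pow_mul]; congr 1; ring
    have h2 : Nat.log 2 P < 4 * D1 * J := Nat.log_lt_of_lt_pow (by omega) h1
    have h3 : 1 + Nat.log 2 P ≤ 4 * D1 * J := by omega
    exact_mod_cast h3
  calc volume {a | a ∈ Q (k - 1) A ∧ ∃ t : ℝ, c1 / (P : ℝ) ^ (k - 1) ≤ |t| ∧ |t| ≤ (J : ℝ) ^ 3 ∧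
        (P : ℝ) / (J : ℝ) ^ 5 ≤ ‖T k a P (L * P) t‖}
      ≤ volume (⋃ s ∈ N, {a | a ∈ Q (k - 1) A ∧ (P : ℝ) / (2 * (J : ℝ) ^ 5) ≤ ‖T k a P (L * P) s‖}) := by
        apply measure_mono
        rintro a ⟨ha, ht⟩
        obtain ⟨s, hs, hs2⟩ := hNa a ha ht
        simp only [Set.mem_iUnion, exists_prop]
        exact ⟨s, hs, ha, hs2⟩
    _ ≤ ∑ s ∈ N, volume {a | a ∈ Q (k - 1) A ∧ (P : ℝ) / (2 * (J : ℝ) ^ 5) ≤ ‖T k a P (L * P) s‖} :=
        measure_biUnion_finset_le _ _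
    _ ≤ ∑ _s ∈ N, ENNReal.ofReal B := by
        refine Finset.sum_le_sum fun s hs => ?_
        exact hS P J s τ0 hP1 hJ1 hτ0p hτ01 (hτs s hs)
    _ = ENNReal.ofReal (N.card * B) := by
        rw [Finset.sum_const, nsmul_eq_mul, ENNReal.ofReal_mul (Nat.cast_nonneg _), ENNReal.ofReal_natCast]
    _ ≤ ENNReal.ofReal (C1 * C2 * C1' * (4 * D1) / J) := by
        apply ENNReal.ofReal_le_ofReal
        have hB0 : 0 ≤ B := by rw [hB]; positivity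
        have hBle : B ≤ C2 * (J : ℝ) ^ 10 * (4 * D1 * J) * (C1' * (J : ℝ) ^ (5 * Aw)) / P := by
          rw [hB]
          have e1 : C2 * (J : ℝ) ^ 10 * (1 + Nat.log 2 P) / (P * τ0) =
              C2 * (J : ℝ) ^ 10 * (1 + Nat.log 2 P) * (C1' * (J : ℝ) ^ (5 * Aw)) / P := by
            rw [hτ0]
            field_simp
          rw [e1]
          gcongr
        have hPp : (0 : ℝ) < P := by exact_mod_cast hP1
        calc (N.card : ℝ) * B ≤ (C1 * (J : ℝ) ^ (15 * Aw + 9)) *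
              (C2 * (J : ℝ) ^ 10 * (4 * D1 * J) * (C1' * (J : ℝ) ^ (5 * Aw)) / P) :=
              mul_le_mul hNc hBle hB0 (by positivity)
          _ = C1 * C2 * C1' * (4 * D1) * ((J : ℝ) ^ (20 * Aw + 20) / (J : ℝ) ^ (4 * D1)) := by
              rw [hPr]
              have e2 : (J : ℝ) ^ (20 * Aw + 20) =
                  (J : ℝ) ^ (15 * Aw + 9) * (J : ℝ) ^ 10 * J * (J : ℝ) ^ (5 * Aw) := by
                have : 20 * Aw + 20 = (15 * Aw + 9) + 10 + 1 + 5 * Aw := by ring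
                rw [this, pow_add, pow_add, pow_add, pow_one]
              rw [e2]
              ring
          _ ≤ C1 * C2 * C1' * (4 * D1) * (1 / J) := by
              have h5 : (J : ℝ) ^ (20 * Aw + 20) / (J : ℝ) ^ (4 * D1) ≤ 1 / J := by
                rw [div_le_div_iff₀ (by positivity) hJ0, one_mul]
                calc (J : ℝ) ^ (20 * Aw + 20) * J = (J : ℝ) ^ (20 * Aw + 21) := by ring
                  _ ≤ (J : ℝ) ^ (4 * D1) := pow_le_pow_right₀ hJr (by omega)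
              gcongr
          _ = C1 * C2 * C1' * (4 * D1) / J := by ring

end Pool.H82.WP
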