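import Pool.Agent.H82.WP.Compare
import Pool.Agent.H82.WP.SupBad
import Pool.Agent.H82.WP.MeanH

/-!
# Module BADVOL: the measure of the bad set at a scale

Proof: D1 = D0 of `sup_bad`; c1 from `compare`; the bad set is contained in the union of the sets of `markovH` and
`sup_bad`. P = (4^m)^(4 D1): Nat.log 2 P = 8 D1 m, (1 + 8 D1 m)/4^m <= C/2^m.
-/

set_option autoImplicit false

namespace Pool.H82.WP

open Finset MeasureTheory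

/-- the polynomials missing some target of the range at scale P with precision 1/J -/
def BadS (k A L P J : ℕ) : Set (Fin (k - 1) → ℝ) :=
  {a | a ∈ Q (k - 1) A ∧ ∃ tau : ℝ, A1 k * (P : ℝ) ^ k ≤ tau ∧ tau ≤ A2 k L * (P : ℝ) ^ k ∧
    ∀ x ∈ Bx k P, ∀ y ∈ Bx k P, ∀ z ∈ Ioc P (L * P), 1 / (J : ℝ) ≤ |Ph k a x + Ph k a y + F k a z - tau|}

theorem bad_vol (k : ℕ) (hk : 2 ≤ k) : ∃ D1 : ℕ, 1 ≤ D1 ∧ ∀ A L : ℕ, 2 * k ≤ L → ∃ (C : ℝ) (m0 : ℕ), 0 < C ∧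
    ∀ m : ℕ, m0 ≤ m → volume (BadS k A L ((4 ^ m) ^ (4 * D1)) (4 ^ m)) ≤ ENNReal.ofReal (C * (1 / 2 : ℝ) ^ m) := by
  obtain ⟨D0, hD0, hsup⟩ := sup_bad k hk
  refine ⟨D0, hD0, fun A L hL => ?_⟩
  obtain ⟨c1, J0, hc1, hcmp⟩ := compare k A L D0 hk hL hD0
  obtain ⟨C1, J1, hC1, hs⟩ := hsup D0 le_rfl A L c1 (by omega) hc1
  obtain ⟨C2, hC2, hmk⟩ := markovH k A hk
  refine ⟨C2 * (1 + 8 * D0) + C1, max J0 J1, by positivity, fun m hm => ?_⟩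
  set J : ℕ := 4 ^ m with hJ
  set P : ℕ := J ^ (4 * D0) with hP
  have hmJ : m ≤ J := by
    rw [hJ]
    exact (Nat.lt_pow_self (by norm_num)).le
  have hJ0 : J0 ≤ J := (le_max_left _ _).trans (hm.trans hmJ)
  have hJ1 : J1 ≤ J := (le_max_right _ _).trans (hm.trans hmJ)
  have hJp : 1 ≤ J := Nat.one_le_pow _ _ (by norm_num)
  have hPp : 1 ≤ P := Nat.one_le_pow _ _ hJp
  have hsub : BadS k A L P J ⊆ {a | a ∈ Q (k - 1) A ∧ (P : ℝ) ^ k * J ≤ H k P a} ∪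
      {a | a ∈ Q (k - 1) A ∧ ∃ t : ℝ, c1 / (P : ℝ) ^ (k - 1) ≤ |t| ∧ |t| ≤ (J : ℝ) ^ 3 ∧
        (P : ℝ) / (J : ℝ) ^ 5 ≤ ‖T k a P (L * P) t‖} := by
    rintro a ⟨ha, tau, h1, h2, h3⟩
    by_contra hcon
    rw [Set.mem_union, not_or] at hcon
    obtain ⟨n1, n2⟩ := hcon
    have n1' : H k P a < (P : ℝ) ^ k * J := by
      by_contra h
      exact n1 ⟨ha, not_lt.mp h⟩
    have n2' : ∀ t : ℝ, c1 / (P : ℝ) ^ (k - 1) ≤ |t| → |t| ≤ (J : ℝ) ^ 3 →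
        ‖T k a P (L * P) t‖ < (P : ℝ) / (J : ℝ) ^ 5 := by
      intro t ht1 ht2
      by_contra h
      exact n2 ⟨ha, t, ht1, ht2, not_lt.mp h⟩
    obtain ⟨x, hx, y, hy, z, hz, hlt⟩ := hcmp J P hJ0 hP a ha n1' n2' tau h1 h2
    exact absurd hlt (not_lt.mpr (h3 x hx y hy z hz))
  have hlog : Nat.log 2 P = 8 * D0 * m := by
    have : P = 2 ^ (8 * D0 * m) := by
      rw [hP, hJ, show (4 : ℕ) = 2 ^ 2 by norm_num, ← pow_mul, ← pow_mul]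
      congr 1
      ring
    rw [this, Nat.log_pow (by norm_num)]
  have hJr : (J : ℝ) = 2 ^ m * 2 ^ m := by
    rw [hJ, ← mul_pow]
    push_cast
    norm_num
  have h2m : (m : ℝ) + 1 ≤ 2 ^ m := by
    have : m + 1 ≤ 2 ^ m := Nat.lt_two_pow_self
    exact_mod_cast this
  have h2p : (0 : ℝ) < 2 ^ m := by positivity
  have hm0 : (0 : ℝ) ≤ m := Nat.cast_nonneg m
  have hD0r : (0 : ℝ) ≤ D0 := Nat.cast_nonneg D0
  calc volume (BadS k A L P J) ≤ _ := measure_mono hsub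
    _ ≤ volume {a | a ∈ Q (k - 1) A ∧ (P : ℝ) ^ k * J ≤ H k P a} +
        volume {a | a ∈ Q (k - 1) A ∧ ∃ t : ℝ, c1 / (P : ℝ) ^ (k - 1) ≤ |t| ∧ |t| ≤ (J : ℝ) ^ 3 ∧
        (P : ℝ) / (J : ℝ) ^ 5 ≤ ‖T k a P (L * P) t‖} := measure_union_le _ _
    _ ≤ ENNReal.ofReal (C2 * (1 + Nat.log 2 P) / J) + ENNReal.ofReal (C1 / J) :=
        add_le_add (hmk P J hPp hJp) (hs J P hJ1 hP)
    _ = ENNReal.ofReal (C2 * (1 + Nat.log 2 P) / J + C1 / J) := by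
        rw [ENNReal.ofReal_add (by positivity) (by positivity)]
    _ ≤ ENNReal.ofReal ((C2 * (1 + 8 * D0) + C1) * (1 / 2 : ℝ) ^ m) := by
        apply ENNReal.ofReal_le_ofReal
        rw [hlog, hJr, one_div, inv_pow, ← div_eq_mul_inv, ← add_div, div_le_div_iff₀ (by positivity) h2p]
        push_cast
        have e1 : C2 * (1 + 8 * (D0 : ℝ) * m) ≤ C2 * ((1 + 8 * D0) * 2 ^ m) := by
          apply mul_le_mul_of_nonneg_left _ hC2.le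
          nlinarith
        have e2 : C1 ≤ C1 * 2 ^ m := by nlinarith
        have e3 : (C2 * (1 + 8 * (D0 : ℝ) * m) + C1) ≤ (C2 * (1 + 8 * D0) + C1) * 2 ^ m := by linarith
        calc (C2 * (1 + 8 * (D0 : ℝ) * m) + C1) * 2 ^ m ≤ ((C2 * (1 + 8 * D0) + C1) * 2 ^ m) * 2 ^ m :=
              mul_le_mul_of_nonneg_right e3 h2p.le
          _ = (C2 * (1 + 8 * D0) + C1) * (2 ^ m * 2 ^ m) := by ring

end Pool.H82.WP
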