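import Pool.Agent.H19.Wa.Kus
import Pool.Agent.H82.WP.Defs

/-!
# Module KL: Kusmin-Landau bound for small frequencies

Proof of `kl`. Let y >= P0 (large in terms of k, A). Growth facts for |a_j| <= A (`mem_Q`), y >= 1:
(i) D(y) = F(y+1) - F(y) >= y^(k-1): (y+1)^k - y^k >= k y^(k-1) and |∑ a_j ((y+1)^(j+1) - y^(j+1))| <= A ∑_{j<k-1}
(j+1)(2y)^j <= C y^(k-2), so D(y) >= k y^(k-1) - C y^(k-2) >= y^(k-1) for y >= C (k >= 2).
(ii) D(y) <= C2 (LP)^(k-1) for y + 1 <= LP.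
(iii) D(y+1) >= D(y): second difference; F is convex on [P0, ∞): F''(y) = k(k-1) y^(k-2) + ∑_{j>=1} a_j (j+1) j y^(j-1)
>= k(k-1) y^(k-2) - A k^3 y^(k-3) >= 0 for y large (for k = 2 the sum is empty/zero). (Or elementary: second differences
of y^m are between 0 and C y^(m-2), and at least k(k-1)y^(k-2) for m = k.)
Let 0 < t <= c1/P^(k-1), c1 so small that t C2 (LP)^(k-1) <= 1/2 and t P^(k-1) <= 1/2. `kusmin` (Kus.lean) with
θ n = t F(u+1+n), N + 1 = v - u (if v <= u the sum is empty), lam = t P^(k-1): ‖∑‖ <= 2/(t P^(k-1)).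
The case t < 0: T(-t) is the complex conjugate of T(t) (`e_neg`). C = 2.
-/

set_option autoImplicit false

namespace Pool.H82.WP

open Finset
open Pool.H19.Wa (e)

/-- the derivative of F -/
private noncomputable def klF1 (k : ℕ) (a : Fin (k - 1) → ℝ) (x : ℝ) : ℝ :=
  k * x ^ (k - 1) + ∑ j : Fin (k - 1), a j * ((((j : ℕ) + 1 : ℕ) : ℝ) * x ^ (j : ℕ))

/-- the second derivative of F -/
private noncomputable def klF2 (k : ℕ) (a : Fin (k - 1) → ℝ) (x : ℝ) : ℝ :=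
  k * (((k - 1 : ℕ) : ℝ) * x ^ (k - 1 - 1)) +
    ∑ j : Fin (k - 1), a j * ((((j : ℕ) + 1 : ℕ) : ℝ) * (((j : ℕ) : ℝ) * x ^ ((j : ℕ) - 1)))

private theorem kl_deriv (k : ℕ) (a : Fin (k - 1) → ℝ) (x : ℝ) :
    HasDerivAt (F k a) (klF1 k a x) x := by
  unfold F klF1
  refine (hasDerivAt_pow k x).add ?_
  refine HasDerivAt.fun_sum fun j _ => ?_
  exact (hasDerivAt_pow ((j : ℕ) + 1) x).const_mul (a j)

private theorem kl_deriv2 (k : ℕ) (a : Fin (k - 1) → ℝ) (x : ℝ) :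
    HasDerivAt (klF1 k a) (klF2 k a x) x := by
  unfold klF1 klF2
  refine ((hasDerivAt_pow (k - 1) x).const_mul (k : ℝ)).add ?_
  refine HasDerivAt.fun_sum fun j _ => ?_
  exact ((hasDerivAt_pow (j : ℕ) x).const_mul ((((j : ℕ) + 1 : ℕ) : ℝ))).const_mul (a j)

private theorem kl_sum1 (k A : ℕ) (hk : 2 ≤ k) (a : Fin (k - 1) → ℝ) (ha : ∀ j, |a j| ≤ A) (x : ℝ)
    (hx : 1 ≤ x) : |∑ j : Fin (k - 1), a j * ((((j : ℕ) + 1 : ℕ) : ℝ) * x ^ (j : ℕ))| ≤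
      (A : ℝ) * (k : ℝ) ^ 2 * x ^ (k - 2) := by
  have hx0 : (0 : ℝ) ≤ x := by linarith
  calc |∑ j : Fin (k - 1), a j * ((((j : ℕ) + 1 : ℕ) : ℝ) * x ^ (j : ℕ))|
      ≤ ∑ j : Fin (k - 1), |a j * ((((j : ℕ) + 1 : ℕ) : ℝ) * x ^ (j : ℕ))| :=
        Finset.abs_sum_le_sum_abs _ _
    _ ≤ ∑ _j : Fin (k - 1), (A : ℝ) * ((k : ℝ) * x ^ (k - 2)) := by
        refine Finset.sum_le_sum fun j _ => ?_
        rw [abs_mul]
        refine mul_le_mul (ha j) ?_ (abs_nonneg _) (Nat.cast_nonneg A)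
        rw [abs_of_nonneg (by positivity)]
        have hj := j.2
        refine mul_le_mul ?_ ?_ (by positivity) (by positivity)
        · exact_mod_cast (by omega : (j : ℕ) + 1 ≤ k)
        · exact pow_le_pow_right₀ hx (by omega)
    _ = ((k - 1 : ℕ) : ℝ) * ((A : ℝ) * ((k : ℝ) * x ^ (k - 2))) := by
        rw [Finset.sum_const, Finset.card_univ, Fintype.card_fin, nsmul_eq_mul]
    _ ≤ (k : ℝ) * ((A : ℝ) * ((k : ℝ) * x ^ (k - 2))) := by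
        refine mul_le_mul_of_nonneg_right ?_ (by positivity)
        exact_mod_cast (by omega : k - 1 ≤ k)
    _ = (A : ℝ) * (k : ℝ) ^ 2 * x ^ (k - 2) := by ring

private theorem kl_sum2 (k A : ℕ) (hk : 2 ≤ k) (a : Fin (k - 1) → ℝ) (ha : ∀ j, |a j| ≤ A) (x : ℝ)
    (hx : 1 ≤ x) : |x * ∑ j : Fin (k - 1),
      a j * ((((j : ℕ) + 1 : ℕ) : ℝ) * (((j : ℕ) : ℝ) * x ^ ((j : ℕ) - 1)))| ≤
      (A : ℝ) * (k : ℝ) ^ 3 * x ^ (k - 2) := by
  have hx0 : (0 : ℝ) ≤ x := by linarith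
  rw [Finset.mul_sum]
  calc |∑ j : Fin (k - 1), x * (a j * ((((j : ℕ) + 1 : ℕ) : ℝ) *
        (((j : ℕ) : ℝ) * x ^ ((j : ℕ) - 1))))|
      ≤ ∑ j : Fin (k - 1), |x * (a j * ((((j : ℕ) + 1 : ℕ) : ℝ) *
        (((j : ℕ) : ℝ) * x ^ ((j : ℕ) - 1))))| :=
        Finset.abs_sum_le_sum_abs _ _
    _ ≤ ∑ _j : Fin (k - 1), (A : ℝ) * ((k : ℝ) * ((k : ℝ) * x ^ (k - 2))) := by
        refine Finset.sum_le_sum fun j _ => ?_
        have hj := j.2
        have e1 : x * (a j * ((((j : ℕ) + 1 : ℕ) : ℝ) * (((j : ℕ) : ℝ) * x ^ ((j : ℕ) - 1)))) =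
            a j * ((((j : ℕ) + 1 : ℕ) : ℝ) * (((j : ℕ) : ℝ) * x ^ (j : ℕ))) := by
          rcases Nat.eq_zero_or_pos (j : ℕ) with h | h
          · rw [h]; simp
          · have : x ^ (j : ℕ) = x * x ^ ((j : ℕ) - 1) := by
              rw [← pow_succ']; congr 1; omega
            rw [this]; ring
        rw [e1, abs_mul]
        refine mul_le_mul (ha j) ?_ (abs_nonneg _) (Nat.cast_nonneg A)
        rw [abs_of_nonneg (by positivity)]
        refine mul_le_mul ?_ ?_ (by positivity) (by positivity)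
        · exact_mod_cast (by omega : (j : ℕ) + 1 ≤ k)
        · refine mul_le_mul ?_ ?_ (by positivity) (by positivity)
          · exact_mod_cast (by omega : (j : ℕ) ≤ k)
          · exact pow_le_pow_right₀ hx (by omega)
    _ = ((k - 1 : ℕ) : ℝ) * ((A : ℝ) * ((k : ℝ) * ((k : ℝ) * x ^ (k - 2)))) := by
        rw [Finset.sum_const, Finset.card_univ, Fintype.card_fin, nsmul_eq_mul]
    _ ≤ (k : ℝ) * ((A : ℝ) * ((k : ℝ) * ((k : ℝ) * x ^ (k - 2)))) := by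
        refine mul_le_mul_of_nonneg_right ?_ (by positivity)
        exact_mod_cast (by omega : k - 1 ≤ k)
    _ = (A : ℝ) * (k : ℝ) ^ 3 * x ^ (k - 2) := by ring

private theorem kl_pow (k : ℕ) (hk : 2 ≤ k) (x : ℝ) : x ^ (k - 1) = x * x ^ (k - 2) := by
  rw [← pow_succ']; congr 1; omega

private theorem kl_F1_lower (k A : ℕ) (hk : 2 ≤ k) (a : Fin (k - 1) → ℝ) (ha : ∀ j, |a j| ≤ A)
    (x : ℝ) (hx : 1 ≤ x) (hx2 : (A : ℝ) * (k : ℝ) ^ 2 ≤ x) : x ^ (k - 1) ≤ klF1 k a x := by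
  have h := (abs_le.1 (kl_sum1 k A hk a ha x hx)).1
  unfold klF1
  have h2 : (2 : ℝ) ≤ k := by exact_mod_cast hk
  have h3 : (0 : ℝ) ≤ x ^ (k - 2) := by positivity
  have h4 := kl_pow k hk x
  have h5 : (A : ℝ) * (k : ℝ) ^ 2 * x ^ (k - 2) ≤ x ^ (k - 1) := by
    rw [h4]; exact mul_le_mul_of_nonneg_right hx2 h3
  have h6 : (0 : ℝ) ≤ x ^ (k - 1) := by positivity
  nlinarith

private theorem kl_F1_upper (k A : ℕ) (hk : 2 ≤ k) (a : Fin (k - 1) → ℝ) (ha : ∀ j, |a j| ≤ A)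
    (x : ℝ) (hx : 1 ≤ x) : klF1 k a x ≤ ((k : ℝ) + (A : ℝ) * (k : ℝ) ^ 2) * x ^ (k - 1) := by
  have h := (abs_le.1 (kl_sum1 k A hk a ha x hx)).2
  unfold klF1
  have h3 : (0 : ℝ) ≤ x ^ (k - 2) := by positivity
  have h4 := kl_pow k hk x
  have h5 : x ^ (k - 2) ≤ x ^ (k - 1) := by
    rw [h4]; nlinarith
  have h6 : (A : ℝ) * (k : ℝ) ^ 2 * x ^ (k - 2) ≤ (A : ℝ) * (k : ℝ) ^ 2 * x ^ (k - 1) :=
    mul_le_mul_of_nonneg_left h5 (by positivity)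
  linarith

private theorem kl_F2_nonneg (k A : ℕ) (hk : 2 ≤ k) (a : Fin (k - 1) → ℝ) (ha : ∀ j, |a j| ≤ A)
    (x : ℝ) (hx : 1 ≤ x) (hx2 : (A : ℝ) * (k : ℝ) ^ 3 ≤ x) : 0 ≤ klF2 k a x := by
  have h := (abs_le.1 (kl_sum2 k A hk a ha x hx)).1
  have hx0 : 0 < x := by linarith
  refine nonneg_of_mul_nonneg_right (a := x) ?_ hx0
  unfold klF2
  rw [mul_add]
  have h3 : (0 : ℝ) ≤ x ^ (k - 2) := by positivity
  have h4 : (A : ℝ) * (k : ℝ) ^ 3 * x ^ (k - 2) ≤ x * x ^ (k - 2) :=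
    mul_le_mul_of_nonneg_right hx2 h3
  have h5 : x * x ^ (k - 2) ≤ x * ((k : ℝ) * (((k - 1 : ℕ) : ℝ) * x ^ (k - 1 - 1))) := by
    refine mul_le_mul_of_nonneg_left ?_ hx0.le
    have e1 : k - 1 - 1 = k - 2 := by omega
    rw [e1]
    have h6 : (1 : ℝ) ≤ k := by exact_mod_cast (by omega : 1 ≤ k)
    have h7 : (1 : ℝ) ≤ ((k - 1 : ℕ) : ℝ) := by exact_mod_cast (by omega : 1 ≤ k - 1)
    have h8 : x ^ (k - 2) ≤ ((k - 1 : ℕ) : ℝ) * x ^ (k - 2) := by nlinarith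
    nlinarith
  linarith

private theorem kl_mean (k : ℕ) (a : Fin (k - 1) → ℝ) (y : ℝ) :
    ∃ c, y < c ∧ c < y + 1 ∧ F k a (y + 1) - F k a y = klF1 k a c := by
  obtain ⟨c, hc, h⟩ := exists_hasDerivAt_eq_slope (F k a) (klF1 k a) (by linarith : y < y + 1)
    (fun x _ => (kl_deriv k a x).continuousAt.continuousWithinAt)
    (fun x _ => kl_deriv k a x)
  refine ⟨c, hc.1, hc.2, ?_⟩
  rw [h]
  have : y + 1 - y = 1 := by ring
  rw [this, div_one]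

private theorem kl_convex (k A : ℕ) (hk : 2 ≤ k) (a : Fin (k - 1) → ℝ) (ha : ∀ j, |a j| ≤ A)
    (y : ℝ) (hy : 1 ≤ y) (hy2 : (A : ℝ) * (k : ℝ) ^ 3 ≤ y) :
    F k a (y + 1) - F k a y ≤ F k a (y + 2) - F k a (y + 1) := by
  obtain ⟨c, hc1, hc2, hc⟩ := kl_mean k a y
  obtain ⟨c', hd1, hd2, hd⟩ := kl_mean k a (y + 1)
  have e1 : y + 1 + 1 = y + 2 := by ring
  rw [e1] at hd
  rw [hc, hd]
  have hmono : MonotoneOn (klF1 k a) (Set.Ici y) := by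
    refine monotoneOn_of_deriv_nonneg (convex_Ici y)
      (fun x _ => (kl_deriv2 k a x).continuousAt.continuousWithinAt)
      (fun x _ => (kl_deriv2 k a x).differentiableAt.differentiableWithinAt) ?_
    intro x hx
    rw [interior_Ici] at hx
    rw [(kl_deriv2 k a x).deriv]
    exact kl_F2_nonneg k A hk a ha x (hy.trans (Set.mem_Ioi.1 hx).le)
      (hy2.trans (Set.mem_Ioi.1 hx).le)
  exact hmono (Set.mem_Ici.2 hc1.le) (Set.mem_Ici.2 (by linarith)) (by linarith)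

private theorem kl_pos (k A L : ℕ) (hk : 2 ≤ k) (P : ℕ) (hP : A * k ^ 3 + 1 ≤ P)
    (a : Fin (k - 1) → ℝ) (ha : ∀ j, |a j| ≤ A) (u v : ℕ) (hu : P ≤ u) (hv : v ≤ L * P) (t : ℝ)
    (ht : 0 < t) (ht1 : t * (P : ℝ) ^ (k - 1) ≤
      1 / (2 * (((k : ℝ) + (A : ℝ) * (k : ℝ) ^ 2) * (L : ℝ) ^ (k - 1) + 1))) :
    ‖T k a u v t‖ ≤ 2 / (t * (P : ℝ) ^ (k - 1)) := by
  have hP1 : 1 ≤ P := by omega
  have hP0 : (0 : ℝ) < P := by exact_mod_cast hP1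
  have hlam : 0 < t * (P : ℝ) ^ (k - 1) := by positivity
  rcases Nat.lt_or_ge u v with huv | huv
  swap
  · unfold T
    rw [Finset.Ioc_eq_empty (by omega), Finset.sum_empty, norm_zero]
    positivity
  set C2 : ℝ := (k : ℝ) + (A : ℝ) * (k : ℝ) ^ 2 with hC2
  have hC20 : 0 ≤ C2 := by positivity
  have hM0 : 0 ≤ C2 * (L : ℝ) ^ (k - 1) := by positivity
  have hbig : ∀ n : ℕ, ∀ y : ℝ, y = ((u + 1 + n : ℕ) : ℝ) → (P : ℝ) ≤ y ∧ 1 ≤ y ∧
      (A : ℝ) * (k : ℝ) ^ 3 ≤ y := by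
    intro n y hy
    have h1 : (P : ℝ) ≤ y := by rw [hy]; exact_mod_cast (by omega : P ≤ u + 1 + n)
    have h2 : ((A * k ^ 3 + 1 : ℕ) : ℝ) ≤ P := by exact_mod_cast hP
    push_cast at h2
    have h3 : (0 : ℝ) ≤ (A : ℝ) * (k : ℝ) ^ 3 := by positivity
    exact ⟨h1, by linarith, by linarith⟩
  obtain ⟨N, hN⟩ : ∃ N, v - u = N + 1 := ⟨v - u - 1, by omega⟩
  have hT : T k a u v t = ∑ n ∈ Finset.range (N + 1), e (t * F k a ((u + 1 + n : ℕ) : ℝ)) := by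
    unfold T
    have e1 : Finset.Ioc u v = Finset.Ico (u + 1) (v + 1) := by
      ext x; simp only [Finset.mem_Ioc, Finset.mem_Ico]; omega
    rw [e1, Finset.sum_Ico_eq_sum_range]
    have e2 : v + 1 - (u + 1) = N + 1 := by omega
    rw [e2]
  have hk23 : (A : ℝ) * (k : ℝ) ^ 2 ≤ (A : ℝ) * (k : ℝ) ^ 3 := by
    refine mul_le_mul_of_nonneg_left ?_ (Nat.cast_nonneg A)
    exact pow_le_pow_right₀ (by exact_mod_cast (by omega : 1 ≤ k)) (by norm_num)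
  have hle12 : t * (P : ℝ) ^ (k - 1) ≤ 1 / 2 := by
    refine ht1.trans ?_
    refine one_div_le_one_div_of_le (by norm_num) ?_
    linarith
  rw [hT]
  refine Pool.H19.Wa.kusmin N (fun n => t * F k a ((u + 1 + n : ℕ) : ℝ)) (t * (P : ℝ) ^ (k - 1))
    hlam ?_ ?_ ?_ hle12
  · intro n _
    obtain ⟨h1, h2, h3⟩ := hbig n _ rfl
    have h := kl_convex k A hk a ha _ h2 h3
    have e1 : ((u + 1 + (n + 1) : ℕ) : ℝ) = ((u + 1 + n : ℕ) : ℝ) + 1 := by push_cast; ring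
    have e2 : ((u + 1 + (n + 2) : ℕ) : ℝ) = ((u + 1 + n : ℕ) : ℝ) + 2 := by push_cast; ring
    simp only [e1, e2]
    have := mul_le_mul_of_nonneg_left h ht.le
    linarith
  · intro n _
    obtain ⟨h1, h2, h3⟩ := hbig n _ rfl
    obtain ⟨c, hc1, hc2, hc⟩ := kl_mean k a ((u + 1 + n : ℕ) : ℝ)
    have e1 : ((u + 1 + (n + 1) : ℕ) : ℝ) = ((u + 1 + n : ℕ) : ℝ) + 1 := by push_cast; ring
    simp only [e1]
    rw [← mul_sub, hc]
    refine mul_le_mul_of_nonneg_left ?_ ht.le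
    refine le_trans ?_ (kl_F1_lower k A hk a ha c (by linarith) (by linarith))
    exact pow_le_pow_left₀ hP0.le (by linarith) _
  · intro n hn
    obtain ⟨h1, h2, h3⟩ := hbig n _ rfl
    obtain ⟨c, hc1, hc2, hc⟩ := kl_mean k a ((u + 1 + n : ℕ) : ℝ)
    have e1 : ((u + 1 + (n + 1) : ℕ) : ℝ) = ((u + 1 + n : ℕ) : ℝ) + 1 := by push_cast; ring
    simp only [e1]
    rw [← mul_sub, hc]
    have h4 : c ≤ (L : ℝ) * P := by
      have : ((u + 1 + n : ℕ) : ℝ) + 1 ≤ (L : ℝ) * P := by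
        have : u + 1 + n + 1 ≤ L * P := by omega
        exact_mod_cast this
      linarith
    have h5 : klF1 k a c ≤ C2 * ((L : ℝ) * P) ^ (k - 1) := by
      refine (kl_F1_upper k A hk a ha c (by linarith)).trans ?_
      refine mul_le_mul_of_nonneg_left ?_ hC20
      exact pow_le_pow_left₀ (by linarith) h4 _
    calc t * klF1 k a c ≤ t * (C2 * ((L : ℝ) * P) ^ (k - 1)) := mul_le_mul_of_nonneg_left h5 ht.le
      _ = (C2 * (L : ℝ) ^ (k - 1)) * (t * (P : ℝ) ^ (k - 1)) := by rw [mul_pow]; ring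
      _ ≤ (C2 * (L : ℝ) ^ (k - 1)) * (1 / (2 * (C2 * (L : ℝ) ^ (k - 1) + 1))) :=
          mul_le_mul_of_nonneg_left ht1 hM0
      _ ≤ 1 / 2 := by
          rw [mul_one_div, div_le_div_iff₀ (by positivity) (by norm_num)]
          linarith

theorem kl (k A L : ℕ) (hk : 2 ≤ k) : ∃ (c1 C : ℝ) (P0 : ℕ), 0 < c1 ∧ 0 < C ∧
    ∀ P : ℕ, P0 ≤ P → ∀ a ∈ Q (k - 1) A, ∀ u v : ℕ, P ≤ u → v ≤ L * P → ∀ t : ℝ, t ≠ 0 →
      |t| ≤ c1 / (P : ℝ) ^ (k - 1) → ‖T k a u v t‖ ≤ C / (|t| * (P : ℝ) ^ (k - 1)) := by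
  refine ⟨1 / (2 * (((k : ℝ) + (A : ℝ) * (k : ℝ) ^ 2) * (L : ℝ) ^ (k - 1) + 1)), 2,
    A * k ^ 3 + 1, by positivity, by norm_num, ?_⟩
  intro P hP a ha u v hu hv t ht0 ht
  have ha' := mem_Q.1 ha
  have hP0 : (0 : ℝ) < P := by exact_mod_cast (by omega : 0 < P)
  have hPk : (0 : ℝ) < (P : ℝ) ^ (k - 1) := by positivity
  have ht1 := (le_div_iff₀ hPk).1 ht
  rcases lt_or_gt_of_ne ht0 with h | h
  · rw [abs_of_neg h] at ht1 ⊢
    have hconj : T k a u v t = (starRingEnd ℂ) (T k a u v (-t)) := by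
      unfold T
      rw [map_sum]
      refine Finset.sum_congr rfl fun x _ => ?_
      rw [← Pool.H19.Wa.e_neg]
      congr 1
      ring
    rw [hconj, RCLike.norm_conj]
    exact kl_pos k A L hk P hP a ha' u v hu hv (-t) (by linarith) ht1
  · rw [abs_of_pos h] at ht1 ⊢
    exact kl_pos k A L hk P hP a ha' u v hu hv t h ht1

end Pool.H82.WP
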