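import Pool.Agent.H82.WP.Defs

/-!
# Module MAINCOUNT: lower bound for the coarse count of representations

Proof of `main_count`. P = R^4, b2 = R^2/P^k. Let |a_j| <= A. For P >= P0 (large in terms of k, A, L):
(i) for P <= y <= L P: y^k/2 <= F(y) <= 2 y^k (since |∑ a_j y^(j+1)| <= k A y^(k-1)), also for the numbers y up to 2kP.
(ii) for real P <= y, y' <= LP: |F(y) - F(y')| <= C1 P^(k-1) |y - y'| (mean value theorem or
`abs_pow_sub_pow_le`).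
Let x, y in Bx k P: 0 <= Ph x, Ph y <= k * 2 (2kP)^k, so σ = τ - Ph x - Ph y satisfies
σ <= τ <= L^k P^k/2 <= F(LP), σ >= A1 P^k - 4k (2k)^k P^k = 2 (2k)^k P^k >= F(P) (A1 = 2(2k+1)(2k)^k).
By the intermediate value theorem there is a real y0 in [P, LP] with F(y0) = σ. If an integer z in (P, LP] satisfies
|z - y0| <= R^2/C1 then |F(z) - σ| <= P^(k-1) R^2 = P^k/R^2. The number of such z is at least R^2/C1 - 1 >= R^2/(2 C1) if
R is large (one of the intervals [y0, y0 + R^2/C1], [y0 - R^2/C1, y0] minus {P} is inside (P, LP], as LP - P >= P = R^4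
>= 2R^2/C1, L >= 2; if the range of τ is nonempty then L >= 2 automatically, but L >= 2 is also assumed).
Each such z contributes exp(-π b2^2 (F(z)-σ)^2) >= exp(-π). So Rb >= P^k P^k (R^2/(2 C1)) e^(-π) and
b2 Rb >= (R^2/P^k) P^(2k) R^2 e^(-π)/(2 C1) = P^(k+1) e^(-π)/(2 C1).
-/

set_option autoImplicit false

namespace Pool.H82.WP

open Finset

private theorem mc_low {k A : ℕ} (hk : 2 ≤ k) {a : Fin (k - 1) → ℝ} (ha : a ∈ Q (k - 1) A) {y : ℝ}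
    (hy1 : 1 ≤ y) (hy : 2 * (k : ℝ) * A ≤ y) :
    |∑ j, a j * y ^ ((j : ℕ) + 1)| ≤ y ^ k / 2 := by
  rw [mem_Q] at ha
  have h1 : |∑ j, a j * y ^ ((j : ℕ) + 1)| ≤ ∑ j : Fin (k - 1), (A : ℝ) * y ^ (k - 1) := by
    refine (Finset.abs_sum_le_sum_abs _ _).trans (Finset.sum_le_sum fun j _ => ?_)
    rw [abs_mul, abs_of_nonneg (pow_nonneg (by linarith) _ : (0 : ℝ) ≤ y ^ ((j : ℕ) + 1))]
    have hj := j.2
    exact mul_le_mul (ha j) (pow_le_pow_right₀ hy1 (by omega)) (by positivity) (by positivity)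
  refine h1.trans ?_
  rw [Finset.sum_const, Finset.card_univ, Fintype.card_fin, nsmul_eq_mul]
  have h2 : ((k - 1 : ℕ) : ℝ) ≤ k := by exact_mod_cast Nat.sub_le k 1
  have h3 : y ^ k = y * y ^ (k - 1) := by
    rw [← pow_succ', Nat.sub_add_cancel (by omega)]
  have h4 : 0 < y ^ (k - 1) := by positivity
  calc ((k - 1 : ℕ) : ℝ) * ((A : ℝ) * y ^ (k - 1)) ≤ (k : ℝ) * ((A : ℝ) * y ^ (k - 1)) := by gcongr
    _ = (2 * (k : ℝ) * A) * y ^ (k - 1) / 2 := by ring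
    _ ≤ y * y ^ (k - 1) / 2 := by gcongr
    _ = y ^ k / 2 := by rw [h3]

private theorem mc_F_lower {k A : ℕ} (hk : 2 ≤ k) {a : Fin (k - 1) → ℝ} (ha : a ∈ Q (k - 1) A)
    {y : ℝ} (hy1 : 1 ≤ y) (hy : 2 * (k : ℝ) * A ≤ y) : y ^ k / 2 ≤ F k a y := by
  have h := (abs_le.mp (mc_low hk ha hy1 hy)).1
  unfold F
  linarith

private theorem mc_F_upper {k A : ℕ} (hk : 2 ≤ k) {a : Fin (k - 1) → ℝ} (ha : a ∈ Q (k - 1) A)
    {y : ℝ} (hy1 : 1 ≤ y) (hy : 2 * (k : ℝ) * A ≤ y) : F k a y ≤ 2 * y ^ k := by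
  have h := (abs_le.mp (mc_low hk ha hy1 hy)).2
  have h2 : 0 < y ^ k := by positivity
  unfold F
  linarith

/-- the Lipschitz constant, in units of `P^(k-1)` -/
private noncomputable def mcC (k A L : ℕ) : ℝ := (L : ℝ) ^ (k - 1) * (k + k * (A * k))

private theorem mcC_pos {k A L : ℕ} (hk : 2 ≤ k) (hL : 2 ≤ L) : 1 ≤ mcC k A L := by
  unfold mcC
  have h1 : (1 : ℝ) ≤ (L : ℝ) ^ (k - 1) := one_le_pow₀ (by exact_mod_cast (by omega : 1 ≤ L))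
  have h2 : (1 : ℝ) ≤ k := by exact_mod_cast (by omega : 1 ≤ k)
  have h3 : (0 : ℝ) ≤ k * (A * k) := by positivity
  calc (1 : ℝ) = 1 * 1 := by norm_num
    _ ≤ _ := by gcongr; linarith

private theorem mc_lip {k A L P : ℕ} (hk : 2 ≤ k) (hL : 2 ≤ L) (hP : 1 ≤ P) {a : Fin (k - 1) → ℝ}
    (ha : a ∈ Q (k - 1) A) {y y' : ℝ} (hy0 : 0 ≤ y) (hy0' : 0 ≤ y') (hy : y ≤ L * P)
    (hy' : y' ≤ L * P) :
    |F k a y - F k a y'| ≤ mcC k A L * (P : ℝ) ^ (k - 1) * |y - y'| := by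
  rw [mem_Q] at ha
  have hLP : (1 : ℝ) ≤ L * P := by exact_mod_cast Nat.mul_pos (by omega : 0 < L) hP
  have hpow : ∀ m : ℕ, m + 1 ≤ k → |y ^ (m + 1) - y' ^ (m + 1)| ≤
      |y - y'| * k * ((L : ℝ) * P) ^ (k - 1) := by
    intro m hm
    refine (abs_pow_sub_pow_le y y' (m + 1)).trans ?_
    rw [Nat.add_sub_cancel]
    have h1 : max |y| |y'| ≤ (L : ℝ) * P := by
      rw [abs_of_nonneg hy0, abs_of_nonneg hy0']
      exact max_le hy hy'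
    have h2 : max |y| |y'| ^ m ≤ ((L : ℝ) * P) ^ (k - 1) :=
      (pow_le_pow_left₀ (le_max_of_le_left (abs_nonneg y)) h1 m).trans
        (pow_le_pow_right₀ hLP (by omega))
    have h3 : ((m + 1 : ℕ) : ℝ) ≤ k := by exact_mod_cast hm
    gcongr
  have hmain : |y ^ k - y' ^ k| ≤ |y - y'| * k * ((L : ℝ) * P) ^ (k - 1) := by
    have := hpow (k - 1) (by omega)
    rwa [Nat.sub_add_cancel (by omega)] at this
  have hsum : |∑ j, a j * y ^ ((j : ℕ) + 1) - ∑ j, a j * y' ^ ((j : ℕ) + 1)| ≤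
      (k : ℝ) * (A * (|y - y'| * k * ((L : ℝ) * P) ^ (k - 1))) := by
    rw [← Finset.sum_sub_distrib]
    refine (Finset.abs_sum_le_sum_abs _ _).trans ?_
    have : ∀ j ∈ (Finset.univ : Finset (Fin (k - 1))),
        |a j * y ^ ((j : ℕ) + 1) - a j * y' ^ ((j : ℕ) + 1)| ≤
          A * (|y - y'| * k * ((L : ℝ) * P) ^ (k - 1)) := by
      intro j _
      have hj := j.2
      rw [← mul_sub, abs_mul]
      exact mul_le_mul (ha j) (hpow j (by omega)) (abs_nonneg _) (by positivity)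
    refine (Finset.sum_le_sum this).trans ?_
    rw [Finset.sum_const, Finset.card_univ, Fintype.card_fin, nsmul_eq_mul]
    have h2 : ((k - 1 : ℕ) : ℝ) ≤ k := by exact_mod_cast Nat.sub_le k 1
    gcongr
  unfold F mcC
  calc |y ^ k + ∑ j, a j * y ^ ((j : ℕ) + 1) - (y' ^ k + ∑ j, a j * y' ^ ((j : ℕ) + 1))|
      = |(y ^ k - y' ^ k) +
          (∑ j, a j * y ^ ((j : ℕ) + 1) - ∑ j, a j * y' ^ ((j : ℕ) + 1))| := by ring_nf
    _ ≤ |y ^ k - y' ^ k| +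
          |∑ j, a j * y ^ ((j : ℕ) + 1) - ∑ j, a j * y' ^ ((j : ℕ) + 1)| := abs_add_le _ _
    _ ≤ |y - y'| * k * ((L : ℝ) * P) ^ (k - 1) +
          (k : ℝ) * (A * (|y - y'| * k * ((L : ℝ) * P) ^ (k - 1))) := add_le_add hmain hsum
    _ = (L : ℝ) ^ (k - 1) * (k + k * (A * k)) * (P : ℝ) ^ (k - 1) * |y - y'| := by
        rw [mul_pow]; ring

private theorem mc_cont (k : ℕ) (a : Fin (k - 1) → ℝ) : Continuous (fun y : ℝ => F k a y) := by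
  unfold F
  fun_prop

/-- the inner sum -/
private theorem mc_inner {k A L : ℕ} (hk : 2 ≤ k) (hL : 2 ≤ L) {R P : ℕ} (hR2 : 2 ≤ R)
    (hRA : 2 * k * A ≤ R) (hRC : 2 * mcC k A L ≤ (R : ℝ)) (hP : P = R ^ 4) {a : Fin (k - 1) → ℝ}
    (ha : a ∈ Q (k - 1) A) {s : ℝ} (hs1 : 2 * (P : ℝ) ^ k ≤ s) (hs2 : s ≤ (L : ℝ) ^ k / 2 * (P : ℝ) ^ k) :
    (R : ℝ) ^ 2 / (2 * mcC k A L) * Real.exp (-Real.pi) ≤
      ∑ z ∈ Ioc P (L * P),
        Real.exp (-(Real.pi * ((R : ℝ) ^ 2 / (P : ℝ) ^ k) ^ 2 * (F k a z - s) ^ 2)) := by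
  have hC := mcC_pos (A := A) hk hL
  have hR1 : (2 : ℝ) ≤ R := by exact_mod_cast hR2
  have hRP : R ≤ P := by
    rw [hP]
    calc R = R ^ 1 := (pow_one R).symm
      _ ≤ R ^ 4 := Nat.pow_le_pow_right (by omega) (by norm_num)
  have hP1 : 1 ≤ P := by omega
  have hPR : (P : ℝ) = (R : ℝ) ^ 4 := by rw [hP]; push_cast; ring
  have hP1' : (1 : ℝ) ≤ P := by exact_mod_cast hP1
  have hPA : 2 * (k : ℝ) * A ≤ P := by exact_mod_cast hRA.trans hRP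
  have hL2 : (2 : ℝ) ≤ L := by exact_mod_cast hL
  have hLP : (P : ℝ) ≤ L * P := by nlinarith
  -- the point y0
  have hF1 : F k a P ≤ s := (mc_F_upper hk ha hP1' hPA).trans hs1
  have hF2 : s ≤ F k a ((L : ℝ) * P) := by
    refine hs2.trans ?_
    have h1 := mc_F_lower hk ha (y := (L : ℝ) * P) (hP1'.trans hLP) (hPA.trans hLP)
    calc (L : ℝ) ^ k / 2 * (P : ℝ) ^ k = ((L : ℝ) * P) ^ k / 2 := by rw [mul_pow]; ring
      _ ≤ _ := h1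
  obtain ⟨y0, ⟨hy1, hy2⟩, hy3⟩ :=
    intermediate_value_Icc hLP (mc_cont k a).continuousOn ⟨hF1, hF2⟩
  have hy3 : F k a y0 = s := hy3
  obtain ⟨h, hh⟩ : ∃ h : ℝ, h = (R : ℝ) ^ 2 / mcC k A L := ⟨_, rfl⟩
  have hh2 : 2 ≤ h := by
    rw [hh, le_div_iff₀ (by linarith)]
    nlinarith
  have hhR : h ≤ (R : ℝ) ^ 2 := by
    rw [hh]
    exact div_le_self (by positivity) hC
  have hPh : 2 * h ≤ P := by
    rw [hPR]
    nlinarith [sq_nonneg ((R : ℝ)), mul_self_nonneg ((R : ℝ) ^ 2 - 2), sq_nonneg ((R : ℝ) ^ 2)]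
  obtain ⟨u, hu1, hu2, hu3, hu4⟩ : ∃ u : ℝ, (P : ℝ) ≤ u ∧ u + h ≤ L * P ∧ u ≤ y0 ∧ y0 ≤ u + h := by
    rcases le_total (y0 + h) (L * P) with h1 | h1
    · exact ⟨y0, hy1, h1, le_rfl, by linarith⟩
    · refine ⟨y0 - h, ?_, by linarith, by linarith, by linarith⟩
      nlinarith
  have hu0 : 0 ≤ u := by linarith
  have hsub : Ioc ⌊u⌋₊ ⌊u + h⌋₊ ⊆ Ioc P (L * P) := by
    refine Finset.Ioc_subset_Ioc ?_ ?_
    · exact Nat.le_floor hu1
    · have : ⌊u + h⌋₊ ≤ ⌊((L * P : ℕ) : ℝ)⌋₊ := Nat.floor_le_floor (by push_cast; exact hu2)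
      rwa [Nat.floor_natCast] at this
  have hterm : ∀ z ∈ Ioc ⌊u⌋₊ ⌊u + h⌋₊, Real.exp (-Real.pi) ≤
      Real.exp (-(Real.pi * ((R : ℝ) ^ 2 / (P : ℝ) ^ k) ^ 2 * (F k a z - s) ^ 2)) := by
    intro z hz
    rw [mem_Ioc] at hz
    have hz1 : u < z := (Nat.floor_lt hu0).mp hz.1
    have hz2 : (z : ℝ) ≤ u + h := (Nat.le_floor_iff (by linarith)).mp hz.2
    have hd : |(z : ℝ) - y0| ≤ h := by
      rw [abs_le]
      constructor <;> linarith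
    have hl := mc_lip hk hL hP1 ha (y := z) (y' := y0) (by linarith) (by linarith)
      (by linarith) hy2
    rw [hy3] at hl
    have hl2 : |F k a z - s| ≤ (P : ℝ) ^ (k - 1) * (R : ℝ) ^ 2 := by
      refine hl.trans ?_
      calc mcC k A L * (P : ℝ) ^ (k - 1) * |(z : ℝ) - y0| ≤ mcC k A L * (P : ℝ) ^ (k - 1) * h := by
            gcongr
        _ = (P : ℝ) ^ (k - 1) * (R : ℝ) ^ 2 := by
            rw [hh]
            field_simp
    have hb : (R : ℝ) ^ 2 / (P : ℝ) ^ k * |F k a z - s| ≤ 1 := by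
      have hPk : (P : ℝ) ^ k = P * (P : ℝ) ^ (k - 1) := by
        rw [← pow_succ', Nat.sub_add_cancel (by omega)]
      calc (R : ℝ) ^ 2 / (P : ℝ) ^ k * |F k a z - s|
          ≤ (R : ℝ) ^ 2 / (P : ℝ) ^ k * ((P : ℝ) ^ (k - 1) * (R : ℝ) ^ 2) := by gcongr
        _ = (R : ℝ) ^ 4 / P := by
            rw [hPk]
            field_simp
        _ = 1 := by rw [← hPR]; exact div_self (by linarith)
    have hsq : ((R : ℝ) ^ 2 / (P : ℝ) ^ k) ^ 2 * (F k a z - s) ^ 2 ≤ 1 := by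
      rw [← mul_pow, ← sq_abs, abs_mul, abs_of_nonneg (by positivity :
        (0 : ℝ) ≤ (R : ℝ) ^ 2 / (P : ℝ) ^ k)]
      exact pow_le_one₀ (by positivity) hb
    rw [Real.exp_le_exp, neg_le_neg_iff, mul_assoc]
    calc Real.pi * (((R : ℝ) ^ 2 / (P : ℝ) ^ k) ^ 2 * (F k a z - s) ^ 2) ≤ Real.pi * 1 := by
          gcongr
      _ = Real.pi := mul_one _
  have hcard : h / 2 ≤ ((Ioc ⌊u⌋₊ ⌊u + h⌋₊).card : ℝ) := by
    rw [Nat.card_Ioc]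
    have h1 : (⌊u⌋₊ : ℝ) ≤ u := Nat.floor_le hu0
    have h2 : u + h < ⌊u + h⌋₊ + 1 := Nat.lt_floor_add_one _
    have h3 : ((⌊u + h⌋₊ : ℕ) : ℝ) - ⌊u⌋₊ ≤ ((⌊u + h⌋₊ - ⌊u⌋₊ : ℕ) : ℝ) := by
      rw [sub_le_iff_le_add]
      exact_mod_cast (by omega : ⌊u + h⌋₊ ≤ (⌊u + h⌋₊ - ⌊u⌋₊) + ⌊u⌋₊)
    linarith
  calc (R : ℝ) ^ 2 / (2 * mcC k A L) * Real.exp (-Real.pi) = h / 2 * Real.exp (-Real.pi) := by
        rw [hh]
        field_simp
    _ ≤ ((Ioc ⌊u⌋₊ ⌊u + h⌋₊).card : ℝ) * Real.exp (-Real.pi) := by gcongr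
    _ = ∑ z ∈ Ioc ⌊u⌋₊ ⌊u + h⌋₊, Real.exp (-Real.pi) := by
        rw [Finset.sum_const, nsmul_eq_mul]
    _ ≤ ∑ z ∈ Ioc ⌊u⌋₊ ⌊u + h⌋₊,
        Real.exp (-(Real.pi * ((R : ℝ) ^ 2 / (P : ℝ) ^ k) ^ 2 * (F k a z - s) ^ 2)) :=
        Finset.sum_le_sum hterm
    _ ≤ _ := Finset.sum_le_sum_of_subset_of_nonneg hsub fun _ _ _ => (Real.exp_pos _).le

private theorem mc_Ph {k A P : ℕ} (hk : 2 ≤ k) (hP1 : 1 ≤ P) (hPA : 2 * (k : ℝ) * A ≤ P)
    {a : Fin (k - 1) → ℝ} (ha : a ∈ Q (k - 1) A) {x : Fin k → ℕ} (hx : x ∈ Bx k P) :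
    0 ≤ Ph k a x ∧ Ph k a x ≤ (k : ℝ) * (2 * ((2 * k) ^ k * (P : ℝ) ^ k)) := by
  rw [mem_Bx] at hx
  have hP1' : (1 : ℝ) ≤ P := by exact_mod_cast hP1
  have hb : ∀ i : Fin k, (P : ℝ) ≤ x i ∧ (x i : ℝ) ≤ 2 * k * P := by
    intro i
    obtain ⟨h1, h2⟩ := hx i
    have hi := i.2
    constructor
    · have : P ≤ x i := by
        have : 1 * P ≤ (2 * (i : ℕ) + 1) * P := Nat.mul_le_mul_right _ (by omega)
        omega
      exact_mod_cast this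
    · have : x i ≤ 2 * k * P := h2.trans (Nat.mul_le_mul_right _ (by omega))
      exact_mod_cast this
  unfold Ph
  constructor
  · refine Finset.sum_nonneg fun i _ => ?_
    have h1 := mc_F_lower hk ha (y := (x i : ℝ)) (hP1'.trans (hb i).1) (hPA.trans (hb i).1)
    have h2 : (0 : ℝ) ≤ (x i : ℝ) ^ k / 2 := by positivity
    linarith
  · have : ∀ i ∈ (Finset.univ : Finset (Fin k)), F k a (x i) ≤ 2 * ((2 * k) ^ k * (P : ℝ) ^ k) := by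
      intro i _
      have h1 := mc_F_upper hk ha (y := (x i : ℝ)) (hP1'.trans (hb i).1) (hPA.trans (hb i).1)
      refine h1.trans ?_
      rw [← mul_pow]
      have := (hb i).2
      gcongr
    refine (Finset.sum_le_sum this).trans ?_
    rw [Finset.sum_const, Finset.card_univ, Fintype.card_fin, nsmul_eq_mul]

theorem main_count (k A L : ℕ) (hk : 2 ≤ k) (hL : 2 ≤ L) : ∃ (c : ℝ) (R0 : ℕ), 0 < c ∧
    ∀ R P : ℕ, R0 ≤ R → P = R ^ 4 → ∀ a ∈ Q (k - 1) A, ∀ tau : ℝ, A1 k * (P : ℝ) ^ k ≤ tau →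
      tau ≤ A2 k L * (P : ℝ) ^ k →
      c * (P : ℝ) ^ (k + 1) ≤
        ((R : ℝ) ^ 2 / (P : ℝ) ^ k) * Rb k P L a ((R : ℝ) ^ 2 / (P : ℝ) ^ k) tau := by
  have hC := mcC_pos (A := A) hk hL
  refine ⟨Real.exp (-Real.pi) / (2 * mcC k A L), 2 * k * A + 2 + ⌈2 * mcC k A L⌉₊, by positivity, ?_⟩
  intro R P hR hP a ha tau ht1 ht2
  have hR2 : 2 ≤ R := by omega
  have hRA : 2 * k * A ≤ R := by omega
  have hRC : 2 * mcC k A L ≤ (R : ℝ) := by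
    refine (Nat.le_ceil _).trans ?_
    exact_mod_cast (by omega : ⌈2 * mcC k A L⌉₊ ≤ R)
  have hRP : R ≤ P := by
    rw [hP]
    calc R = R ^ 1 := (pow_one R).symm
      _ ≤ R ^ 4 := Nat.pow_le_pow_right (by omega) (by norm_num)
  have hP1 : 1 ≤ P := by omega
  have hPR : (P : ℝ) = (R : ℝ) ^ 4 := by rw [hP]; push_cast; ring
  have hP1' : (1 : ℝ) ≤ P := by exact_mod_cast hP1
  have hPA : 2 * (k : ℝ) * A ≤ P := by exact_mod_cast hRA.trans hRP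
  have hPk : 0 < (P : ℝ) ^ k := by positivity
  -- every pair gives at least the inner sum
  have hpair : ∀ x ∈ Bx k P, ∀ y ∈ Bx k P,
      (R : ℝ) ^ 2 / (2 * mcC k A L) * Real.exp (-Real.pi) ≤
      ∑ z ∈ Ioc P (L * P), Real.exp (-(Real.pi * ((R : ℝ) ^ 2 / (P : ℝ) ^ k) ^ 2 *
        (Ph k a x + Ph k a y + F k a z - tau) ^ 2)) := by
    intro x hx y hy
    obtain ⟨hx0, hx1⟩ := mc_Ph hk hP1 hPA ha hx
    obtain ⟨hy0, hy1⟩ := mc_Ph hk hP1 hPA ha hy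
    have hkk : (1 : ℝ) ≤ (2 * (k : ℝ)) ^ k := by
      refine one_le_pow₀ ?_
      have : (2 : ℝ) ≤ k := by exact_mod_cast hk
      linarith
    have hs1 : 2 * (P : ℝ) ^ k ≤ tau - Ph k a x - Ph k a y := by
      unfold A1 at ht1
      have h1 : 2 * (P : ℝ) ^ k ≤ 2 * ((2 * (k : ℝ)) ^ k * (P : ℝ) ^ k) := by nlinarith
      have h2 : 2 * (2 * (k : ℝ) + 1) * (2 * k) ^ k * (P : ℝ) ^ k =
          2 * ((2 * (k : ℝ)) ^ k * (P : ℝ) ^ k) + (k : ℝ) * (2 * ((2 * k) ^ k * (P : ℝ) ^ k)) +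
            (k : ℝ) * (2 * ((2 * k) ^ k * (P : ℝ) ^ k)) := by ring
      rw [h2] at ht1
      linarith
    have hs2 : tau - Ph k a x - Ph k a y ≤ (L : ℝ) ^ k / 2 * (P : ℝ) ^ k := by
      unfold A2 at ht2
      linarith
    refine (mc_inner hk hL hR2 hRA hRC hP ha hs1 hs2).trans (le_of_eq ?_)
    refine Finset.sum_congr rfl fun z _ => ?_
    congr 3
    ring
  have hsum : (P : ℝ) ^ k * ((P : ℝ) ^ k * ((R : ℝ) ^ 2 / (2 * mcC k A L) * Real.exp (-Real.pi))) ≤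
      Rb k P L a ((R : ℝ) ^ 2 / (P : ℝ) ^ k) tau := by
    unfold Rb
    have h1 : ∀ x ∈ Bx k P, (P : ℝ) ^ k * ((R : ℝ) ^ 2 / (2 * mcC k A L) * Real.exp (-Real.pi)) ≤
        ∑ y ∈ Bx k P, ∑ z ∈ Ioc P (L * P), Real.exp (-(Real.pi * ((R : ℝ) ^ 2 / (P : ℝ) ^ k) ^ 2 *
          (Ph k a x + Ph k a y + F k a z - tau) ^ 2)) := by
      intro x hx
      have h2 := Finset.sum_le_sum (hpair x hx)
      rwa [Finset.sum_const, card_Bx, nsmul_eq_mul, Nat.cast_pow] at h2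
    have h2 := Finset.sum_le_sum h1
    rwa [Finset.sum_const, card_Bx, nsmul_eq_mul, Nat.cast_pow] at h2
  calc Real.exp (-Real.pi) / (2 * mcC k A L) * (P : ℝ) ^ (k + 1)
      = ((R : ℝ) ^ 2 / (P : ℝ) ^ k) *
        ((P : ℝ) ^ k * ((P : ℝ) ^ k * ((R : ℝ) ^ 2 / (2 * mcC k A L) * Real.exp (-Real.pi)))) := by
        rw [pow_succ]
        nth_rewrite 2 [hPR]
        field_simp
    _ ≤ _ := by gcongr

end Pool.H82.WP
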