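import Pool.Agent.H82.WP.ErrSplit
import Pool.Agent.H82.WP.KL
import Pool.Agent.H82.WP.MainCount

/-!
# Module COMPARE: the two smoothed counts and the existence of a representation

Proof of `compare`. c1, C1, P1 from `kl k A L`, c from `main_count`. R = J^D1, P = R^4, b = J^2, b2 = R^2/P^k <= 1 <= b.
By `rep` for b and b2, |b Rb(b) - b2 Rb(b2)| <= ∫ |D(t)| ‖V‖^2 ‖T‖ dt, to which `err_split` is applied with
v = ‖V‖^2, w = ‖T k a P (LP)‖, t2 = R/P^k, t3 = c1/P^(k-1), t4 = J^3, MV = P^(2k) (`norm_V_le`), MT = L P, n = 2k,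
E = C1^(2k+1)/P^((k-1)(2k+1)) (each of the 2k+1 factors by `kl`; the interval ((2i+1)P,(2i+2)P] has P <= u and
v <= 2kP <= LP), m = P/J^5, and ∫ exp(-π t^2/b^2) ‖V‖^2 <= b H <= J^2 P^k J (`V_sq_le`). The four terms are
 2π L P^(k+1)/R, 2 C1^(2k+1) P^(k+1)/R^(2k), P^(k+1)/J^2, 2 L J^2 P^(2k+1) exp(-π J^2/2),
each at most (c/8) P^(k+1) for J >= J0 (P^k = J^(4 D1 k), exp beats powers).
So b Rb(b) >= (c/2) P^(k+1). If all |Ph x + Ph y + F z - τ| >= 1/J then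
b Rb(b) <= J^2 P^(2k) L P exp(-π J^4/J^2) = L J^2 P^(2k+1) exp(-π J^2) < (c/2) P^(k+1): contradiction.
-/

set_option autoImplicit false

namespace Pool.H82.WP

open Finset MeasureTheory

private theorem aux1 (R X L P : ℝ) (hR : R ≠ 0) (hX : X ≠ 0) :
    2 * (R / X) * (Real.pi * (R / X) ^ 2 / (R ^ 2 / X) ^ 2) * (X ^ 2 * (L * P)) =
      2 * Real.pi * L / R * (X * P) := by
  have h1 : (R / X) ^ 2 = R ^ 2 / X ^ 2 := div_pow _ _ _
  have h2 : (R ^ 2 / X) ^ 2 = R ^ 4 / X ^ 2 := by rw [div_pow]; ring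
  rw [h1, h2]
  field_simp

/-- polynomial times Gaussian is small -/
private theorem tail_small (n : ℕ) (ε : ℝ) (hε : 0 < ε) : ∃ J0 : ℕ, ∀ J : ℕ, J0 ≤ J →
    (J : ℝ) ^ n * Real.exp (-(Real.pi * (J : ℝ) ^ 2 / 2)) ≤ ε := by
  have h1 := (Real.tendsto_pow_mul_exp_neg_atTop_nhds_zero n).comp tendsto_natCast_atTop_atTop
  have h2 := h1.eventually (gt_mem_nhds hε)
  obtain ⟨J0, hJ0⟩ := Filter.eventually_atTop.mp h2
  refine ⟨max J0 1, fun J hJ => ?_⟩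
  have h3 := hJ0 J (le_trans (le_max_left _ _) hJ)
  have hJ1 : (1 : ℝ) ≤ J := by exact_mod_cast le_trans (le_max_right _ _) hJ
  simp only [Function.comp] at h3
  refine le_trans ?_ h3.le
  apply mul_le_mul_of_nonneg_left _ (by positivity)
  apply Real.exp_le_exp.mpr
  have hpi := Real.pi_gt_three
  have h4 : (J : ℝ) ≤ (J : ℝ) ^ 2 := by nlinarith
  nlinarith

/-- the integral representation of the difference of the two smoothed counts -/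
private theorem diff_le (k P L : ℕ) (a : Fin (k - 1) → ℝ) (b b2 tau : ℝ) (hb : 0 < b) (hb2 : 0 < b2) :
    b2 * Rb k P L a b2 tau - b * Rb k P L a b tau ≤
      ∫ t : ℝ, |Real.exp (-(Real.pi * t ^ 2 / b ^ 2)) - Real.exp (-(Real.pi * t ^ 2 / b2 ^ 2))| *
        (‖V k a P t‖ ^ 2 * ‖T k a P (L * P) t‖) := by
  have h1 : ((b * Rb k P L a b tau - b2 * Rb k P L a b2 tau : ℝ) : ℂ) =
      ∫ t : ℝ, (((Real.exp (-(Real.pi * t ^ 2 / b ^ 2)) : ℝ) : ℂ) *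
        (Pool.H19.Wa.e (-(t * tau)) * (V k a P t ^ 2 * T k a P (L * P) t)) -
        ((Real.exp (-(Real.pi * t ^ 2 / b2 ^ 2)) : ℝ) : ℂ) *
        (Pool.H19.Wa.e (-(t * tau)) * (V k a P t ^ 2 * T k a P (L * P) t))) := by
    rw [integral_sub (integrable_rep k P L a hb tau) (integrable_rep k P L a hb2 tau),
      ← rep k P L a hb tau, ← rep k P L a hb2 tau]
    push_cast
    ring
  have h2 : ‖((b * Rb k P L a b tau - b2 * Rb k P L a b2 tau : ℝ) : ℂ)‖ ≤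
      ∫ t : ℝ, |Real.exp (-(Real.pi * t ^ 2 / b ^ 2)) - Real.exp (-(Real.pi * t ^ 2 / b2 ^ 2))| *
        (‖V k a P t‖ ^ 2 * ‖T k a P (L * P) t‖) := by
    rw [h1]
    refine (norm_integral_le_integral_norm _).trans (le_of_eq ?_)
    congr 1
    funext t
    rw [← sub_mul, norm_mul, norm_mul, norm_mul, Pool.H19.Wa.norm_e, one_mul, norm_pow,
      ← Complex.ofReal_sub, Complex.norm_real, Real.norm_eq_abs]
  rw [Complex.norm_real, Real.norm_eq_abs] at h2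
  have h3 := neg_abs_le (b * Rb k P L a b tau - b2 * Rb k P L a b2 tau)
  linarith

/-- if there is no close representation then the fine count is tiny -/
private theorem far_small (k P L J : ℕ) (a : Fin (k - 1) → ℝ) (tau : ℝ) (hJ : 1 ≤ J)
    (h : ∀ x ∈ Bx k P, ∀ y ∈ Bx k P, ∀ z ∈ Ioc P (L * P), 1 / (J : ℝ) ≤ |Ph k a x + Ph k a y + F k a z - tau|) :
    Rb k P L a ((J : ℝ) ^ 2) tau ≤
      (P : ℝ) ^ k * ((P : ℝ) ^ k * ((L * P : ℝ) * Real.exp (-(Real.pi * (J : ℝ) ^ 2)))) := by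
  have hJ0 : (0 : ℝ) < J := by exact_mod_cast hJ
  have hterm : ∀ x ∈ Bx k P, ∀ y ∈ Bx k P, ∀ z ∈ Ioc P (L * P),
      Real.exp (-(Real.pi * ((J : ℝ) ^ 2) ^ 2 * (Ph k a x + Ph k a y + F k a z - tau) ^ 2)) ≤
        Real.exp (-(Real.pi * (J : ℝ) ^ 2)) := by
    intro x hx y hy z hz
    apply Real.exp_le_exp.mpr
    have h1 := h x hx y hy z hz
    have h2 : (1 / (J : ℝ)) ^ 2 ≤ (Ph k a x + Ph k a y + F k a z - tau) ^ 2 := by
      rw [← sq_abs (Ph k a x + Ph k a y + F k a z - tau)]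
      exact pow_le_pow_left₀ (by positivity) h1 2
    have h3 : Real.pi * (J : ℝ) ^ 2 = Real.pi * ((J : ℝ) ^ 2) ^ 2 * (1 / (J : ℝ)) ^ 2 := by
      field_simp
    rw [h3]
    have h4 : 0 ≤ Real.pi * ((J : ℝ) ^ 2) ^ 2 := by positivity
    have h5 := mul_le_mul_of_nonneg_left h2 h4
    linarith
  unfold Rb
  calc ∑ x ∈ Bx k P, ∑ y ∈ Bx k P, ∑ z ∈ Ioc P (L * P),
      Real.exp (-(Real.pi * ((J : ℝ) ^ 2) ^ 2 * (Ph k a x + Ph k a y + F k a z - tau) ^ 2))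
      ≤ ∑ _x ∈ Bx k P, ∑ _y ∈ Bx k P, ∑ _z ∈ Ioc P (L * P), Real.exp (-(Real.pi * (J : ℝ) ^ 2)) :=
        Finset.sum_le_sum fun x hx => Finset.sum_le_sum fun y hy => Finset.sum_le_sum fun z hz =>
          hterm x hx y hy z hz
    _ = (P : ℝ) ^ k * ((P : ℝ) ^ k * (((L * P - P : ℕ) : ℝ) * Real.exp (-(Real.pi * (J : ℝ) ^ 2)))) := by
        simp only [Finset.sum_const, card_Bx, Nat.card_Ioc, nsmul_eq_mul]
        push_cast
        ring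
    _ ≤ (P : ℝ) ^ k * ((P : ℝ) ^ k * ((L * P : ℝ) * Real.exp (-(Real.pi * (J : ℝ) ^ 2)))) := by
        have h1 : ((L * P - P : ℕ) : ℝ) ≤ (L * P : ℝ) := by
          have : L * P - P ≤ L * P := Nat.sub_le _ _
          exact_mod_cast this
        gcongr

theorem compare (k A L D1 : ℕ) (hk : 2 ≤ k) (hL : 2 * k ≤ L) (hD : 1 ≤ D1) :
    ∃ (c1 : ℝ) (J0 : ℕ), 0 < c1 ∧ ∀ J P : ℕ, J0 ≤ J → P = J ^ (4 * D1) → ∀ a ∈ Q (k - 1) A,
      H k P a < (P : ℝ) ^ k * J →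
      (∀ t : ℝ, c1 / (P : ℝ) ^ (k - 1) ≤ |t| → |t| ≤ (J : ℝ) ^ 3 →
        ‖T k a P (L * P) t‖ < (P : ℝ) / (J : ℝ) ^ 5) →
      ∀ tau : ℝ, A1 k * (P : ℝ) ^ k ≤ tau → tau ≤ A2 k L * (P : ℝ) ^ k →
        ∃ x ∈ Bx k P, ∃ y ∈ Bx k P, ∃ z ∈ Ioc P (L * P), |Ph k a x + Ph k a y + F k a z - tau| < 1 / J := by
  obtain ⟨c1, C1, P1, hc1, hC1, hkl⟩ := kl k A L hk
  obtain ⟨c, R0, hc, hmain⟩ := main_count k A L hk (by omega)
  have hLr : (0 : ℝ) < L := by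
    have : 0 < L := by omega
    exact_mod_cast this
  obtain ⟨J1, hJ1⟩ := tail_small (2 + 4 * D1 * k) (c / (16 * L)) (by positivity)
  obtain ⟨J2, hJ2⟩ := exists_nat_ge (max (16 * Real.pi * L / c) (max (16 * C1 ^ (2 * k + 1) / c) (8 / c)))
  refine ⟨c1, max (max J1 J2) (max (max R0 P1) 2), hc1, fun J P hJ hP a ha hH hT tau htau1 htau2 => ?_⟩
  have hJJ1 : J1 ≤ J := (le_max_left _ _).trans ((le_max_left _ _).trans hJ)
  have hJJ2 : J2 ≤ J := (le_max_right _ _).trans ((le_max_left _ _).trans hJ)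
  have hJR0 : R0 ≤ J := (le_max_left _ _).trans ((le_max_left _ _).trans ((le_max_right _ _).trans hJ))
  have hJP1 : P1 ≤ J := (le_max_right _ _).trans ((le_max_left _ _).trans ((le_max_right _ _).trans hJ))
  have hJ2' : 2 ≤ J := (le_max_right _ _).trans ((le_max_right _ _).trans hJ)
  have hJr : (2 : ℝ) ≤ J := by exact_mod_cast hJ2'
  have hJ0 : (0 : ℝ) < J := by linarith
  set R : ℕ := J ^ D1 with hR
  have hJR : J ≤ R := by
    rw [hR]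
    exact Nat.le_self_pow (by omega) J
  have hPR : P = R ^ 4 := by rw [hP, hR, ← pow_mul]; congr 1; ring
  have hRP : R ≤ P := by rw [hPR]; exact Nat.le_self_pow (by norm_num) R
  have hRr : (J : ℝ) ≤ R := by exact_mod_cast hJR
  have hR0 : (0 : ℝ) < R := by linarith
  have hPr : (R : ℝ) ≤ P := by exact_mod_cast hRP
  have hP0 : (0 : ℝ) < P := by linarith
  have hP1 : 1 ≤ P := by omega
  -- the conditions on J
  have hJc : max (16 * Real.pi * L / c) (max (16 * C1 ^ (2 * k + 1) / c) (8 / c)) ≤ J :=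
    hJ2.trans (by exact_mod_cast hJJ2)
  have hJa : 16 * Real.pi * L / c ≤ J := (le_max_left _ _).trans hJc
  have hJb : 16 * C1 ^ (2 * k + 1) / c ≤ J := (le_max_left _ _).trans ((le_max_right _ _).trans hJc)
  have hJd : 8 / c ≤ J := (le_max_right _ _).trans ((le_max_right _ _).trans hJc)
  rw [div_le_iff₀ hc] at hJa hJb hJd
  -- main term
  have hm := hmain R P (hJR0.trans hJR) hPR a ha tau htau1 htau2
  by_contra hcon
  push Not at hcon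
  have hfar := far_small k P L J a tau (by omega) (fun x hx y hy z hz => hcon x hx y hy z hz)
  have hb : (0 : ℝ) < (J : ℝ) ^ 2 := by positivity
  have hb2 : (0 : ℝ) < (R : ℝ) ^ 2 / (P : ℝ) ^ k := by positivity
  have hPk1 : (R : ℝ) ^ 2 ≤ (P : ℝ) ^ k := by
    calc (R : ℝ) ^ 2 ≤ (P : ℝ) ^ 2 := pow_le_pow_left₀ hR0.le hPr 2
      _ ≤ (P : ℝ) ^ k := pow_le_pow_right₀ (by linarith) hk
  have hbb : (R : ℝ) ^ 2 / (P : ℝ) ^ k ≤ (J : ℝ) ^ 2 := by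
    calc (R : ℝ) ^ 2 / (P : ℝ) ^ k ≤ 1 := by rw [div_le_one (by positivity)]; exact hPk1
      _ ≤ (J : ℝ) ^ 2 := by nlinarith
  have hdiff := diff_le k P L a ((J : ℝ) ^ 2) ((R : ℝ) ^ 2 / (P : ℝ) ^ k) tau hb hb2
  have hVc : Continuous (fun t => ‖V k a P t‖ ^ 2) := (continuous_V_t k a P).norm.pow 2
  have hTc : Continuous (fun t => ‖T k a P (L * P) t‖) := (continuous_T_t k a _ _).norm
  have herr := err_split (fun t => ‖V k a P t‖ ^ 2) (fun t => ‖T k a P (L * P) t‖) hVc hTc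
    (fun t => by positivity) (fun t => norm_nonneg _) ((J : ℝ) ^ 2) ((R : ℝ) ^ 2 / (P : ℝ) ^ k)
    (R / (P : ℝ) ^ k) (c1 / (P : ℝ) ^ (k - 1)) ((J : ℝ) ^ 3) (((P : ℝ) ^ k) ^ 2) (L * P)
    ((C1 / (P : ℝ) ^ (k - 1)) ^ (2 * k + 1)) (P / (J : ℝ) ^ 5) (2 * k) hb2 hbb (by positivity)
    (by positivity) (fun t => by
      exact pow_le_pow_left₀ (norm_nonneg _) (norm_V_le k a P t) 2)
    (fun t => by
      refine (norm_T_le k a P (L * P) t).trans ?_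
      have : L * P - P ≤ L * P := Nat.sub_le _ _
      exact_mod_cast this) (by omega) (by positivity)
    (fun t ht2 ht3 => by
      have ht0 : 0 < |t| := lt_of_lt_of_le (by positivity) ht2
      have htne : t ≠ 0 := abs_pos.mp ht0
      have hB : ∀ u v : ℕ, P ≤ u → v ≤ L * P → ‖T k a u v t‖ ≤ C1 / (|t| * (P : ℝ) ^ (k - 1)) :=
        fun u v hu hv => hkl P (by omega) a ha u v hu hv t htne ht3
      have hV : ‖V k a P t‖ ≤ (C1 / (|t| * (P : ℝ) ^ (k - 1))) ^ k := by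
        unfold V
        rw [norm_prod]
        calc ∏ i : Fin k, ‖T k a ((2 * (i : ℕ) + 1) * P) ((2 * (i : ℕ) + 2) * P) t‖
            ≤ ∏ _i : Fin k, (C1 / (|t| * (P : ℝ) ^ (k - 1))) := by
              refine Finset.prod_le_prod (fun i _ => norm_nonneg _) fun i _ => hB _ _ ?_ ?_
              · nlinarith
              · apply Nat.mul_le_mul_right
                have := i.2
                omega
          _ = _ := by rw [Finset.prod_const, Finset.card_univ, Fintype.card_fin]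
      have hTb := hB P (L * P) le_rfl le_rfl
      calc ‖V k a P t‖ ^ 2 * ‖T k a P (L * P) t‖ ≤
            ((C1 / (|t| * (P : ℝ) ^ (k - 1))) ^ k) ^ 2 * (C1 / (|t| * (P : ℝ) ^ (k - 1))) := by
              gcongr
        _ = (C1 / (P : ℝ) ^ (k - 1)) ^ (2 * k + 1) / |t| ^ (2 * k + 1) := by
              rw [← div_pow, ← pow_mul, mul_comm k 2, ← pow_succ]
              congr 1
              field_simp)
    (by positivity) (fun t ht3 ht4 => (hT t ht3 ht4).le)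
  have hVH : ∫ t : ℝ, Real.exp (-(Real.pi * t ^ 2 / ((J : ℝ) ^ 2) ^ 2)) * ‖V k a P t‖ ^ 2 ≤
      (J : ℝ) ^ 2 * ((P : ℝ) ^ k * J) := by
    refine (V_sq_le k P a (by nlinarith : (1 : ℝ) ≤ (J : ℝ) ^ 2)).trans ?_
    exact mul_le_mul_of_nonneg_left hH.le (by positivity)
  -- the four error terms
  have hX : (0 : ℝ) < (P : ℝ) ^ (k + 1) := by positivity
  have e1 : 2 * ((R : ℝ) / (P : ℝ) ^ k) *
      (Real.pi * ((R : ℝ) / (P : ℝ) ^ k) ^ 2 / ((R : ℝ) ^ 2 / (P : ℝ) ^ k) ^ 2) *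
      (((P : ℝ) ^ k) ^ 2 * (L * P)) ≤ c / 8 * (P : ℝ) ^ (k + 1) := by
    have h1 : 2 * ((R : ℝ) / (P : ℝ) ^ k) *
      (Real.pi * ((R : ℝ) / (P : ℝ) ^ k) ^ 2 / ((R : ℝ) ^ 2 / (P : ℝ) ^ k) ^ 2) *
      (((P : ℝ) ^ k) ^ 2 * (L * P)) = 2 * Real.pi * L / R * (P : ℝ) ^ (k + 1) := by
      rw [pow_succ (P : ℝ) k]
      exact aux1 R ((P : ℝ) ^ k) L P hR0.ne' (by positivity)
    rw [h1]
    apply mul_le_mul_of_nonneg_right _ hX.le
    rw [div_le_iff₀ hR0]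
    nlinarith
  have e2 : 2 * (C1 / (P : ℝ) ^ (k - 1)) ^ (2 * k + 1) / ((R : ℝ) / (P : ℝ) ^ k) ^ (2 * k) ≤
      c / 8 * (P : ℝ) ^ (k + 1) := by
    have h1 : 2 * (C1 / (P : ℝ) ^ (k - 1)) ^ (2 * k + 1) / ((R : ℝ) / (P : ℝ) ^ k) ^ (2 * k) =
        2 * C1 ^ (2 * k + 1) / (R : ℝ) ^ (2 * k) * (P : ℝ) ^ (k + 1) := by
      obtain ⟨k', rfl⟩ : ∃ k', k = k' + 1 := ⟨k - 1, by omega⟩
      have h2 : ((P : ℝ) ^ (k' + 1)) ^ (2 * (k' + 1)) =
          ((P : ℝ) ^ (k' + 1 - 1)) ^ (2 * (k' + 1) + 1) * (P : ℝ) ^ (k' + 1 + 1) := by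
        rw [Nat.add_sub_cancel, ← pow_mul, ← pow_mul, ← pow_add]
        congr 1
        ring
      rw [div_pow, div_pow, h2]
      have h3 : ((P : ℝ) ^ (k' + 1 - 1)) ^ (2 * (k' + 1) + 1) ≠ 0 := by positivity
      have h4 : (R : ℝ) ^ (2 * (k' + 1)) ≠ 0 := by positivity
      have h5 : (P : ℝ) ^ (k' + 1 + 1) ≠ 0 := by positivity
      field_simp
    rw [h1]
    apply mul_le_mul_of_nonneg_right _ hX.le
    rw [div_le_iff₀ (by positivity)]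
    have h2 : (R : ℝ) ≤ (R : ℝ) ^ (2 * k) := le_self_pow₀ (by linarith) (by omega)
    nlinarith
  have e3 : (P : ℝ) / (J : ℝ) ^ 5 *
      (∫ t : ℝ, Real.exp (-(Real.pi * t ^ 2 / ((J : ℝ) ^ 2) ^ 2)) * ‖V k a P t‖ ^ 2) ≤
      c / 8 * (P : ℝ) ^ (k + 1) := by
    calc (P : ℝ) / (J : ℝ) ^ 5 *
      (∫ t : ℝ, Real.exp (-(Real.pi * t ^ 2 / ((J : ℝ) ^ 2) ^ 2)) * ‖V k a P t‖ ^ 2)
        ≤ (P : ℝ) / (J : ℝ) ^ 5 * ((J : ℝ) ^ 2 * ((P : ℝ) ^ k * J)) :=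
          mul_le_mul_of_nonneg_left hVH (by positivity)
      _ = 1 / (J : ℝ) ^ 2 * (P : ℝ) ^ (k + 1) := by
          rw [pow_succ (P : ℝ) k]
          field_simp
      _ ≤ c / 8 * (P : ℝ) ^ (k + 1) := by
          apply mul_le_mul_of_nonneg_right _ hX.le
          rw [div_le_iff₀ (by positivity)]
          nlinarith
  have htail := hJ1 J hJJ1
  have hPJ : (P : ℝ) ^ k * (J : ℝ) ^ 2 = (J : ℝ) ^ (2 + 4 * D1 * k) := by
    rw [hP]
    push_cast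
    rw [← pow_mul, ← pow_add]
    congr 1
    ring
  have e4' : (L : ℝ) * ((P : ℝ) ^ k * (J : ℝ) ^ 2 * Real.exp (-(Real.pi * (J : ℝ) ^ 2 / 2))) ≤ c / 16 := by
    rw [hPJ]
    calc (L : ℝ) * ((J : ℝ) ^ (2 + 4 * D1 * k) * Real.exp (-(Real.pi * (J : ℝ) ^ 2 / 2)))
        ≤ L * (c / (16 * L)) := mul_le_mul_of_nonneg_left htail hLr.le
      _ = c / 16 := by field_simp
  have e4 : ((P : ℝ) ^ k) ^ 2 * (L * P) *
      (2 * (J : ℝ) ^ 2 * Real.exp (-(Real.pi * ((J : ℝ) ^ 3) ^ 2 / (2 * ((J : ℝ) ^ 2) ^ 2)))) ≤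
      c / 8 * (P : ℝ) ^ (k + 1) := by
    have h1 : Real.pi * ((J : ℝ) ^ 3) ^ 2 / (2 * ((J : ℝ) ^ 2) ^ 2) = Real.pi * (J : ℝ) ^ 2 / 2 := by
      field_simp
    rw [h1]
    calc ((P : ℝ) ^ k) ^ 2 * (L * P) * (2 * (J : ℝ) ^ 2 * Real.exp (-(Real.pi * (J : ℝ) ^ 2 / 2)))
        = 2 * ((L : ℝ) * ((P : ℝ) ^ k * (J : ℝ) ^ 2 * Real.exp (-(Real.pi * (J : ℝ) ^ 2 / 2)))) *
            (P : ℝ) ^ (k + 1) := by rw [pow_succ (P : ℝ) k]; ring
      _ ≤ 2 * (c / 16) * (P : ℝ) ^ (k + 1) := by gcongr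
      _ = c / 8 * (P : ℝ) ^ (k + 1) := by ring
  -- the fine count is small
  have e5 : (J : ℝ) ^ 2 * Rb k P L a ((J : ℝ) ^ 2) tau ≤ c / 16 * (P : ℝ) ^ (k + 1) := by
    calc (J : ℝ) ^ 2 * Rb k P L a ((J : ℝ) ^ 2) tau
        ≤ (J : ℝ) ^ 2 * ((P : ℝ) ^ k * ((P : ℝ) ^ k * ((L * P : ℝ) * Real.exp (-(Real.pi * (J : ℝ) ^ 2))))) :=
          mul_le_mul_of_nonneg_left hfar (by positivity)
      _ ≤ (J : ℝ) ^ 2 * ((P : ℝ) ^ k * ((P : ℝ) ^ k * ((L * P : ℝ) * Real.exp (-(Real.pi * (J : ℝ) ^ 2 / 2))))) := by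
          gcongr
          have := Real.pi_pos
          nlinarith [sq_nonneg (J : ℝ)]
      _ = ((L : ℝ) * ((P : ℝ) ^ k * (J : ℝ) ^ 2 * Real.exp (-(Real.pi * (J : ℝ) ^ 2 / 2)))) *
            (P : ℝ) ^ (k + 1) := by rw [pow_succ (P : ℝ) k]; ring
      _ ≤ c / 16 * (P : ℝ) ^ (k + 1) := by gcongr
  have hcX : 0 < c * (P : ℝ) ^ (k + 1) := by positivity
  have hsum := hdiff.trans herr
  nlinarith

end Pool.H82.WP
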