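import Pool.Agent.H82.WP.Sep

/-!
# Module COUNTN: the number of pairs of tuples with close power sums

Proof of `countN`. Let C0 be the constant of `sep` (may be enlarged to C0 >= 1). If P^k <= W the number of all pairs is
P^(2k) <= W P^k (`card_Bx`). Otherwise there is l < k with P^l <= W < P^(l+1) (P >= 2; e.g. `Nat.log P W`). Let
m = k - l >= 1, T = the i : Fin k with i < m (T.card = m), i0 = 0 in T, T1 = T \ {i0} (card m-1).
Fiber count. Let A = NB k P W (`mem_NB`), pairs p = (x,y).
 Map 1: p ↦ (y, x restricted to the complement of T, i.e. fun i => if i ∈ T then 0 else x i). Its image lies in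
 Bx × piFinset(if i ∈ T then {0} else Ioc ..), of cardinality P^k P^(k-m) = P^k P^l.
 Two pairs in the same fiber have the same y and x_i = x'_i off T, so for j <= k
 |∑_{i in T} (x_i^j - x'_i^j)| = |Bd x y j - Bd x' y j| <= 2W. By `sep` with T, l, 2W:
 |x_i0 - x'_i0| P^l <= 2 C0 W, so in each fiber x_i0 takes at most 4 C0 W/P^l + 1 <= 5 C0 W/P^l values (all of them
 within distance D of one of them lie in an integer interval with at most 2D+1 elements).
 Map 2 inside a fiber: x ↦ x_i0. In a fiber of map 2 also x_i0 = x'_i0, so the sums over T1 satisfy the same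
 inequalities for j <= k = (l+1) + (m-1), and `sep` with T1, l+1, 2W gives |x_i - x'_i| P^(l+1) <= 2 C0 W <= 2 C0 P^(l+1)
 for i in T1, so x_i is within 2 C0 of a fixed value: at most (4 C0 + 1)^(m-1) <= (4 C0+1)^k possibilities.
 Total: P^k P^l (5 C0 W/P^l) (4 C0+1)^k.
Useful: `Finset.card_le_mul_card_image` (s.card <= n * (s.image f).card if all fibers have at most n elements),
`Fintype.card_piFinset`.
-/

set_option autoImplicit false

namespace Pool.H82.WP

open Finset

private theorem countN_natAbs (x a : ℕ) : |(x : ℝ) - (a : ℝ)| = ((((x : ℤ) - (a : ℤ)).natAbs : ℕ) : ℝ) := by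
  rw [Nat.cast_natAbs]
  push_cast
  rfl

private theorem countN_card_close (s : Finset ℕ) (D : ℕ)
    (h : ∀ a ∈ s, ∀ b ∈ s, ((a : ℤ) - (b : ℤ)).natAbs ≤ D) : s.card ≤ 2 * D + 1 := by
  rcases s.eq_empty_or_nonempty with rfl | ⟨b, hb⟩
  · simp
  · calc s.card ≤ (Finset.Icc (b - D) (b + D)).card := by
          refine Finset.card_le_card fun a ha => ?_
          have := h a ha b hb
          rw [Finset.mem_Icc]
          omega
      _ ≤ 2 * D + 1 := by
          rw [Nat.card_Icc]
          omega

/-- two points of a fiber -/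
private theorem countN_diff {k P W : ℕ} {T : Finset (Fin k)} {x x' y : Fin k → ℕ}
    (h1 : ∀ j : ℕ, 1 ≤ j → j ≤ k → |Bd k x y j| ≤ (W : ℤ))
    (h2 : ∀ j : ℕ, 1 ≤ j → j ≤ k → |Bd k x' y j| ≤ (W : ℤ))
    (hT : ∀ i, i ∉ T → x i = x' i) {j : ℕ} (hj : 1 ≤ j) (hjk : j ≤ k) :
    |∑ i ∈ T, ((x i : ℝ) ^ j - (x' i : ℝ) ^ j)| ≤ 2 * (W : ℝ) := by
  have e : ∑ i ∈ T, ((x i : ℝ) ^ j - (x' i : ℝ) ^ j) = ((Bd k x y j - Bd k x' y j : ℤ) : ℝ) := by
    have e1 : (∑ i ∈ T, ((x i : ℝ) ^ j - (x' i : ℝ) ^ j)) =
        ∑ i, ((x i : ℝ) ^ j - (x' i : ℝ) ^ j) := by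
      refine Finset.sum_subset (Finset.subset_univ _) fun i _ hi => ?_
      rw [hT i hi, sub_self]
    rw [e1]
    unfold Bd
    push_cast
    rw [← Finset.sum_sub_distrib]
    refine Finset.sum_congr rfl fun i _ => ?_
    ring
  rw [e, ← Int.cast_abs]
  have h3 := abs_sub (Bd k x y j) (Bd k x' y j)
  have h4 := h1 j hj hjk
  have h5 := h2 j hj hjk
  have h6 : |Bd k x y j - Bd k x' y j| ≤ 2 * (W : ℤ) := by linarith
  exact_mod_cast h6

theorem countN (k : ℕ) (hk : 1 ≤ k) : ∃ C : ℝ, 0 < C ∧ ∀ P W : ℕ, 1 ≤ P → 1 ≤ W →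
    ((NB k P W).card : ℝ) ≤ C * W * (P : ℝ) ^ k := by
  classical
  obtain ⟨C0, hC0, hsep⟩ := sep k
  obtain ⟨K, hK⟩ := exists_nat_ge (max C0 1)
  have hK0 : C0 ≤ K := (le_max_left _ _).trans hK
  have hK1 : (1 : ℝ) ≤ K := (le_max_right _ _).trans hK
  have hK1' : 1 ≤ K := by exact_mod_cast hK1
  refine ⟨5 * K * (4 * K + 1) ^ k, by positivity, fun P W hP hW => ?_⟩
  have hmain : (NB k P W).card ≤ 5 * K * (4 * K + 1) ^ k * W * P ^ k := by
    rcases Nat.lt_or_ge W (P ^ k) with hWP | hWP
    swap
    · -- trivial bound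
      calc (NB k P W).card ≤ (Bx k P ×ˢ Bx k P).card := by
            refine Finset.card_le_card fun p hp => ?_
            rw [mem_NB] at hp
            exact Finset.mem_product.2 hp.1
        _ = P ^ k * P ^ k := by rw [Finset.card_product, card_Bx]
        _ ≤ W * P ^ k := Nat.mul_le_mul_right _ hWP
        _ ≤ 5 * K * (4 * K + 1) ^ k * W * P ^ k := by
            refine Nat.mul_le_mul_right _ ?_
            have : 1 ≤ 5 * K * (4 * K + 1) ^ k := Nat.one_le_iff_ne_zero.2 (by positivity)
            exact Nat.le_mul_of_pos_left _ this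
    have hP2 : 1 < P := by
      by_contra h
      have : P = 1 := by omega
      rw [this, one_pow] at hWP
      omega
    obtain ⟨l, hl1, hl2⟩ : ∃ l, P ^ l ≤ W ∧ W < P ^ (l + 1) :=
      ⟨Nat.log P W, Nat.pow_log_le_self P (by omega), Nat.lt_pow_succ_log_self hP2 W⟩
    have hlk : l < k := by
      by_contra h
      have : P ^ k ≤ P ^ l := Nat.pow_le_pow_right (by omega) (Nat.le_of_not_lt h)
      omega
    set m := k - l with hm
    have hm1 : 1 ≤ m := by omega
    set T : Finset (Fin k) := Finset.univ.filter (fun i : Fin k => (i : ℕ) < m) with hT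
    have hmemT : ∀ i : Fin k, i ∈ T ↔ (i : ℕ) < m := fun i => by
      rw [hT, Finset.mem_filter]
      simp
    have hTcard : T.card = m := by
      rw [hT, Fin.card_filter_val_lt]
      omega
    have hk0 : 0 < k := hk
    set i0 : Fin k := ⟨0, hk0⟩ with hi0
    have hi0T : i0 ∈ T := (hmemT i0).2 hm1
    have hT1card : (T.erase i0).card = m - 1 := by rw [Finset.card_erase_of_mem hi0T, hTcard]
    set A := NB k P W with hA
    set D := 2 * K * W / P ^ l with hD
    have hPl : 0 < P ^ l := by positivity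
    -- the first map
    set f1 : (Fin k → ℕ) × (Fin k → ℕ) → (Fin k → ℕ) × (Fin k → ℕ) :=
      fun p => (p.2, fun i => if i ∈ T then 0 else p.1 i) with hf1
    have himg : (A.image f1).card ≤ P ^ k * P ^ l := by
      have hsub : A.image f1 ⊆ Bx k P ×ˢ Fintype.piFinset (fun i : Fin k => if i ∈ T then {0} else
          Ioc ((2 * (i : ℕ) + 1) * P) ((2 * (i : ℕ) + 2) * P)) := by
        intro b hb
        rw [Finset.mem_image] at hb
        obtain ⟨p, hp, rfl⟩ := hb
        rw [hA, mem_NB] at hp
        rw [Finset.mem_product]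
        refine ⟨hp.1.2, ?_⟩
        rw [Fintype.mem_piFinset]
        intro i
        simp only [hf1]
        split_ifs with hi
        · simp
        · rw [Finset.mem_Ioc]
          exact (mem_Bx.1 hp.1.1) i
      refine (Finset.card_le_card hsub).trans (le_of_eq ?_)
      rw [Finset.card_product, card_Bx, Fintype.card_piFinset]
      congr 1
      have e : ∀ i : Fin k, (if i ∈ T then ({0} : Finset ℕ) else
          Ioc ((2 * (i : ℕ) + 1) * P) ((2 * (i : ℕ) + 2) * P)).card = if i ∈ T then 1 else P := by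
        intro i
        split_ifs
        · simp
        · rw [Nat.card_Ioc]
          have : (2 * (i : ℕ) + 2) * P = (2 * (i : ℕ) + 1) * P + P := by ring
          omega
      rw [Finset.prod_congr rfl (fun i _ => e i), Finset.prod_ite, Finset.prod_const_one, one_mul,
        Finset.prod_const]
      congr 1
      have h1 : (Finset.univ.filter (fun i : Fin k => i ∉ T)).card = k - T.card := by
        have h2 : (Finset.univ.filter (fun i : Fin k => i ∉ T)) = Tᶜ := by
          ext i
          simp
        rw [h2, Finset.card_compl, Fintype.card_fin]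
      rw [h1, hTcard]
      omega
    have hfib : ∀ b ∈ A.image f1, (A.filter (fun p => f1 p = b)).card ≤
        (4 * K + 1) ^ k * (2 * D + 1) := by
      intro b _
      set S := A.filter (fun p => f1 p = b) with hS
      -- data of two points in the fiber
      have hpair : ∀ p ∈ S, ∀ p' ∈ S, p.2 = p'.2 ∧ (∀ i, i ∉ T → p.1 i = p'.1 i) ∧
          (∀ i ∈ T, ((2 * (i : ℕ) + 1) * P ≤ p.1 i ∧ p.1 i ≤ (2 * (i : ℕ) + 2) * P) ∧
            ((2 * (i : ℕ) + 1) * P ≤ p'.1 i ∧ p'.1 i ≤ (2 * (i : ℕ) + 2) * P)) ∧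
          ∀ T' : Finset (Fin k), (∀ i, i ∉ T' → p.1 i = p'.1 i) → ∀ j, 1 ≤ j → j ≤ k →
            |∑ i ∈ T', ((p.1 i : ℝ) ^ j - (p'.1 i : ℝ) ^ j)| ≤ 2 * (W : ℝ) := by
        intro p hp p' hp'
        rw [hS, Finset.mem_filter, hA, mem_NB] at hp hp'
        have hf : f1 p = f1 p' := hp.2.trans hp'.2.symm
        simp only [hf1, Prod.mk.injEq] at hf
        have hy : p.2 = p'.2 := hf.1
        refine ⟨hy, fun i hi => ?_, fun i _ => ?_, fun T' hT' j hj hjk => ?_⟩
        · have := congrFun hf.2 i
          simp only [hi, if_false] at this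
          exact this
        · have h1 := (mem_Bx.1 hp.1.1.1) i
          have h2 := (mem_Bx.1 hp'.1.1.1) i
          exact ⟨⟨h1.1.le, h1.2⟩, ⟨h2.1.le, h2.2⟩⟩
        · exact countN_diff (P := P) (y := p.2) hp.1.2 (by rw [hy]; exact hp'.1.2) hT' hj hjk
      have himg2 : (S.image (fun p => p.1 i0)).card ≤ 2 * D + 1 := by
        refine countN_card_close _ _ fun a ha a' ha' => ?_
        rw [Finset.mem_image] at ha ha'
        obtain ⟨p, hp, rfl⟩ := ha
        obtain ⟨p', hp', rfl⟩ := ha'
        obtain ⟨_, h2, h3, h4⟩ := hpair p hp p' hp'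
        have h5 := hsep P T l (2 * (W : ℝ)) p.1 p'.1 hP h3
          (fun j hj1 hj2 => h4 T h2 j (by omega) (by rw [hTcard] at hj2; omega)) i0 hi0T
        rw [countN_natAbs] at h5
        have h6 : ((((p.1 i0 : ℤ) - (p'.1 i0 : ℤ)).natAbs : ℕ) : ℝ) * (P : ℝ) ^ l ≤
            2 * (K : ℝ) * W := by
          refine h5.trans ?_
          have : C0 * (2 * (W : ℝ)) ≤ K * (2 * (W : ℝ)) := by gcongr
          linarith
        have h7 : ((p.1 i0 : ℤ) - (p'.1 i0 : ℤ)).natAbs * P ^ l ≤ 2 * K * W := by
          exact_mod_cast h6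
        rw [hD]
        exact (Nat.le_div_iff_mul_le hPl).2 h7
      have hfib2 : ∀ a ∈ S.image (fun p => p.1 i0),
          (S.filter (fun p => p.1 i0 = a)).card ≤ (4 * K + 1) ^ k := by
        intro a ha
        rw [Finset.mem_image] at ha
        obtain ⟨p0, hp0, hp0a⟩ := ha
        have hclose : ∀ p ∈ S.filter (fun p => p.1 i0 = a), ∀ i,
            ((p.1 i : ℤ) - (p0.1 i : ℤ)).natAbs ≤ 2 * K := by
          intro p hp i
          rw [Finset.mem_filter] at hp
          obtain ⟨_, h2, h3, h4⟩ := hpair p hp.1 p0 hp0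
          have hi0e : p.1 i0 = p0.1 i0 := hp.2.trans hp0a.symm
          by_cases hiT : i ∈ T.erase i0
          · have hT1 : ∀ i, i ∉ T.erase i0 → p.1 i = p0.1 i := by
              intro i' hi'
              by_cases h5 : i' = i0
              · rw [h5, hi0e]
              · refine h2 i' fun h6 => hi' (Finset.mem_erase.2 ⟨h5, h6⟩)
            have h5 := hsep P (T.erase i0) (l + 1) (2 * (W : ℝ)) p.1 p0.1 hP
              (fun i hi => h3 i (Finset.mem_of_mem_erase hi))
              (fun j hj1 hj2 => h4 (T.erase i0) hT1 j (by omega)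
                (by rw [hT1card] at hj2; omega)) i hiT
            rw [countN_natAbs] at h5
            have hW' : (W : ℝ) ≤ (P : ℝ) ^ (l + 1) := by exact_mod_cast hl2.le
            have h6 : ((((p.1 i : ℤ) - (p0.1 i : ℤ)).natAbs : ℕ) : ℝ) * (P : ℝ) ^ (l + 1) ≤
                2 * (K : ℝ) * (P : ℝ) ^ (l + 1) := by
              refine h5.trans ?_
              have : C0 * (2 * (W : ℝ)) ≤ K * (2 * (P : ℝ) ^ (l + 1)) := by gcongr
              linarith
            have h7 : ((p.1 i : ℤ) - (p0.1 i : ℤ)).natAbs * P ^ (l + 1) ≤ 2 * K * P ^ (l + 1) := by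
              exact_mod_cast h6
            exact Nat.le_of_mul_le_mul_right h7 (by positivity)
          · have h5 : p.1 i = p0.1 i := by
              by_cases h6 : i = i0
              · rw [h6, hi0e]
              · exact h2 i fun h7 => hiT (Finset.mem_erase.2 ⟨h6, h7⟩)
            rw [h5, sub_self]
            simp
        calc (S.filter (fun p => p.1 i0 = a)).card
            ≤ (Fintype.piFinset (fun i : Fin k => Icc (p0.1 i - 2 * K) (p0.1 i + 2 * K))).card := by
              refine Finset.card_le_card_of_injOn (fun p => p.1) ?_ ?_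
              · intro p hp
                have hp' : p ∈ S.filter (fun p => p.1 i0 = a) := hp
                show p.1 ∈ ((Fintype.piFinset
                  (fun i : Fin k => Icc (p0.1 i - 2 * K) (p0.1 i + 2 * K)) : Finset _) : Set _)
                rw [Finset.mem_coe, Fintype.mem_piFinset]
                intro i
                have := hclose p hp' i
                rw [Finset.mem_Icc]
                omega
              · intro p hp p' hp' hpp
                have hp1 : p ∈ S.filter (fun p => p.1 i0 = a) := hp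
                have hp1' : p' ∈ S.filter (fun p => p.1 i0 = a) := hp'
                rw [Finset.mem_filter] at hp1 hp1'
                exact Prod.ext hpp (hpair p hp1.1 p' hp1'.1).1
          _ = ∏ i : Fin k, (Icc (p0.1 i - 2 * K) (p0.1 i + 2 * K)).card := Fintype.card_piFinset _
          _ ≤ ∏ _i : Fin k, (4 * K + 1) := by
              refine Finset.prod_le_prod' fun i _ => ?_
              rw [Nat.card_Icc]
              omega
          _ = (4 * K + 1) ^ k := by simp
      calc S.card ≤ (4 * K + 1) ^ k * (S.image (fun p => p.1 i0)).card :=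
            Finset.card_le_mul_card_image S _ hfib2
        _ ≤ (4 * K + 1) ^ k * (2 * D + 1) := Nat.mul_le_mul_left _ himg2
    have hDl : (2 * D + 1) * P ^ l ≤ 5 * K * W := by
      have h1 : D * P ^ l ≤ 2 * K * W := Nat.div_mul_le_self _ _
      have h2 : W ≤ K * W := Nat.le_mul_of_pos_left _ hK1'
      calc (2 * D + 1) * P ^ l = 2 * (D * P ^ l) + P ^ l := by ring
        _ ≤ 2 * (2 * K * W) + K * W := by omega
        _ = 5 * K * W := by ring
    calc A.card ≤ (4 * K + 1) ^ k * (2 * D + 1) * (A.image f1).card :=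
          Finset.card_le_mul_card_image A _ hfib
      _ ≤ (4 * K + 1) ^ k * (2 * D + 1) * (P ^ k * P ^ l) := Nat.mul_le_mul_left _ himg
      _ = (4 * K + 1) ^ k * P ^ k * ((2 * D + 1) * P ^ l) := by ring
      _ ≤ (4 * K + 1) ^ k * P ^ k * (5 * K * W) := Nat.mul_le_mul_left _ hDl
      _ = 5 * K * (4 * K + 1) ^ k * W * P ^ k := by ring
  have := hmain
  exact_mod_cast this

end Pool.H82.WP
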