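import Pool.Agent.H19.Wa.Dim
import Pool.Agent.H82.WP.Defs

/-!
# Module DIMABS: dimension of a limsup set from measures of fattened sets

Adaptation of Pool/Agent/H19/Wa/{Cover,Dim}.lean (private lemmas `count`, `ediam_cube`, `meas_zero` there: copy them).
Proof. d = n - 1/(2M) > 0. For m >= m0 let Lm = 2^(M m), side 1/Lm. F_m = the q : Fin n → ℤ with -A Lm <= q_i < A Lm
(piFinset of Ico) such that the closed cube {a : q_i/Lm <= a_i <= (q_i+1)/Lm} meets B m. These cubes are inside Q n A, they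
cover B m, and they are contained in B' m by `hfat` (two points of a cube differ by at most 1/Lm = (1/2)^(M m) in each
coordinate). The open cubes are disjoint: #F_m Lm^(-n) <= vol(B' m) <= C 2^(-m). So
#F_m (1/Lm)^d = #F_m Lm^(-n) Lm^(1/(2M)) <= C 2^(-m) 2^(m/2) = C 2^(-m/2), summable; as in `meas_zero`,
`Measure.hausdorffMeasure_le_liminf_tsum` gives μH[d] (limsup) = 0, and `dimH_le_of_hausdorffMeasure_ne_top`.
-/

set_option autoImplicit false

namespace Pool.H82.WP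

open MeasureTheory Filter

/-- closed cube of side `1/L` with integer label -/
private def cb {n : ℕ} (L : ℕ) (q : Fin n → ℤ) : Set (Fin n → ℝ) :=
  {a | ∀ i, (q i : ℝ) / L ≤ a i ∧ a i ≤ ((q i : ℝ) + 1) / L}

private theorem ediam_cb {n : ℕ} (L : ℕ) (hL : 1 ≤ L) (q : Fin n → ℤ) :
    Metric.ediam (cb L q) ≤ ENNReal.ofReal ((1 : ℝ) / L) := by
  have hL0 : (0 : ℝ) < L := by exact_mod_cast hL
  apply Metric.ediam_le
  intro x hx y hy
  rw [edist_dist]
  apply ENNReal.ofReal_le_ofReal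
  rw [dist_pi_le_iff (by positivity)]
  intro i
  have h1 := hx i
  have h2 := hy i
  have h3 : ((q i : ℝ) + 1) / L = (q i : ℝ) / L + 1 / L := by ring
  rw [Real.dist_eq, abs_le]
  constructor <;> linarith [h1.1, h1.2, h2.1, h2.2]

/-- the counting estimate -/
private theorem count_cb {n : ℕ} (L : ℕ) (hL : 1 ≤ L) (F : Finset (Fin n → ℤ))
    (S : Set (Fin n → ℝ)) (hS : ∀ q ∈ F, cb L q ⊆ S)
    (B : ℝ) (hB0 : 0 ≤ B) (hB : volume S ≤ ENNReal.ofReal B) :
    (F.card : ℝ) * ((1 : ℝ) / L) ^ n ≤ B := by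
  classical
  have hL0 : (0 : ℝ) < L := by exact_mod_cast hL
  let oc : (Fin n → ℤ) → Set (Fin n → ℝ) := fun q =>
    Set.pi Set.univ (fun i => Set.Ioo ((q i : ℝ) / L) (((q i : ℝ) + 1) / L))
  have hoc : ∀ q, oc q ⊆ cb L q := by
    intro q al hal i
    have := hal i (Set.mem_univ i)
    exact ⟨this.1.le, this.2.le⟩
  have hmeas : ∀ q ∈ F, volume (oc q) = ENNReal.ofReal (((1 : ℝ) / L) ^ n) := by
    intro q _
    simp only [oc]
    rw [volume_pi_pi]
    have : ∀ i : Fin n, volume (Set.Ioo ((q i : ℝ) / L) (((q i : ℝ) + 1) / L)) =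
        ENNReal.ofReal ((1 : ℝ) / L) := by
      intro i
      rw [Real.volume_Ioo]
      congr 1
      ring
    simp only [this, Finset.prod_const, Finset.card_univ, Fintype.card_fin]
    rw [← ENNReal.ofReal_pow (by positivity)]
  have hdisj : Set.PairwiseDisjoint (↑F : Set (Fin n → ℤ)) oc := by
    intro q _ q' _ hne
    rw [Function.onFun, Set.disjoint_left]
    intro al h1 h2
    apply hne
    funext i
    have e1 := h1 i (Set.mem_univ i)
    have e2 := h2 i (Set.mem_univ i)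
    have a1 : (q i : ℝ) < (q' i : ℝ) + 1 := by
      have := e1.1.trans e2.2
      rwa [div_lt_div_iff_of_pos_right hL0] at this
    have a2 : (q' i : ℝ) < (q i : ℝ) + 1 := by
      have := e2.1.trans e1.2
      rwa [div_lt_div_iff_of_pos_right hL0] at this
    have b1 : q i < q' i + 1 := by exact_mod_cast a1
    have b2 : q' i < q i + 1 := by exact_mod_cast a2
    omega
  have hsum : volume (⋃ q ∈ F, oc q) = ∑ q ∈ F, volume (oc q) := by
    apply measure_biUnion_finset hdisj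
    intro q _
    exact MeasurableSet.univ_pi (fun i => measurableSet_Ioo)
  have hle : volume (⋃ q ∈ F, oc q) ≤ ENNReal.ofReal B := by
    refine (measure_mono ?_).trans hB
    apply Set.iUnion₂_subset
    intro q hq
    exact (hoc q).trans (hS q hq)
  rw [hsum, Finset.sum_congr rfl hmeas, Finset.sum_const, nsmul_eq_mul,
    ← ENNReal.ofReal_natCast, ← ENNReal.ofReal_mul (by positivity)] at hle
  exact (ENNReal.ofReal_le_ofReal_iff hB0).mp hle

private theorem cover_cb (n A M : ℕ) (hA : 1 ≤ A) (hM : 1 ≤ M)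
    (B B' : ℕ → Set (Fin n → ℝ)) (C : ℝ) (hC : 0 ≤ C) (m0 : ℕ)
    (hsub : ∀ m, B m ⊆ Q n A)
    (hfat : ∀ m, m0 ≤ m → ∀ a ∈ B m, ∀ a' ∈ Q n A, (∀ j, |a j - a' j| ≤ (1 / 2 : ℝ) ^ (M * m)) → a' ∈ B' m)
    (hvol : ∀ m, m0 ≤ m → volume (B' m) ≤ ENNReal.ofReal (C * (1 / 2 : ℝ) ^ m)) (m : ℕ) (hm : m0 ≤ m) :
    ∃ F : Finset (Fin n → ℤ), B m ⊆ ⋃ q ∈ F, cb (2 ^ (M * m)) q ∧
      (F.card : ℝ) * ((1 : ℝ) / ((2 ^ (M * m) : ℕ) : ℝ)) ^ ((n : ℝ) - 1 / (2 * M)) ≤
        C * ((1 / 2 : ℝ) ^ ((1 : ℝ) / 2)) ^ m := by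
  classical
  set L : ℕ := 2 ^ (M * m) with hLdef
  have hL1 : 1 ≤ L := Nat.one_le_two_pow
  have hL0 : (0 : ℝ) < L := by exact_mod_cast hL1
  have hMpos : (0 : ℝ) < M := by exact_mod_cast hM
  have hLinv : (1 : ℝ) / L = (1 / 2 : ℝ) ^ (M * m) := by
    rw [hLdef]
    push_cast
    rw [div_pow, one_pow]
  let F : Finset (Fin n → ℤ) :=
    (Fintype.piFinset (fun _ : Fin n => Finset.Ico (-((A * L : ℕ) : ℤ)) ((A * L : ℕ) : ℤ))).filter
      (fun q => (cb L q ∩ B m).Nonempty)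
  have hQ : ∀ q ∈ F, cb L q ⊆ Q n A := by
    intro q hq a ha
    have h1 := Fintype.mem_piFinset.mp (Finset.mem_filter.mp hq).1
    rw [mem_Q]
    intro i
    have h2 := Finset.mem_Ico.mp (h1 i)
    have h3 := ha i
    have h4 : -((A : ℝ) * L) ≤ (q i : ℝ) := by exact_mod_cast h2.1
    have h5 : (q i : ℝ) + 1 ≤ (A : ℝ) * L := by
      have : q i + 1 ≤ ((A * L : ℕ) : ℤ) := h2.2
      exact_mod_cast this
    rw [abs_le]
    constructor
    · refine le_trans ?_ h3.1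
      rw [le_div_iff₀ hL0]
      linarith
    · refine h3.2.trans ?_
      rw [div_le_iff₀ hL0]
      linarith
  have hFS : ∀ q ∈ F, cb L q ⊆ B' m := by
    intro q hq a' ha'
    obtain ⟨a, h1, h2⟩ := (Finset.mem_filter.mp hq).2
    refine hfat m hm a h2 a' (hQ q hq ha') fun j => ?_
    have e1 := h1 j
    have e2 := ha' j
    have h3 : ((q j : ℝ) + 1) / L = (q j : ℝ) / L + 1 / L := by ring
    rw [← hLinv, abs_le]
    constructor <;> linarith [e1.1, e1.2, e2.1, e2.2]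
  have hcount := count_cb L hL1 F _ hFS (C * (1 / 2 : ℝ) ^ m) (by positivity) (hvol m hm)
  refine ⟨F, ?_, ?_⟩
  · intro al hal
    have hq : ∀ i : Fin n, ∃ z : ℤ, -((A * L : ℕ) : ℤ) ≤ z ∧ z < ((A * L : ℕ) : ℤ) ∧
        (z : ℝ) / L ≤ al i ∧ al i ≤ ((z : ℝ) + 1) / L := by
      intro i
      have hi := abs_le.mp (mem_Q.mp (hsub m hal) i)
      have hfl := Int.floor_le (al i * L)
      have hfl2 := Int.lt_floor_add_one (al i * L)
      have hAL : (1 : ℤ) ≤ ((A * L : ℕ) : ℤ) := by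
        have : 1 ≤ A * L := Nat.mul_pos hA hL1
        exact_mod_cast this
      by_cases hlt : ⌊al i * L⌋ < ((A * L : ℕ) : ℤ)
      · refine ⟨⌊al i * L⌋, ?_, hlt, ?_, ?_⟩
        · rw [Int.le_floor]
          push_cast
          nlinarith [hi.1]
        · rw [div_le_iff₀ hL0]; exact hfl
        · rw [le_div_iff₀ hL0]; exact hfl2.le
      · push Not at hlt
        have h3 : (A : ℝ) * L ≤ al i * L := by
          have : (((A * L : ℕ) : ℤ) : ℝ) ≤ (⌊al i * L⌋ : ℝ) := by exact_mod_cast hlt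
          push_cast at this
          linarith
        have h5 : (A : ℝ) ≤ al i := by
          by_contra hcon
          push Not at hcon
          nlinarith
        refine ⟨((A * L : ℕ) : ℤ) - 1, by omega, by omega, ?_, ?_⟩
        · rw [div_le_iff₀ hL0]
          push_cast
          linarith
        · rw [le_div_iff₀ hL0]
          push_cast
          nlinarith [hi.2]
    choose q hqa hqb hq1 hq2 using hq
    have hmem : al ∈ cb L q := fun i => ⟨hq1 i, hq2 i⟩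
    simp only [Set.mem_iUnion, exists_prop]
    refine ⟨q, ?_, hmem⟩
    refine Finset.mem_filter.mpr ⟨Fintype.mem_piFinset.mpr
      (fun i => Finset.mem_Ico.mpr ⟨hqa i, hqb i⟩), ?_⟩
    exact ⟨al, hmem, hal⟩
  · have hLpow : ((1 : ℝ) / L) ^ ((n : ℝ) - 1 / (2 * M)) =
        ((1 : ℝ) / L) ^ n * (L : ℝ) ^ ((1 : ℝ) / (2 * M)) := by
      rw [one_div, Real.inv_rpow hL0.le, inv_pow, ← Real.rpow_natCast (L : ℝ) n,
        ← Real.rpow_neg hL0.le, ← Real.rpow_neg hL0.le, ← Real.rpow_add hL0]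
      congr 1
      ring
    have hL2 : (L : ℝ) ^ ((1 : ℝ) / (2 * M)) = ((2 : ℝ) ^ ((1 : ℝ) / 2)) ^ m := by
      have h1 : (L : ℝ) = (2 : ℝ) ^ ((M * m : ℕ) : ℝ) := by
        rw [Real.rpow_natCast, hLdef]
        push_cast
        rfl
      rw [h1, ← Real.rpow_natCast, ← Real.rpow_mul (by norm_num), ← Real.rpow_mul (by norm_num)]
      congr 1
      push_cast
      field_simp
    have hr : (1 / 2 : ℝ) ^ m * ((2 : ℝ) ^ ((1 : ℝ) / 2)) ^ m =
        ((1 / 2 : ℝ) ^ ((1 : ℝ) / 2)) ^ m := by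
      rw [← mul_pow]
      congr 1
      have h1 : (1 / 2 : ℝ) = (2 : ℝ) ^ (-1 : ℝ) := by
        rw [Real.rpow_neg_one]; norm_num
      rw [h1, ← Real.rpow_mul (by norm_num), ← Real.rpow_add (by norm_num)]
      norm_num
    calc (F.card : ℝ) * ((1 : ℝ) / L) ^ ((n : ℝ) - 1 / (2 * M))
        = ((F.card : ℝ) * ((1 : ℝ) / L) ^ n) * (L : ℝ) ^ ((1 : ℝ) / (2 * M)) := by
          rw [hLpow]; ring
      _ ≤ (C * (1 / 2 : ℝ) ^ m) * ((2 : ℝ) ^ ((1 : ℝ) / 2)) ^ m := by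
          rw [hL2]
          gcongr
      _ = C * ((1 / 2 : ℝ) ^ ((1 : ℝ) / 2)) ^ m := by rw [mul_assoc, hr]

private theorem meas_zero_abs (n A M : ℕ) (hn : 1 ≤ n) (hA : 1 ≤ A) (hM : 1 ≤ M)
    (B B' : ℕ → Set (Fin n → ℝ)) (C : ℝ) (hC : 0 ≤ C) (m0 : ℕ)
    (hsub : ∀ m, B m ⊆ Q n A)
    (hfat : ∀ m, m0 ≤ m → ∀ a ∈ B m, ∀ a' ∈ Q n A, (∀ j, |a j - a' j| ≤ (1 / 2 : ℝ) ^ (M * m)) → a' ∈ B' m)
    (hvol : ∀ m, m0 ≤ m → volume (B' m) ≤ ENNReal.ofReal (C * (1 / 2 : ℝ) ^ m)) :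
    Measure.hausdorffMeasure ((n : ℝ) - 1 / (2 * M)) {a : Fin n → ℝ | ∃ᶠ m in atTop, a ∈ B m} = 0 := by
  classical
  set d : ℝ := (n : ℝ) - 1 / (2 * M) with hd
  have hMpos : (1 : ℝ) ≤ M := by exact_mod_cast hM
  have hn1 : (1 : ℝ) ≤ n := by exact_mod_cast hn
  have hd0 : 0 < d := by
    have : (1 : ℝ) / (2 * M) ≤ 1 / 2 := by
      rw [div_le_div_iff₀ (by positivity) (by norm_num)]
      linarith
    rw [hd]
    linarith
  have hch : ∀ m : ℕ, ∃ F : Finset (Fin n → ℤ), m0 ≤ m →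
      (B m ⊆ ⋃ q ∈ F, cb (2 ^ (M * m)) q ∧
        (F.card : ℝ) * ((1 : ℝ) / ((2 ^ (M * m) : ℕ) : ℝ)) ^ d ≤
          C * ((1 / 2 : ℝ) ^ ((1 : ℝ) / 2)) ^ m) := by
    intro m
    by_cases hm : m0 ≤ m
    · obtain ⟨F, h⟩ := cover_cb n A M hA hM B B' C hC m0 hsub hfat hvol m hm
      exact ⟨F, fun _ => h⟩
    · exact ⟨∅, fun h => absurd h hm⟩
  choose F hF using hch
  set r : ℝ := (1 / 2 : ℝ) ^ ((1 : ℝ) / 2) with hr
  have hr0 : 0 ≤ r := by positivity
  have hr1 : r < 1 := Real.rpow_lt_one (by norm_num) (by norm_num) (by norm_num)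
  have hL1 : ∀ m : ℕ, 1 ≤ 2 ^ (M * m) := fun m => Nat.one_le_two_pow
  have hsum : ∑' m : ℕ, ENNReal.ofReal (C * r ^ m) ≠ ⊤ := by
    have h1 : Summable (fun m : ℕ => C * r ^ m) :=
      (summable_geometric_of_lt_one hr0 hr1).mul_left C
    rw [← ENNReal.ofReal_tsum_of_nonneg (fun m => by positivity) h1]
    exact ENNReal.ofReal_ne_top
  have htail := ENNReal.tendsto_sum_nat_add _ hsum
  have key := Measure.hausdorffMeasure_le_liminf_tsum (ι := fun N : ℕ => Σ m : ℕ, {q // q ∈ F (m + N)})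
    d {a : Fin n → ℝ | ∃ᶠ m in atTop, a ∈ B m} (l := atTop)
    (fun N : ℕ => ENNReal.ofReal ((1 / 2 : ℝ) ^ N)) ?_
    (fun N i => cb (2 ^ (M * (i.1 + N))) i.2.1) ?_ ?_
  · refine le_antisymm (key.trans ?_) zero_le
    have hle : ∀ᶠ N : ℕ in atTop, (∑' i : (Σ m : ℕ, {q // q ∈ F (m + N)}),
        Metric.ediam (cb (2 ^ (M * (i.1 + N))) i.2.1) ^ d) ≤
        ∑' m : ℕ, ENNReal.ofReal (C * r ^ (m + N)) := by
      filter_upwards [eventually_ge_atTop m0] with N hN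
      rw [ENNReal.tsum_sigma']
      apply ENNReal.tsum_le_tsum
      intro m
      obtain ⟨-, hcard⟩ := hF (m + N) (by omega)
      rw [tsum_fintype]
      calc ∑ q : {q // q ∈ F (m + N)}, Metric.ediam (cb (2 ^ (M * (m + N))) q.1) ^ d
          ≤ ∑ _q : {q // q ∈ F (m + N)},
              ENNReal.ofReal (((1 : ℝ) / ((2 ^ (M * (m + N)) : ℕ) : ℝ)) ^ d) := by
            apply Finset.sum_le_sum
            intro q _
            rw [← ENNReal.ofReal_rpow_of_nonneg (by positivity) hd0.le]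
            exact ENNReal.rpow_le_rpow (ediam_cb _ (hL1 _) _) hd0.le
        _ = ENNReal.ofReal ((F (m + N)).card * ((1 : ℝ) / ((2 ^ (M * (m + N)) : ℕ) : ℝ)) ^ d) := by
            rw [Finset.sum_const, Finset.card_univ, Fintype.card_coe, nsmul_eq_mul,
              ENNReal.ofReal_mul (by positivity), ENNReal.ofReal_natCast]
        _ ≤ _ := ENNReal.ofReal_le_ofReal hcard
    calc liminf (fun N : ℕ => ∑' i : (Σ m : ℕ, {q // q ∈ F (m + N)}),
        Metric.ediam (cb (2 ^ (M * (i.1 + N))) i.2.1) ^ d) atTop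
        ≤ liminf (fun N : ℕ => ∑' m : ℕ, ENNReal.ofReal (C * r ^ (m + N))) atTop :=
          liminf_le_liminf hle
      _ = 0 := htail.liminf_eq
      _ ≤ 0 := le_rfl
  · have h1 : Tendsto (fun N : ℕ => (1 / 2 : ℝ) ^ N) atTop (nhds 0) :=
      tendsto_pow_atTop_nhds_zero_of_lt_one (by norm_num) (by norm_num)
    have h2 := ENNReal.tendsto_ofReal h1
    simpa using h2
  · filter_upwards [eventually_ge_atTop 0] with N _
    intro i
    refine (ediam_cb _ (hL1 _) _).trans (ENNReal.ofReal_le_ofReal ?_)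
    have h1 : (1 : ℝ) / ((2 ^ (M * (i.1 + N)) : ℕ) : ℝ) = (1 / 2 : ℝ) ^ (M * (i.1 + N)) := by
      push_cast
      rw [div_pow, one_pow]
    rw [h1]
    apply pow_le_pow_of_le_one (by norm_num) (by norm_num)
    calc N ≤ 1 * (i.1 + N) := by omega
      _ ≤ M * (i.1 + N) := Nat.mul_le_mul_right _ hM
  · filter_upwards [eventually_ge_atTop m0] with N hN
    intro al hal
    have hal' : ∃ᶠ m : ℕ in atTop, al ∈ B m := hal
    obtain ⟨m, hm1, hm2⟩ := (hal'.and_eventually (eventually_ge_atTop N)).exists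
    obtain ⟨hcv, -⟩ := hF m (by omega)
    have h1 := hcv hm1
    simp only [Set.mem_iUnion, exists_prop] at h1
    obtain ⟨q, hq, hmem⟩ := h1
    rw [Set.mem_iUnion]
    have hmN : m - N + N = m := by omega
    refine ⟨⟨m - N, ⟨q, ?_⟩⟩, ?_⟩
    · rw [hmN]; exact hq
    · simp only [hmN]; exact hmem

theorem dim_abs (n A M : ℕ) (hn : 1 ≤ n) (hA : 1 ≤ A) (hM : 1 ≤ M) (B B' : ℕ → Set (Fin n → ℝ)) (C : ℝ) (m0 : ℕ)
    (hsub : ∀ m, B m ⊆ Q n A)
    (hfat : ∀ m, m0 ≤ m → ∀ a ∈ B m, ∀ a' ∈ Q n A, (∀ j, |a j - a' j| ≤ (1 / 2 : ℝ) ^ (M * m)) → a' ∈ B' m)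
    (hvol : ∀ m, m0 ≤ m → volume (B' m) ≤ ENNReal.ofReal (C * (1 / 2 : ℝ) ^ m)) :
    dimH {a | ∃ᶠ m in atTop, a ∈ B m} ≤ ENNReal.ofReal ((n : ℝ) - 1 / (2 * M)) := by
  have hz := meas_zero_abs n A M hn hA hM B B' (max C 0) (le_max_right _ _) m0 hsub hfat
    (fun m hm => (hvol m hm).trans (ENNReal.ofReal_le_ofReal
      (mul_le_mul_of_nonneg_right (le_max_left _ _) (by positivity))))
  have hMpos : (1 : ℝ) ≤ M := by exact_mod_cast hM
  have hn1 : (1 : ℝ) ≤ n := by exact_mod_cast hn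
  have hd0 : 0 < (n : ℝ) - 1 / (2 * M) := by
    have : (1 : ℝ) / (2 * M) ≤ 1 / 2 := by
      rw [div_le_div_iff₀ (by positivity) (by norm_num)]
      linarith
    linarith
  have hdd : ((((n : ℝ) - 1 / (2 * M)).toNNReal : NNReal) : ℝ) = (n : ℝ) - 1 / (2 * M) :=
    Real.coe_toNNReal _ hd0.le
  have : Measure.hausdorffMeasure ((((n : ℝ) - 1 / (2 * M)).toNNReal : NNReal) : ℝ)
      {a : Fin n → ℝ | ∃ᶠ m in atTop, a ∈ B m} ≠ ⊤ := by
    rw [hdd, hz]; exact ENNReal.zero_ne_top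
  exact dimH_le_of_hausdorffMeasure_ne_top this

end Pool.H82.WP
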