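import Pool.Agent.H82.WP.VSq

/-!
# Module ERRSPLIT: splitting an error integral (pure real analysis)

Proof. Let D(t) = exp(-π t^2/b^2) - exp(-π t^2/b2^2); as b2 <= b: 0 <= D(t) <= exp(-π t^2/b^2) <= 1, and
D(t) <= 1 - exp(-π t^2/b2^2) <= π t^2/b2^2. Pointwise |D| v w <= g1 + g2 + g3 + g4 with
 g1 = indicator of |t| <= t2 times (π t2^2/b2^2) MV MT,
 g2 = indicator of t2 <= |t| times E/|t|^(n+1)            (used for t2 <= |t| <= t3),
 g3 = m exp(-π t^2/b^2) v(t)                               (t3 <= |t| <= t4),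
 g4 = MV MT exp(-π t4^2/(2b^2)) exp(-π t^2/(2b^2))         (|t| >= t4; exp(-π t^2/b^2) is the product of two square
roots). Every t is in one of the four ranges. Integrals: ∫ g1 = 2 t2 (..), ∫ g2 = 2 E t2^(-n)/n <= 2E/t2^n
(`integral_Ioi_rpow_of_lt` or `integral_Ioi_zpow`..., symmetric), ∫ g4 = MV MT exp(..) √2 b <= MV MT 2 b exp(..)
(`integral_gaussian`). All g_i are integrable (g3: bounded continuous times Gaussian, `integrable_gauss`).
MV, MT >= 0 follow from v 0 <= MV etc. If the left side is not integrable its integral is 0 (but it is integrable).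
-/

set_option autoImplicit false

namespace Pool.H82.WP

open MeasureTheory

private theorem es_gauss (b : ℝ) (hb : 0 < b) :
    Integrable (fun t : ℝ => Real.exp (-(Real.pi * t ^ 2 / b ^ 2))) := by
  have h := integrable_exp_neg_mul_sq (b := Real.pi / b ^ 2) (by positivity)
  refine h.congr (Filter.Eventually.of_forall fun t => ?_)
  show Real.exp (-(Real.pi / b ^ 2) * t ^ 2) = _
  congr 1
  ring

/-- the tail `E / u ^ (n+1)` on `(t2, ∞)` -/
private theorem es_tail (t2 E : ℝ) (n : ℕ) (ht2 : 0 < t2) (hn : 1 ≤ n) (hE0 : 0 ≤ E) :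
    IntegrableOn (fun u : ℝ => E / u ^ (n + 1)) (Set.Ioi t2) ∧
      ∫ u in Set.Ioi t2, E / u ^ (n + 1) ≤ E / t2 ^ n := by
  have hlt : -((n : ℝ) + 1) < -1 := by
    have : (0 : ℝ) < n := by exact_mod_cast hn
    linarith
  have hcongr : ∀ u ∈ Set.Ioi t2, E * u ^ (-((n : ℝ) + 1)) = E / u ^ (n + 1) := by
    intro u hu
    have hu0 : 0 < u := ht2.trans hu
    rw [Real.rpow_neg hu0.le, div_eq_mul_inv]
    congr 2
    rw [← Real.rpow_natCast]
    push_cast
    rfl
  constructor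
  · have h : IntegrableOn (fun u : ℝ => E * u ^ (-((n : ℝ) + 1))) (Set.Ioi t2) :=
      (integrableOn_Ioi_rpow_of_lt hlt ht2).const_mul E
    exact h.congr_fun hcongr measurableSet_Ioi
  · rw [← setIntegral_congr_fun measurableSet_Ioi hcongr, integral_const_mul,
      integral_Ioi_rpow_of_lt hlt ht2]
    have e1 : -((n : ℝ) + 1) + 1 = -(n : ℝ) := by ring
    rw [e1, Real.rpow_neg ht2.le, Real.rpow_natCast, neg_div_neg_eq]
    have hn1 : (1 : ℝ) ≤ n := by exact_mod_cast hn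
    have h1 : (t2 ^ n)⁻¹ / (n : ℝ) ≤ (t2 ^ n)⁻¹ := div_le_self (by positivity) hn1
    calc E * ((t2 ^ n)⁻¹ / (n : ℝ)) ≤ E * (t2 ^ n)⁻¹ := by gcongr
      _ = E / t2 ^ n := by rw [div_eq_mul_inv]

/-- the two sided tail -/
private noncomputable def esg2 (t2 E : ℝ) (n : ℕ) (t : ℝ) : ℝ :=
  (Set.Ioi t2).indicator (fun u => E / u ^ (n + 1)) |t|

private theorem es_g2 (t2 E : ℝ) (n : ℕ) (ht2 : 0 < t2) (hn : 1 ≤ n) (hE0 : 0 ≤ E) :
    Integrable (esg2 t2 E n) ∧ ∫ t : ℝ, esg2 t2 E n t ≤ 2 * E / t2 ^ n := by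
  obtain ⟨h1, h2⟩ := es_tail t2 E n ht2 hn hE0
  have hi : Integrable ((Set.Ioi t2).indicator (fun u : ℝ => E / u ^ (n + 1))) :=
    (integrable_indicator_iff measurableSet_Ioi).mpr h1
  constructor
  · have h3 : esg2 t2 E n = fun t => (Set.Ioi t2).indicator (fun u : ℝ => E / u ^ (n + 1)) t +
        (Set.Ioi t2).indicator (fun u : ℝ => E / u ^ (n + 1)) (-t) := by
      funext t
      unfold esg2
      rcases le_total 0 t with ht | ht
      · rw [abs_of_nonneg ht, Set.indicator_of_notMem (a := -t) (by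
          simp only [Set.mem_Ioi, not_lt]; linarith), add_zero]
      · rw [abs_of_nonpos ht, Set.indicator_of_notMem (a := t) (by
          simp only [Set.mem_Ioi, not_lt]; linarith), zero_add]
    rw [h3]
    exact hi.add hi.comp_neg
  · have h3 : ∫ t : ℝ, esg2 t2 E n t =
        2 * ∫ u in Set.Ioi (0 : ℝ), (Set.Ioi t2).indicator (fun u : ℝ => E / u ^ (n + 1)) u :=
      integral_comp_abs (f := (Set.Ioi t2).indicator (fun u : ℝ => E / u ^ (n + 1)))
    rw [h3, setIntegral_indicator measurableSet_Ioi, Set.inter_eq_right.mpr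
      (Set.Ioi_subset_Ioi ht2.le)]
    calc 2 * ∫ u in Set.Ioi t2, E / u ^ (n + 1) ≤ 2 * (E / t2 ^ n) := by gcongr
      _ = 2 * E / t2 ^ n := by ring

theorem err_split (v w : ℝ → ℝ) (hv : Continuous v) (hw : Continuous w) (hv0 : ∀ t, 0 ≤ v t)
    (hw0 : ∀ t, 0 ≤ w t) (b b2 t2 t3 t4 MV MT E m : ℝ) (n : ℕ) (hb2 : 0 < b2) (hbb : b2 ≤ b) (ht2 : 0 < t2)
    (ht4 : 0 ≤ t4) (hMV : ∀ t, v t ≤ MV) (hMT : ∀ t, w t ≤ MT) (hn : 1 ≤ n) (hE0 : 0 ≤ E)
    (hE : ∀ t, t2 ≤ |t| → |t| ≤ t3 → v t * w t ≤ E / |t| ^ (n + 1))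
    (hm0 : 0 ≤ m) (hm : ∀ t, t3 ≤ |t| → |t| ≤ t4 → w t ≤ m) :
    ∫ t : ℝ, |Real.exp (-(Real.pi * t ^ 2 / b ^ 2)) - Real.exp (-(Real.pi * t ^ 2 / b2 ^ 2))| * (v t * w t) ≤
      2 * t2 * (Real.pi * t2 ^ 2 / b2 ^ 2) * (MV * MT) + 2 * E / t2 ^ n +
        m * (∫ t : ℝ, Real.exp (-(Real.pi * t ^ 2 / b ^ 2)) * v t) +
        MV * MT * (2 * b * Real.exp (-(Real.pi * t4 ^ 2 / (2 * b ^ 2)))) := by
  have hb : 0 < b := hb2.trans_le hbb
  have hMV0 : 0 ≤ MV := (hv0 0).trans (hMV 0)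
  have hMT0 : 0 ≤ MT := (hw0 0).trans (hMT 0)
  have hpi := Real.pi_pos
  -- the four majorants
  obtain ⟨C1, hC1⟩ : ∃ C : ℝ, C = (Real.pi * t2 ^ 2 / b2 ^ 2) * (MV * MT) := ⟨_, rfl⟩
  have hC10 : 0 ≤ C1 := by rw [hC1]; positivity
  have hi1 : Integrable ((Set.Icc (-t2) t2).indicator (fun _ : ℝ => C1)) :=
    (integrable_indicator_iff measurableSet_Icc).mpr
      (integrableOn_const (by simp))
  have hI1 : ∫ t : ℝ, (Set.Icc (-t2) t2).indicator (fun _ : ℝ => C1) t = 2 * t2 * C1 := by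
    rw [integral_indicator measurableSet_Icc, setIntegral_const, smul_eq_mul, measureReal_def,
      Real.volume_Icc, ENNReal.toReal_ofReal (by linarith)]
    ring
  obtain ⟨hi2, hI2⟩ := es_g2 t2 E n ht2 hn hE0
  have hg := es_gauss b hb
  have hi3 : Integrable (fun t : ℝ => m * (Real.exp (-(Real.pi * t ^ 2 / b ^ 2)) * v t)) := by
    refine Integrable.const_mul ?_ m
    refine hg.mul_bdd (c := MV) hv.aestronglyMeasurable (Filter.Eventually.of_forall fun t => ?_)
    rw [Real.norm_eq_abs, abs_of_nonneg (hv0 t)]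
    exact hMV t
  have hI3 : ∫ t : ℝ, m * (Real.exp (-(Real.pi * t ^ 2 / b ^ 2)) * v t) =
      m * (∫ t : ℝ, Real.exp (-(Real.pi * t ^ 2 / b ^ 2)) * v t) := integral_const_mul _ _
  have hg4 : Integrable (fun t : ℝ => Real.exp (-(Real.pi / (2 * b ^ 2)) * t ^ 2)) :=
    integrable_exp_neg_mul_sq (by positivity)
  have hi4 : Integrable (fun t : ℝ => MV * MT * Real.exp (-(Real.pi * t4 ^ 2 / (2 * b ^ 2))) *
      Real.exp (-(Real.pi / (2 * b ^ 2)) * t ^ 2)) := hg4.const_mul _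
  have hI4 : ∫ t : ℝ, MV * MT * Real.exp (-(Real.pi * t4 ^ 2 / (2 * b ^ 2))) *
      Real.exp (-(Real.pi / (2 * b ^ 2)) * t ^ 2) ≤
      MV * MT * (2 * b * Real.exp (-(Real.pi * t4 ^ 2 / (2 * b ^ 2)))) := by
    rw [integral_const_mul, integral_gaussian]
    have h1 : √(Real.pi / (Real.pi / (2 * b ^ 2))) ≤ 2 * b := by
      rw [Real.sqrt_le_left (by positivity)]
      have : Real.pi / (Real.pi / (2 * b ^ 2)) = 2 * b ^ 2 := by field_simp
      rw [this]
      nlinarith [sq_nonneg b]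
    calc MV * MT * Real.exp (-(Real.pi * t4 ^ 2 / (2 * b ^ 2))) * √(Real.pi / (Real.pi / (2 * b ^ 2)))
        ≤ MV * MT * Real.exp (-(Real.pi * t4 ^ 2 / (2 * b ^ 2))) * (2 * b) := by gcongr
      _ = _ := by ring
  have hi12 : Integrable (fun t : ℝ => (Set.Icc (-t2) t2).indicator (fun _ : ℝ => C1) t +
      esg2 t2 E n t) := hi1.add hi2
  have hi123 : Integrable (fun t : ℝ => (Set.Icc (-t2) t2).indicator (fun _ : ℝ => C1) t +
      esg2 t2 E n t + m * (Real.exp (-(Real.pi * t ^ 2 / b ^ 2)) * v t)) := hi12.add hi3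
  have hmaj := integral_mono_of_nonneg (μ := volume)
    (f := fun t : ℝ => |Real.exp (-(Real.pi * t ^ 2 / b ^ 2)) -
      Real.exp (-(Real.pi * t ^ 2 / b2 ^ 2))| * (v t * w t))
    (g := fun t : ℝ => (Set.Icc (-t2) t2).indicator (fun _ : ℝ => C1) t + esg2 t2 E n t +
      m * (Real.exp (-(Real.pi * t ^ 2 / b ^ 2)) * v t) +
      MV * MT * Real.exp (-(Real.pi * t4 ^ 2 / (2 * b ^ 2))) *
        Real.exp (-(Real.pi / (2 * b ^ 2)) * t ^ 2))
    (Filter.Eventually.of_forall fun t => mul_nonneg (abs_nonneg _) (mul_nonneg (hv0 t) (hw0 t)))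
    (hi123.add hi4) (Filter.Eventually.of_forall fun t => ?_)
  · refine hmaj.trans ?_
    rw [integral_add hi123 hi4, integral_add hi12 hi3, integral_add hi1 hi2, hI1, hI3]
    rw [hC1] at *
    linarith [hI2, hI4]
  · show |Real.exp (-(Real.pi * t ^ 2 / b ^ 2)) - Real.exp (-(Real.pi * t ^ 2 / b2 ^ 2))| *
      (v t * w t) ≤ _
    have hn1 : 0 ≤ (Set.Icc (-t2) t2).indicator (fun _ : ℝ => C1) t :=
      Set.indicator_nonneg (fun _ _ => hC10) t
    have hn2 : 0 ≤ esg2 t2 E n t := by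
      refine Set.indicator_nonneg (fun u hu => ?_) _
      have : 0 < u := ht2.trans hu
      positivity
    have hn3 : 0 ≤ m * (Real.exp (-(Real.pi * t ^ 2 / b ^ 2)) * v t) := by
      have := hv0 t
      positivity
    have hn4 : 0 ≤ MV * MT * Real.exp (-(Real.pi * t4 ^ 2 / (2 * b ^ 2))) *
        Real.exp (-(Real.pi / (2 * b ^ 2)) * t ^ 2) := by positivity
    have hvt := hv0 t
    have hwt := hw0 t
    have hvw : v t * w t ≤ MV * MT := mul_le_mul (hMV t) (hMT t) hwt hMV0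
    have hmono : Real.exp (-(Real.pi * t ^ 2 / b2 ^ 2)) ≤ Real.exp (-(Real.pi * t ^ 2 / b ^ 2)) := by
      rw [Real.exp_le_exp, neg_le_neg_iff]
      exact div_le_div_of_nonneg_left (by positivity) (by positivity)
        (pow_le_pow_left₀ hb2.le hbb 2)
    rw [abs_of_nonneg (by linarith)]
    have he0 := Real.exp_pos (-(Real.pi * t ^ 2 / b2 ^ 2))
    have he0' := Real.exp_pos (-(Real.pi * t ^ 2 / b ^ 2))
    have he1 : Real.exp (-(Real.pi * t ^ 2 / b ^ 2)) ≤ 1 := by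
      rw [Real.exp_le_one_iff]
      have : 0 ≤ Real.pi * t ^ 2 / b ^ 2 := by positivity
      linarith
    rcases le_or_gt |t| t2 with h2 | h2
    · -- first range
      have hmem : t ∈ Set.Icc (-t2) t2 := abs_le.mp h2
      have hD : Real.exp (-(Real.pi * t ^ 2 / b ^ 2)) - Real.exp (-(Real.pi * t ^ 2 / b2 ^ 2)) ≤
          Real.pi * t2 ^ 2 / b2 ^ 2 := by
        have h3 := Real.add_one_le_exp (-(Real.pi * t ^ 2 / b2 ^ 2))
        have h4 : Real.pi * t ^ 2 / b2 ^ 2 ≤ Real.pi * t2 ^ 2 / b2 ^ 2 := by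
          have : t ^ 2 ≤ t2 ^ 2 := by
            rw [← sq_abs t]
            exact pow_le_pow_left₀ (abs_nonneg t) h2 2
          gcongr
        linarith
      have h5 : (Real.exp (-(Real.pi * t ^ 2 / b ^ 2)) - Real.exp (-(Real.pi * t ^ 2 / b2 ^ 2))) *
          (v t * w t) ≤ C1 := by
        rw [hC1]
        exact mul_le_mul hD hvw (mul_nonneg hvt hwt) (by positivity)
      have hind : (Set.Icc (-t2) t2).indicator (fun _ : ℝ => C1) t = C1 :=
        Set.indicator_of_mem hmem _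
      show _ ≤ (Set.Icc (-t2) t2).indicator (fun _ : ℝ => C1) t + esg2 t2 E n t +
        m * (Real.exp (-(Real.pi * t ^ 2 / b ^ 2)) * v t) +
        MV * MT * Real.exp (-(Real.pi * t4 ^ 2 / (2 * b ^ 2))) *
          Real.exp (-(Real.pi / (2 * b ^ 2)) * t ^ 2)
      linarith
    · have hD : Real.exp (-(Real.pi * t ^ 2 / b ^ 2)) - Real.exp (-(Real.pi * t ^ 2 / b2 ^ 2)) ≤
          Real.exp (-(Real.pi * t ^ 2 / b ^ 2)) := by linarith
      have hvw0 : 0 ≤ v t * w t := mul_nonneg hvt hwt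
      have hDD := mul_le_mul_of_nonneg_right hD hvw0
      rcases le_or_gt |t| t3 with h3 | h3
      · have h4 : esg2 t2 E n t = E / |t| ^ (n + 1) := by
          unfold esg2
          rw [Set.indicator_of_mem (show |t| ∈ Set.Ioi t2 from h2)]
        have h5 := hE t h2.le h3
        have h6 : Real.exp (-(Real.pi * t ^ 2 / b ^ 2)) * (v t * w t) ≤ 1 * (v t * w t) :=
          mul_le_mul_of_nonneg_right he1 hvw0
        linarith
      · rcases le_or_gt |t| t4 with h4 | h4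
        · have h5 := hm t h3.le h4
          have h6 : Real.exp (-(Real.pi * t ^ 2 / b ^ 2)) * (v t * w t) ≤
              m * (Real.exp (-(Real.pi * t ^ 2 / b ^ 2)) * v t) := by
            calc Real.exp (-(Real.pi * t ^ 2 / b ^ 2)) * (v t * w t)
                ≤ Real.exp (-(Real.pi * t ^ 2 / b ^ 2)) * (v t * m) := by gcongr
              _ = _ := by ring
          linarith
        · have h5 : Real.exp (-(Real.pi * t ^ 2 / b ^ 2)) ≤
              Real.exp (-(Real.pi * t4 ^ 2 / (2 * b ^ 2))) *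
                Real.exp (-(Real.pi / (2 * b ^ 2)) * t ^ 2) := by
            rw [← Real.exp_add, Real.exp_le_exp]
            have h6 : t4 ^ 2 ≤ t ^ 2 := by
              rw [← sq_abs t]
              exact pow_le_pow_left₀ ht4 h4.le 2
            have h7 : Real.pi * t4 ^ 2 / (2 * b ^ 2) ≤ Real.pi * t ^ 2 / (2 * b ^ 2) := by gcongr
            have h8 : -(Real.pi / (2 * b ^ 2)) * t ^ 2 = -(Real.pi * t ^ 2 / (2 * b ^ 2)) := by ring
            have h9 : Real.pi * t ^ 2 / b ^ 2 = Real.pi * t ^ 2 / (2 * b ^ 2) +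
                Real.pi * t ^ 2 / (2 * b ^ 2) := by
              field_simp
              ring
            rw [h8, h9]
            linarith
          have h6 : Real.exp (-(Real.pi * t ^ 2 / b ^ 2)) * (v t * w t) ≤
              MV * MT * Real.exp (-(Real.pi * t4 ^ 2 / (2 * b ^ 2))) *
                Real.exp (-(Real.pi / (2 * b ^ 2)) * t ^ 2) := by
            calc Real.exp (-(Real.pi * t ^ 2 / b ^ 2)) * (v t * w t)
                ≤ (Real.exp (-(Real.pi * t4 ^ 2 / (2 * b ^ 2))) *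
                  Real.exp (-(Real.pi / (2 * b ^ 2)) * t ^ 2)) * (MV * MT) :=
                  mul_le_mul h5 hvw hvw0 (by positivity)
              _ = _ := by ring
          linarith

end Pool.H82.WP
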