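import Pool.Agent.H82.WP.BadVol

/-!
# Module FAT: stability of the bad sets, and the assembly at one cube

Proof of `fat`. P = (4^m)^(4 D1), J = 4^m, M = 2 (4 D1 k + 1), so (1/2)^(M m) = 1/(P^k J). For x, y in Bx k P,
z in (P, LP] let w : Fin (k + k + 1) → ℕ be `Fin.snoc (Fin.append x y) z`, ∑ F(w_i) = Ph x + Ph y + F z. All entries are
at most L P (2k <= L), so |F_a(w_i) - F_a'(w_i)| <= ∑_j |a_j - a'_j| (LP)^(j+1) <= (k-1) (LP)^(k-1)/(P^k J), and the sum over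
the 2k+1 entries is at most C/(P J) <= 1/J for m >= m0 (P >= 4^m >= C). So 2/J <= |∑F_a - τ| gives
1/J <= |∑ F_a' - τ|.
-/

set_option autoImplicit false

namespace Pool.H82.WP

open Finset MeasureTheory Filter

/-- the polynomials missing some target at scale P with precision 2/J with any 2k+1 natural numbers -/
def BadT (k A L P J : ℕ) : Set (Fin (k - 1) → ℝ) :=
  {a | a ∈ Q (k - 1) A ∧ ∃ tau : ℝ, A1 k * (P : ℝ) ^ k ≤ tau ∧ tau ≤ A2 k L * (P : ℝ) ^ k ∧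
    ∀ w : Fin (k + k + 1) → ℕ, 2 / (J : ℝ) ≤ |∑ i, F k a (w i) - tau|}

theorem fat_F (k : ℕ) (a a' : Fin (k - 1) → ℝ) (δ X x : ℝ) (hx : 0 ≤ x) (hxX : x ≤ X) (hX : 1 ≤ X)
    (hδ : 0 ≤ δ) (h : ∀ j, |a j - a' j| ≤ δ) :
    |F k a x - F k a' x| ≤ k * (δ * X ^ (k - 1)) := by
  have e1 : F k a x - F k a' x = ∑ j, (a j - a' j) * x ^ ((j : ℕ) + 1) := by
    unfold F
    simp only [sub_mul, Finset.sum_sub_distrib]
    ring
  rw [e1]
  refine (Finset.abs_sum_le_sum_abs _ _).trans ?_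
  have h1 : ∀ j ∈ (Finset.univ : Finset (Fin (k - 1))),
      |(a j - a' j) * x ^ ((j : ℕ) + 1)| ≤ δ * X ^ (k - 1) := by
    intro j _
    rw [abs_mul, abs_of_nonneg (pow_nonneg hx _)]
    have h2 : x ^ ((j : ℕ) + 1) ≤ X ^ (k - 1) :=
      (pow_le_pow_left₀ hx hxX _).trans (pow_le_pow_right₀ hX (by have := j.2; omega))
    exact mul_le_mul (h j) h2 (pow_nonneg hx _) hδ
  refine (Finset.sum_le_sum h1).trans ?_
  rw [Finset.sum_const, Finset.card_univ, Fintype.card_fin, nsmul_eq_mul]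
  have h3 : 0 ≤ δ * X ^ (k - 1) := mul_nonneg hδ (pow_nonneg (by linarith) _)
  refine mul_le_mul_of_nonneg_right ?_ h3
  exact_mod_cast Nat.sub_le k 1

theorem fat_sum (k : ℕ) (a : Fin (k - 1) → ℝ) (x y : Fin k → ℕ) (z : ℕ) :
    ∑ i, F k a ((Fin.snoc (Fin.append x y) z : Fin (k + k + 1) → ℕ) i : ℕ) =
      Ph k a x + Ph k a y + F k a z := by
  rw [Fin.sum_univ_castSucc, Fin.sum_univ_add]
  simp only [Fin.snoc_castSucc, Fin.snoc_last, Fin.append_left, Fin.append_right]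
  rfl

theorem fat (k A L D1 : ℕ) (hk : 2 ≤ k) (hL : 2 * k ≤ L) (hD : 1 ≤ D1) : ∃ m0 : ℕ, ∀ m : ℕ, m0 ≤ m →
    ∀ a ∈ BadT k A L ((4 ^ m) ^ (4 * D1)) (4 ^ m), ∀ a' ∈ Q (k - 1) A,
      (∀ j, |a j - a' j| ≤ (1 / 2 : ℝ) ^ (2 * (4 * D1 * k + 1) * m)) →
      a' ∈ BadS k A L ((4 ^ m) ^ (4 * D1)) (4 ^ m) := by
  obtain ⟨m0, hm0⟩ : ∃ m0 : ℕ, ((2 * k + 1) * k * L ^ (k - 1) : ℝ) ≤ 4 ^ m0 := by
    obtain ⟨n, hn⟩ := pow_unbounded_of_one_lt ((2 * k + 1) * k * L ^ (k - 1) : ℝ) (by norm_num : (1:ℝ) < 4)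
    exact ⟨n, hn.le⟩
  refine ⟨m0, fun m hm a ha a' ha' hd => ⟨ha', ?_⟩⟩
  obtain ⟨haQ, tau, ht1, ht2, hw⟩ := ha
  refine ⟨tau, ht1, ht2, fun x hx y hy z hz => ?_⟩
  set P : ℕ := (4 ^ m) ^ (4 * D1) with hP
  have hJ : (0 : ℝ) < ((4 ^ m : ℕ) : ℝ) := by positivity
  have hP1 : 1 ≤ P := Nat.one_le_iff_ne_zero.2 (by positivity)
  have hPR : (1 : ℝ) ≤ (P : ℝ) := by exact_mod_cast hP1
  have hPJ : ((4 ^ m : ℕ) : ℝ) ≤ (P : ℝ) := by
    have : 4 ^ m ≤ P := by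
      rw [hP]
      exact Nat.le_self_pow (by omega) _
    exact_mod_cast this
  have hC : ((2 * k + 1) * k * L ^ (k - 1) : ℝ) ≤ P := by
    refine hm0.trans (le_trans ?_ hPJ)
    push_cast
    exact pow_le_pow_right₀ (by norm_num) hm
  have hδ : (1 / 2 : ℝ) ^ (2 * (4 * D1 * k + 1) * m) = 1 / ((P : ℝ) ^ k * ((4 ^ m : ℕ) : ℝ)) := by
    rw [hP]
    push_cast
    rw [one_div, inv_pow, one_div]
    congr 1
    rw [← pow_mul, ← pow_mul, ← pow_add, show (4:ℝ) = 2 ^ 2 by norm_num, ← pow_mul]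
    congr 1
    ring
  have hLr : (1 : ℝ) ≤ L := by
    have : 1 ≤ L := by omega
    exact_mod_cast this
  have hLP : (1 : ℝ) ≤ (L : ℝ) * P := by nlinarith
  -- all entries are at most L P
  set w : Fin (k + k + 1) → ℕ := Fin.snoc (Fin.append x y) z with hw'
  have hwLP : ∀ i, (w i : ℝ) ≤ (L : ℝ) * P := by
    have hxy : ∀ x ∈ Bx k P, ∀ i, x i ≤ L * P := by
      intro x hx i
      have h1 := (mem_Bx.1 hx i).2
      have h2 : 2 * (i : ℕ) + 2 ≤ L := by have := i.2; omega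
      exact h1.trans (Nat.mul_le_mul_right _ h2)
    intro i
    have h3 : w i ≤ L * P := by
      rw [hw']
      refine Fin.lastCases ?_ (fun i => ?_) i
      · rw [Fin.snoc_last]
        exact (Finset.mem_Ioc.1 hz).2
      · rw [Fin.snoc_castSucc]
        refine Fin.addCases (fun i => ?_) (fun i => ?_) i
        · rw [Fin.append_left]
          exact hxy x hx i
        · rw [Fin.append_right]
          exact hxy y hy i
    exact_mod_cast h3
  have h1 := hw w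
  have hs : ∀ a : Fin (k - 1) → ℝ, ∑ i, F k a (w i) = Ph k a x + Ph k a y + F k a z := fun a => by
    rw [hw']
    exact fat_sum k a x y z
  rw [← hs a']
  have hdiff : |∑ i, F k a (w i) - ∑ i, F k a' (w i)| ≤ 1 / ((4 ^ m : ℕ) : ℝ) := by
    rw [← Finset.sum_sub_distrib]
    refine (Finset.abs_sum_le_sum_abs _ _).trans ?_
    refine (Finset.sum_le_sum (fun i _ => fat_F k a a' _ ((L : ℝ) * P) (w i) (Nat.cast_nonneg _)
      (hwLP i) hLP (by positivity) hd)).trans ?_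
    rw [Finset.sum_const, Finset.card_univ, Fintype.card_fin, nsmul_eq_mul, hδ, mul_pow]
    have hPk : (P : ℝ) ^ k = (P : ℝ) ^ (k - 1) * P := by
      rw [← pow_succ]
      congr 1
      omega
    rw [hPk]
    push_cast
    have hPp : (0 : ℝ) < (P : ℝ) ^ (k - 1) := by positivity
    have hPp2 : (0 : ℝ) < (P : ℝ) := by linarith
    have e1 : ((k : ℝ) + k + 1) * (k * (1 / ((P : ℝ) ^ (k - 1) * P * 4 ^ m) * (L ^ (k - 1) * P ^ (k - 1)))) =
        ((2 * k + 1) * k * L ^ (k - 1)) / P * (1 / 4 ^ m) := by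
      field_simp
      ring
    rw [e1]
    have e2 : ((2 * k + 1) * k * L ^ (k - 1)) / (P : ℝ) ≤ 1 := by
      rw [div_le_one hPp2]
      exact hC
    have e3 : (0 : ℝ) < 1 / 4 ^ m := by positivity
    nlinarith
  have h2 : |∑ i, F k a (w i) - tau| ≤ |∑ i, F k a (w i) - ∑ i, F k a' (w i)| +
      |∑ i, F k a' (w i) - tau| := by
    have := abs_add_le (∑ i, F k a (w i) - ∑ i, F k a' (w i)) (∑ i, F k a' (w i) - tau)
    rwa [sub_add_sub_cancel] at this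
  have h3 : 2 / ((4 ^ m : ℕ) : ℝ) = 1 / ((4 ^ m : ℕ) : ℝ) + 1 / ((4 ^ m : ℕ) : ℝ) := by ring
  linarith

end Pool.H82.WP
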