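import Pool.Agent.H82.WP.Good
import Pool.Agent.H82.WP.DimAbs

/-!
# Module FINAL: assembly
-/

set_option autoImplicit false

namespace Pool.H82.WP

open Finset MeasureTheory Filter

/-- the exceptional polynomials -/
def Exc (k : ℕ) (c : ℝ) : Set (Fin (k - 1) → ℝ) :=
  {a | ¬ ∀ s : ℕ, 2 * k + 1 ≤ s → ∃ T0 : ℝ, ∀ tau : ℝ, T0 ≤ tau → ∃ w : Fin s → ℕ,
    |∑ i, F k a (w i) - tau| < tau ^ (-c)}

theorem dim_exc (k : ℕ) (hk : 2 ≤ k) : ∃ c : ℝ, 0 < c ∧ c < 1 ∧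
    dimH (Exc k c) ≤ ENNReal.ofReal ((k : ℝ) - 1 - c) := by
  obtain ⟨D1, hD1, hvol⟩ := bad_vol k hk
  have hD0 : (1 : ℝ) ≤ D1 := by exact_mod_cast hD1
  have hk0 : (2 : ℝ) ≤ k := by exact_mod_cast hk
  have hLL : 2 * k ≤ LL k D1 := by
    unfold LL
    have h1 : 1 ≤ 4 ^ (4 * D1) := Nat.one_le_pow _ _ (by norm_num)
    nlinarith [Nat.mul_le_mul (show 2 * k ≤ 16 * k ^ 2 by nlinarith) h1]
  set M : ℕ := 2 * (4 * D1 * k + 1) with hM
  have hM1 : 1 ≤ M := by omega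
  have hMr : (M : ℝ) = 2 * (4 * D1 * k + 1) := by rw [hM]; push_cast; ring
  -- dimension of each limsup set
  have hdim : ∀ A : ℕ, dimH {a | ∃ᶠ m in atTop, a ∈ BadT k (A + 1) (LL k D1) ((4 ^ m) ^ (4 * D1)) (4 ^ m)} ≤
      ENNReal.ofReal (((k - 1 : ℕ) : ℝ) - 1 / (2 * M)) := by
    intro A
    obtain ⟨C, m1, hC, hv⟩ := hvol (A + 1) (LL k D1) hLL
    obtain ⟨m2, hf⟩ := fat k (A + 1) (LL k D1) D1 hk hLL hD1
    refine dim_abs (k - 1) (A + 1) M (by omega) (by omega) hM1 _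
      (fun m => BadS k (A + 1) (LL k D1) ((4 ^ m) ^ (4 * D1)) (4 ^ m)) C (max m1 m2) ?_ ?_ ?_
    · intro m a ha
      exact ha.1
    · intro m hm a ha a' ha' hd
      exact hf m (le_trans (le_max_right _ _) hm) a ha a' ha' (by rw [← hM]; exact hd)
    · intro m hm
      exact hv m (le_trans (le_max_left _ _) hm)
  set c0 : ℝ := 1 / (8 * D1 * k) with hc0
  have hc0p : 0 < c0 := by rw [hc0]; positivity
  have hc01 : c0 ≤ 1 / 16 := by
    rw [hc0]
    apply one_div_le_one_div_of_le (by norm_num)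
    nlinarith
  refine ⟨min (c0 / 2) (1 / (2 * M)), by positivity, lt_of_le_of_lt (min_le_left _ _) (by linarith), ?_⟩
  set c : ℝ := min (c0 / 2) (1 / (2 * M)) with hc
  have hsub : Exc k c ⊆ ⋃ A : ℕ, {a | ∃ᶠ m in atTop,
      a ∈ BadT k (A + 1) (LL k D1) ((4 ^ m) ^ (4 * D1)) (4 ^ m)} := by
    intro a ha
    obtain ⟨A, hA⟩ : ∃ A : ℕ, ∀ j, |a j| ≤ A := by
      obtain ⟨A, hA⟩ := exists_nat_ge (∑ j, |a j|)
      exact ⟨A, fun j => (Finset.single_le_sum (fun i _ => abs_nonneg (a i)) (Finset.mem_univ j)).trans hA⟩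
    have haQ : a ∈ Q (k - 1) (A + 1) := by
      rw [mem_Q]
      intro j
      have := hA j
      push_cast
      linarith
    rw [Set.mem_iUnion]
    refine ⟨A, ?_⟩
    by_contra hcon
    apply ha
    intro s hs
    obtain ⟨T0, hT0⟩ := good_s k a c0 hc0p (good k (A + 1) D1 hk hD1 a haQ hcon) s hs
    refine ⟨max T0 1, fun tau htau => ?_⟩
    obtain ⟨w, hw⟩ := hT0 tau (le_trans (le_max_left _ _) htau)
    have h1 : 1 ≤ tau := le_trans (le_max_right _ _) htau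
    refine ⟨w, hw.trans_le ?_⟩
    apply Real.rpow_le_rpow_of_exponent_le h1
    have : c ≤ c0 / 2 := min_le_left _ _
    linarith
  refine (dimH_mono hsub).trans ?_
  rw [dimH_iUnion]
  refine iSup_le fun A => (hdim A).trans ?_
  apply ENNReal.ofReal_le_ofReal
  have h2 : c ≤ 1 / (2 * M) := min_le_right _ _
  have h3 : ((k - 1 : ℕ) : ℝ) = (k : ℝ) - 1 := by
    rw [Nat.cast_sub (by omega)]
    simp
  rw [h3]
  linarith

end Pool.H82.WP
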