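import Pool.Agent.H82.WP.Fat

/-!
# Module GOOD: from the scales to all large targets

Proof of `good`. Let P_m = (4^m)^(4 D1), so P_m^k = G^m with G = 4^(4 D1 k) >= 2. Let a be in Q (k-1) A, and in only
finitely many BadT (m >= m1 are fine). L = 16 k^2 4^(4 D1): A1 k * G <= A2 k L, because
A2 = (16 k^2)^k G/2 and (16k^2)^k/2 = (8k)^k (2k)^k/2 >= 2(2k+1)(2k)^k = A1 (as (8k)^k >= (8k)^2 >= 8k+4, k >= 2).
Given τ >= A1 G^(m1'), m1' large: there is m >= m1' with A1 G^m <= τ < A1 G^(m+1) <= A2 G^m (e.g. `exists_nat_pow_near`), so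
there is w : Fin (k+k+1) → ℕ with |∑F(w_i) - τ| < 2/4^m. With c0 = 1/(8 D1 k): τ^(c0) <= (A2 G^m)^(c0) = A2^(c0) 2^m
(G^(c0) = 4^(1/2) = 2) <= 4^m/2 for m large, so 2/4^m <= τ^(-c0).
Proof of `good_s`. s = (k+k+1) + r. Apply `good` to τ' = τ - r F(1) and append r entries 1: the sum is
∑F(w_i) + r F(1). |..| < τ'^(-c0) <= τ^(-c0/2) as soon as τ' >= sqrt τ, true for τ large.
-/

set_option autoImplicit false

namespace Pool.H82.WP

open Finset MeasureTheory Filter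

/-- the constant L used in the assembly -/
def LL (k D1 : ℕ) : ℕ := 16 * k ^ 2 * 4 ^ (4 * D1)

theorem good_A (k D1 : ℕ) (hk : 2 ≤ k) :
    A1 k * (4 : ℝ) ^ (4 * D1 * k) ≤ A2 k (LL k D1) := by
  have hkr : (2 : ℝ) ≤ k := by exact_mod_cast hk
  have e1 : A2 k (LL k D1) = ((8 * k : ℝ) ^ k / 2) * (2 * k : ℝ) ^ k * (4 : ℝ) ^ (4 * D1 * k) := by
    unfold A2 LL
    push_cast
    rw [mul_pow, ← pow_mul, show (16 * (k : ℝ) ^ 2) = (8 * k) * (2 * k) by ring, mul_pow]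
    ring
  rw [e1]
  refine mul_le_mul_of_nonneg_right ?_ (by positivity)
  unfold A1
  refine mul_le_mul_of_nonneg_right ?_ (by positivity)
  have h1 : (8 * k : ℝ) ^ 2 ≤ (8 * k : ℝ) ^ k := pow_le_pow_right₀ (by linarith) hk
  nlinarith

theorem good (k A D1 : ℕ) (hk : 2 ≤ k) (hD : 1 ≤ D1) (a : Fin (k - 1) → ℝ) (ha : a ∈ Q (k - 1) A)
    (hg : ¬ ∃ᶠ m in atTop, a ∈ BadT k A (LL k D1) ((4 ^ m) ^ (4 * D1)) (4 ^ m)) :
    ∃ T0 : ℝ, ∀ tau : ℝ, T0 ≤ tau → ∃ w : Fin (k + k + 1) → ℕ,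
      |∑ i, F k a (w i) - tau| < tau ^ (-(1 / (8 * D1 * k) : ℝ)) := by
  rw [Filter.not_frequently, Filter.eventually_atTop] at hg
  obtain ⟨m1, hm1⟩ := hg
  have hkr : (2 : ℝ) ≤ k := by exact_mod_cast hk
  have hDr : (1 : ℝ) ≤ D1 := by exact_mod_cast hD
  set N : ℕ := 8 * D1 * k with hN
  have hN0 : N ≠ 0 := by positivity
  set G : ℝ := (4 : ℝ) ^ (4 * D1 * k) with hG
  have hG1 : 1 < G := one_lt_pow₀ (by norm_num) (by positivity)
  have hA1 : 0 < A1 k := by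
    unfold A1
    positivity
  have hA12 := good_A k D1 hk
  rw [← hG] at hA12
  have hA2 : 0 < A2 k (LL k D1) := lt_of_lt_of_le (by positivity) hA12
  set c0 : ℝ := (N : ℝ)⁻¹ with hc0
  have hc0' : (1 / (8 * D1 * k) : ℝ) = c0 := by
    rw [hc0, hN]
    push_cast
    rw [one_div]
  have hc0pos : 0 < c0 := by
    rw [hc0]
    positivity
  obtain ⟨m2, hm2⟩ : ∃ m2 : ℕ, 2 * (A2 k (LL k D1)) ^ c0 ≤ (2 : ℝ) ^ m2 := by
    obtain ⟨n, hn⟩ := pow_unbounded_of_one_lt (2 * (A2 k (LL k D1)) ^ c0) (by norm_num : (1:ℝ) < 2)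
    exact ⟨n, hn.le⟩
  set m3 := max m1 m2 with hm3
  refine ⟨A1 k * G ^ m3, fun tau htau => ?_⟩
  have hGm3 : 1 ≤ G ^ m3 := one_le_pow₀ hG1.le
  have htau0 : 0 < tau := lt_of_lt_of_le (by positivity) htau
  have hx : G ^ m3 ≤ tau / A1 k := by
    rw [le_div_iff₀ hA1]
    linarith
  obtain ⟨m, hm4, hm5⟩ := exists_nat_pow_near (hGm3.trans hx) hG1
  have hm6 : m3 ≤ m := by
    have := hx.trans_lt hm5
    have := (pow_lt_pow_iff_right₀ hG1).1 this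
    omega
  have hP : ((((4 ^ m) ^ (4 * D1) : ℕ) : ℝ)) ^ k = G ^ m := by
    push_cast
    rw [hG, ← pow_mul, ← pow_mul, ← pow_mul]
    congr 1
    ring
  have h1 := hm1 m (le_trans (le_max_left _ _) hm6)
  have ht1 : A1 k * ((((4 ^ m) ^ (4 * D1) : ℕ) : ℝ)) ^ k ≤ tau := by
    rw [hP]
    rw [le_div_iff₀ hA1] at hm4
    linarith
  have ht2 : tau ≤ A2 k (LL k D1) * ((((4 ^ m) ^ (4 * D1) : ℕ) : ℝ)) ^ k := by
    rw [hP]
    rw [div_lt_iff₀ hA1, pow_succ] at hm5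
    have : A1 k * G * G ^ m ≤ A2 k (LL k D1) * G ^ m :=
      mul_le_mul_of_nonneg_right hA12 (by positivity)
    nlinarith
  have h2 : ∃ w : Fin (k + k + 1) → ℕ, |∑ i, F k a (w i) - tau| < 2 / ((4 ^ m : ℕ) : ℝ) := by
    by_contra hcon
    push Not at hcon
    exact h1 ⟨ha, tau, ht1, ht2, hcon⟩
  obtain ⟨w, hw⟩ := h2
  refine ⟨w, hw.trans_le ?_⟩
  rw [hc0', Real.rpow_neg htau0.le]
  have h3 : tau ^ c0 ≤ (4 : ℝ) ^ m / 2 := by
    have h4 : tau ^ c0 ≤ (A2 k (LL k D1) * G ^ m) ^ c0 := by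
      rw [hP] at ht2
      exact Real.rpow_le_rpow htau0.le ht2 hc0pos.le
    have h5 : (A2 k (LL k D1) * G ^ m) ^ c0 = (A2 k (LL k D1)) ^ c0 * 2 ^ m := by
      rw [Real.mul_rpow hA2.le (by positivity)]
      congr 1
      have : G ^ m = ((2 : ℝ) ^ m) ^ N := by
        rw [hG, hN, ← pow_mul, ← pow_mul, show (4:ℝ) = 2 ^ 2 by norm_num, ← pow_mul]
        congr 1
        ring
      rw [this, hc0, Real.pow_rpow_inv_natCast (by positivity) hN0]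
    have h6 : (2 : ℝ) ^ m2 ≤ 2 ^ m :=
      pow_le_pow_right₀ (by norm_num) (le_trans (le_max_right _ _) hm6)
    have h7 : (4 : ℝ) ^ m = 2 ^ m * 2 ^ m := by
      rw [← mul_pow]
      norm_num
    rw [h5] at h4
    refine h4.trans ?_
    rw [h7]
    have h8 : 0 < (2 : ℝ) ^ m := by positivity
    nlinarith
  have h9 : 0 < tau ^ c0 := Real.rpow_pos_of_pos htau0 _
  push_cast
  rw [← one_div, div_le_div_iff₀ (by positivity) h9]
  linarith

theorem good_s (k : ℕ) (a : Fin (k - 1) → ℝ) (c0 : ℝ) (hc0 : 0 < c0)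
    (h : ∃ T0 : ℝ, ∀ tau : ℝ, T0 ≤ tau → ∃ w : Fin (k + k + 1) → ℕ,
      |∑ i, F k a (w i) - tau| < tau ^ (-c0)) (s : ℕ) (hs : 2 * k + 1 ≤ s) :
    ∃ T0 : ℝ, ∀ tau : ℝ, T0 ≤ tau → ∃ w : Fin s → ℕ,
      |∑ i, F k a (w i) - tau| < tau ^ (-(c0 / 2)) := by
  obtain ⟨T0, hT0⟩ := h
  obtain ⟨r, rfl⟩ : ∃ r, s = (k + k + 1) + r := ⟨s - (k + k + 1), by omega⟩
  set c : ℝ := (r : ℝ) * F k a ((1 : ℕ) : ℝ) with hc
  refine ⟨4 + 2 * |T0| + 2 * |c|, fun tau htau => ?_⟩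
  have hT := le_abs_self T0
  have hcc := le_abs_self c
  have hT' := abs_nonneg T0
  have hcc' := abs_nonneg c
  have htau4 : 4 ≤ tau := by linarith
  have hsq : Real.sqrt tau ≤ tau / 2 := by
    rw [Real.sqrt_le_left (by linarith)]
    nlinarith
  have hsq0 : 0 < Real.sqrt tau := Real.sqrt_pos.2 (by linarith)
  obtain ⟨w, hw⟩ := hT0 (tau - c) (by linarith)
  refine ⟨Fin.append w (fun _ => 1), ?_⟩
  rw [Fin.sum_univ_add]
  simp only [Fin.append_left, Fin.append_right]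
  rw [Finset.sum_const, Finset.card_univ, Fintype.card_fin, nsmul_eq_mul, ← hc]
  have e1 : ∑ i, F k a (w i) + c - tau = ∑ i, F k a (w i) - (tau - c) := by ring
  rw [e1]
  refine hw.trans_le ?_
  have h1 : (tau - c) ^ (-c0) ≤ (Real.sqrt tau) ^ (-c0) :=
    Real.rpow_le_rpow_of_nonpos hsq0 (by linarith) (by linarith)
  refine h1.trans (le_of_eq ?_)
  rw [Real.sqrt_eq_rpow, ← Real.rpow_mul (by linarith)]
  congr 1
  ring

end Pool.H82.WP
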