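import Pool.Agent.H82.WP.ArcNear

/-!
# Module NET: a finite net of frequencies, independent of the polynomial

Proof of `net`. Aw from `arc_near`. Let X = (L J^5)^Aw (natural number), K! = k!. J0 is chosen large in terms of
k, A, L, c1, Aw. Let
N = {p/(q k!) + j/(P^k J^6) : q in Icc 1 X, p in Icc (-Y) Y, j in Icc (-Z) Z (integers)}, filtered by
 1/(4 k! X) <= |s|, where Y = 2 k! X J^3, Z = 2 X J^6. Cardinality <= X (2Y+1)(2Z+1) <= X (5 k! X J^3)(5 X J^6)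
= 25 k! X^3 J^9 = 25 k! L^(3Aw) J^(15Aw+9).
On N: 1 <= 4 k! X |s| = 4 k! L^Aw J^(5Aw) |s|. So C = max(25 k! L^(3Aw), 4 k! L^Aw).
Covering: let a in Q, t with c1/P^(k-1) <= |t| <= J^3 and P/J^5 <= ‖T(t)‖. X <= L P because P >= J^(6Aw+1) and
J >= L^Aw. `arc_near` gives q, p with |q k! t - p| <= X/P^k. p ≠ 0: otherwise c1/P^(k-1) <= |t| <= |q k! t| <= X/P^k,
c1 P <= X = L^Aw J^(5Aw), false for P >= J^(6Aw+1), J^(Aw+1) >= J > L^Aw/c1 (J0 large).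
|p| <= q k!|t| + 1 <= X k! J^3 + 1 <= Y. Put θ = t - p/(q k!), |θ| <= X/P^k, j = floor(θ P^k J^6), |j| <= X J^6 + 1 <= Z,
s = p/(q k!) + j/(P^k J^6), so |t - s| <= 1/(P^k J^6). Lower bound: |p/(q k!)| >= 1/(k! X) and
|s - p/(q k!)| <= |θ| + 1/(P^k J^6) <= 2X/P^k <= 1/(2 k! X) since P^k >= P^2 >= J^(12Aw+2) >= 4 k! L^(2Aw) J^(10Aw).
(k >= 2.) So |s| >= 1/(2 k! X).
Lipschitz: |T(t) - T(s)| <= ∑_{P<x<=LP} 2π |t-s| |F(x)| <= 2π |t-s| L P (1 + kA)(LP)^k <= C' P/J^6 <= P/(2 J^5) for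
J >= 2C', C' = 2π (1+kA) L^(k+1) (|F(x)| <= x^k + ∑ A x^(j+1) <= (1+kA) x^k for x >= 1; |e(u) - e(v)| <= 2π|u-v|:
reuse `Pool.Agent.H26.LDP.norm_one_sub_e_le` with n = 0 and e_add, `e_eq_e`).
Hence ‖T(s)‖ >= P/J^5 - P/(2J^5).
-/

set_option autoImplicit false

namespace Pool.H82.WP

open Finset

private theorem net_e (u v : ℝ) :
    ‖Pool.H19.Wa.e u - Pool.H19.Wa.e v‖ ≤ 2 * Real.pi * |u - v| := by
  have h1 : Pool.H19.Wa.e v = Pool.H19.Wa.e u * Pool.H19.Wa.e (v - u) := by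
    rw [← Pool.H19.Wa.e_add]
    congr 1
    ring
  have h2 := Pool.Agent.H26.LDP.norm_one_sub_e_le (v - u) 0
  rw [e_eq_e] at h2
  have h3 : Pool.H19.Wa.e u - Pool.H19.Wa.e v = Pool.H19.Wa.e u * (1 - Pool.H19.Wa.e (v - u)) := by
    rw [h1]
    ring
  rw [h3, norm_mul, Pool.H19.Wa.norm_e, one_mul]
  refine h2.trans (le_of_eq ?_)
  rw [Int.cast_zero, sub_zero, abs_sub_comm]

private theorem net_F (k A M : ℕ) (hM : 1 ≤ M) {a : Fin (k - 1) → ℝ}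
    (ha : a ∈ Q (k - 1) A) {x : ℕ} (hx : x ≤ M) :
    |F k a x| ≤ (1 + k * A) * (M : ℝ) ^ k := by
  have hx' : (x : ℝ) ≤ M := by exact_mod_cast hx
  have hM' : (1 : ℝ) ≤ M := by exact_mod_cast hM
  have h0 : (0 : ℝ) ≤ x := Nat.cast_nonneg x
  have h1 : |(x : ℝ) ^ k| ≤ (M : ℝ) ^ k := by
    rw [abs_of_nonneg (by positivity)]
    gcongr
  have h2 : |∑ j : Fin (k - 1), a j * (x : ℝ) ^ ((j : ℕ) + 1)| ≤
      ∑ _j : Fin (k - 1), (A : ℝ) * (M : ℝ) ^ k := by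
    refine (abs_sum_le_sum_abs _ _).trans (sum_le_sum fun j _ => ?_)
    rw [abs_mul]
    have hj : (j : ℕ) + 1 ≤ k := by
      have := j.2
      omega
    have h3 : |(x : ℝ) ^ ((j : ℕ) + 1)| ≤ (M : ℝ) ^ k := by
      rw [abs_of_nonneg (by positivity)]
      calc (x : ℝ) ^ ((j : ℕ) + 1) ≤ (M : ℝ) ^ ((j : ℕ) + 1) := by gcongr
        _ ≤ (M : ℝ) ^ k := pow_le_pow_right₀ hM' hj
    exact mul_le_mul (mem_Q.1 ha j) h3 (abs_nonneg _) (Nat.cast_nonneg A)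
  rw [sum_const, card_univ, Fintype.card_fin, nsmul_eq_mul] at h2
  have h3 : ((k - 1 : ℕ) : ℝ) ≤ k := by exact_mod_cast Nat.sub_le k 1
  have h4 : ((k - 1 : ℕ) : ℝ) * ((A : ℝ) * (M : ℝ) ^ k) ≤ k * ((A : ℝ) * (M : ℝ) ^ k) :=
    mul_le_mul_of_nonneg_right h3 (by positivity)
  unfold F
  calc |(x : ℝ) ^ k + ∑ j : Fin (k - 1), a j * (x : ℝ) ^ ((j : ℕ) + 1)|
      ≤ |(x : ℝ) ^ k| + |∑ j : Fin (k - 1), a j * (x : ℝ) ^ ((j : ℕ) + 1)| := abs_add_le _ _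
    _ ≤ (M : ℝ) ^ k + k * ((A : ℝ) * (M : ℝ) ^ k) := add_le_add h1 (h2.trans h4)
    _ = (1 + k * A) * (M : ℝ) ^ k := by ring

private theorem net_lip (k A P M : ℕ) (hM : 1 ≤ M) {a : Fin (k - 1) → ℝ}
    (ha : a ∈ Q (k - 1) A) (t s : ℝ) :
    ‖T k a P M t - T k a P M s‖ ≤
      2 * Real.pi * |t - s| * ((M : ℝ) * ((1 + k * A) * (M : ℝ) ^ k)) := by
  have hpi := Real.pi_pos
  unfold T
  rw [← sum_sub_distrib]
  refine (norm_sum_le _ _).trans ?_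
  have h1 : ∀ x ∈ Ioc P M, ‖Pool.H19.Wa.e (t * F k a x) - Pool.H19.Wa.e (s * F k a x)‖ ≤
      2 * Real.pi * |t - s| * ((1 + k * A) * (M : ℝ) ^ k) := by
    intro x hx
    refine (net_e _ _).trans ?_
    rw [← sub_mul, abs_mul, ← mul_assoc]
    exact mul_le_mul_of_nonneg_left (net_F k A M hM ha (mem_Ioc.1 hx).2) (by positivity)
  refine (sum_le_sum h1).trans ?_
  rw [sum_const, nsmul_eq_mul, Nat.card_Ioc]
  have h2 : ((M - P : ℕ) : ℝ) ≤ M := by exact_mod_cast Nat.sub_le _ _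
  calc ((M - P : ℕ) : ℝ) * (2 * Real.pi * |t - s| * ((1 + k * A) * (M : ℝ) ^ k))
      ≤ (M : ℝ) * (2 * Real.pi * |t - s| * ((1 + k * A) * (M : ℝ) ^ k)) :=
        mul_le_mul_of_nonneg_right h2 (by positivity)
    _ = _ := by ring

/-- the net -/
private noncomputable def netN (kf X Y Z : ℕ) (W : ℝ) : Finset ℝ := by
  classical
  exact (((Icc 1 X) ×ˢ ((Icc (-(Y : ℤ)) Y) ×ˢ (Icc (-(Z : ℤ)) Z))).image
    (fun x : ℕ × (ℤ × ℤ) => (x.2.1 : ℝ) / ((x.1 : ℝ) * kf) + (x.2.2 : ℝ) / W)).filter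
    (fun s => 1 ≤ 4 * kf * X * |s|)

private theorem netN_card (kf X Y Z : ℕ) (W : ℝ) :
    (netN kf X Y Z W).card ≤ X * ((2 * Y + 1) * (2 * Z + 1)) := by
  classical
  unfold netN
  refine (card_filter_le _ _).trans (card_image_le.trans (le_of_eq ?_))
  rw [card_product, card_product, Nat.card_Icc, Int.card_Icc, Int.card_Icc]
  have h1 : ((Y : ℤ) + 1 - -(Y : ℤ)).toNat = 2 * Y + 1 := by omega
  have h2 : ((Z : ℤ) + 1 - -(Z : ℤ)).toNat = 2 * Z + 1 := by omega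
  rw [h1, h2, Nat.add_sub_cancel]

private theorem mem_netN {kf X Y Z : ℕ} {W : ℝ} {s : ℝ} :
    s ∈ netN kf X Y Z W ↔ (∃ (q : ℕ) (p j : ℤ), (1 ≤ q ∧ q ≤ X) ∧ |p| ≤ Y ∧ |j| ≤ Z ∧
      (p : ℝ) / ((q : ℝ) * kf) + (j : ℝ) / W = s) ∧ 1 ≤ 4 * kf * X * |s| := by
  classical
  unfold netN
  rw [mem_filter, mem_image]
  constructor
  · rintro ⟨⟨⟨q, p, j⟩, hx, rfl⟩, h⟩
    rw [mem_product, mem_product, mem_Icc, mem_Icc, mem_Icc] at hx
    exact ⟨⟨q, p, j, hx.1, abs_le.2 hx.2.1, abs_le.2 hx.2.2, rfl⟩, h⟩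
  · rintro ⟨⟨q, p, j, h1, h2, h3, rfl⟩, h⟩
    refine ⟨⟨(q, p, j), ?_, rfl⟩, h⟩
    rw [mem_product, mem_product, mem_Icc, mem_Icc, mem_Icc]
    exact ⟨h1, abs_le.1 h2, abs_le.1 h3⟩

/-- approximation of a frequency -/
private theorem net_approx {kf X P J k : ℕ} {t c1 : ℝ} (hk : 2 ≤ k) (hkf : 1 ≤ kf) (hX : 1 ≤ X)
    (hXP : X ≤ P) (hJ : 1 ≤ J) (hc : (X : ℝ) < c1 * P) (hP2 : 4 * kf * X ^ 2 ≤ P ^ 2)
    (h1 : c1 / (P : ℝ) ^ (k - 1) ≤ |t|) (h2 : |t| ≤ (J : ℝ) ^ 3)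
    (hq : ∃ q : ℕ, 1 ≤ q ∧ q ≤ X ∧ ∃ p : ℤ,
      |(q : ℝ) * (kf : ℝ) * t - p| ≤ (X : ℝ) / (P : ℝ) ^ k) :
    ∃ s ∈ netN kf X (2 * kf * X * J ^ 3) (2 * X * J ^ 6) ((P : ℝ) ^ k * (J : ℝ) ^ 6),
      |t - s| ≤ 1 / ((P : ℝ) ^ k * (J : ℝ) ^ 6) := by
  obtain ⟨q, hq1, hqX, p, hp⟩ := hq
  have hP1 : 1 ≤ P := hX.trans hXP
  have rP : (1 : ℝ) ≤ P := by exact_mod_cast hP1
  have rP0 : (0 : ℝ) < P := by linarith
  have rX : (1 : ℝ) ≤ X := by exact_mod_cast hX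
  have rXP : (X : ℝ) ≤ P := by exact_mod_cast hXP
  have rkf : (1 : ℝ) ≤ kf := by exact_mod_cast hkf
  have rJ : (1 : ℝ) ≤ J := by exact_mod_cast hJ
  have rq : (1 : ℝ) ≤ q := by exact_mod_cast hq1
  have rqX : (q : ℝ) ≤ X := by exact_mod_cast hqX
  have hPk0 : (0 : ℝ) < (P : ℝ) ^ k := by positivity
  have hPk1 : (P : ℝ) ≤ (P : ℝ) ^ k := by
    calc (P : ℝ) = (P : ℝ) ^ 1 := (pow_one _).symm
      _ ≤ (P : ℝ) ^ k := pow_le_pow_right₀ rP (by omega)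
  have hPk2 : (P : ℝ) ^ 2 ≤ (P : ℝ) ^ k := pow_le_pow_right₀ rP hk
  have rP2 : 4 * (kf : ℝ) * (X : ℝ) ^ 2 ≤ (P : ℝ) ^ 2 := by exact_mod_cast hP2
  set D : ℝ := (q : ℝ) * kf with hD
  have hD1 : 1 ≤ D := one_le_mul_of_one_le_of_one_le rq rkf
  have hDX : D ≤ X * kf := mul_le_mul_of_nonneg_right rqX (by linarith)
  have hD0 : 0 < D := by linarith
  have hXPk : (X : ℝ) / (P : ℝ) ^ k ≤ 1 := by
    rw [div_le_one hPk0]
    linarith
  -- p is not zero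
  have hp0 : p ≠ 0 := by
    intro h0
    rw [h0, Int.cast_zero, sub_zero, abs_mul, abs_of_pos hD0] at hp
    have h3 : |t| ≤ D * |t| := le_mul_of_one_le_left (abs_nonneg _) hD1
    have h4 : c1 / (P : ℝ) ^ (k - 1) ≤ X / (P : ℝ) ^ k := h1.trans (h3.trans hp)
    have h5 : (P : ℝ) ^ k = (P : ℝ) ^ (k - 1) * P := by
      rw [← pow_succ, Nat.sub_add_cancel (by omega)]
    rw [h5, div_le_div_iff₀ (by positivity) (by positivity)] at h4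
    have h6 : 0 < (P : ℝ) ^ (k - 1) := by positivity
    have h7 : c1 * P * (P : ℝ) ^ (k - 1) ≤ X * (P : ℝ) ^ (k - 1) := by
      calc c1 * P * (P : ℝ) ^ (k - 1) = c1 * ((P : ℝ) ^ (k - 1) * P) := by ring
        _ ≤ X * (P : ℝ) ^ (k - 1) := h4
    exact absurd (le_of_mul_le_mul_right h7 h6) (not_le.2 hc)
  -- size of p
  have hpY : |(p : ℝ)| ≤ 2 * kf * X * (J : ℝ) ^ 3 := by
    have h3 : |(p : ℝ)| ≤ |D * t| + |D * t - p| := by
      have : (p : ℝ) = D * t - (D * t - p) := by ring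
      conv_lhs => rw [this]
      exact abs_sub _ _
    have h4 : |D * t| ≤ X * kf * (J : ℝ) ^ 3 := by
      rw [abs_mul, abs_of_pos hD0]
      exact mul_le_mul hDX h2 (abs_nonneg _) (by positivity)
    have h5 : 1 ≤ X * kf * (J : ℝ) ^ 3 :=
      one_le_mul_of_one_le_of_one_le (one_le_mul_of_one_le_of_one_le rX rkf) (one_le_pow₀ rJ)
    linarith
  -- the offset
  set W : ℝ := (P : ℝ) ^ k * (J : ℝ) ^ 6 with hW
  have hJ6 : (1 : ℝ) ≤ (J : ℝ) ^ 6 := one_le_pow₀ rJ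
  have hW0 : 0 < W := by positivity
  set θ : ℝ := t - p / D with hθ
  have hθ1 : |θ| ≤ X / (P : ℝ) ^ k := by
    have h3 : θ = (D * t - p) / D := by
      rw [hθ]
      field_simp
    rw [h3, abs_div, abs_of_pos hD0]
    exact (div_le_self (abs_nonneg _) hD1).trans hp
  have hθ2 : |θ * W| ≤ X * (J : ℝ) ^ 6 := by
    rw [abs_mul, abs_of_pos hW0, hW]
    calc |θ| * ((P : ℝ) ^ k * (J : ℝ) ^ 6) ≤ X / (P : ℝ) ^ k * ((P : ℝ) ^ k * (J : ℝ) ^ 6) :=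
          mul_le_mul_of_nonneg_right hθ1 hW0.le
      _ = X * (J : ℝ) ^ 6 := by
          field_simp
  have hj1 := Int.floor_le (θ * W)
  have hj2 := Int.lt_floor_add_one (θ * W)
  set j : ℤ := ⌊θ * W⌋ with hj
  have hjb : |(j : ℝ)| ≤ X * (J : ℝ) ^ 6 + 1 := by
    obtain ⟨g1, g2⟩ := abs_le.1 hθ2
    rw [abs_le]
    constructor <;> linarith
  have hXJ : 1 ≤ X * (J : ℝ) ^ 6 := one_le_mul_of_one_le_of_one_le rX hJ6
  refine ⟨p / D + j / W, ?_, ?_⟩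
  · rw [mem_netN]
    refine ⟨⟨q, p, j, ⟨hq1, hqX⟩, ?_, ?_, rfl⟩, ?_⟩
    · have h3 : ((|p| : ℤ) : ℝ) ≤ (((2 * kf * X * J ^ 3 : ℕ) : ℤ) : ℝ) := by
        push_cast
        exact hpY
      exact_mod_cast h3
    · have h3 : ((|j| : ℤ) : ℝ) ≤ (((2 * X * J ^ 6 : ℕ) : ℤ) : ℝ) := by
        push_cast
        linarith
      exact_mod_cast h3
    · have h3 : 1 / D ≤ |(p : ℝ) / D| := by
        rw [abs_div, abs_of_pos hD0]
        have h4 : (1 : ℝ) ≤ |(p : ℝ)| := by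
          have : (1 : ℤ) ≤ |p| := Int.one_le_abs hp0
          exact_mod_cast this
        gcongr
      have h4 : 1 / (X * kf : ℝ) ≤ 1 / D := one_div_le_one_div_of_le hD0 hDX
      have h5 : |(j : ℝ) / W| ≤ 2 * X / (P : ℝ) ^ 2 := by
        rw [abs_div, abs_of_pos hW0, div_le_div_iff₀ hW0 (by positivity)]
        have h6 : |(j : ℝ)| ≤ 2 * X * (J : ℝ) ^ 6 := by linarith
        calc |(j : ℝ)| * (P : ℝ) ^ 2 ≤ 2 * X * (J : ℝ) ^ 6 * (P : ℝ) ^ k :=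
              mul_le_mul h6 hPk2 (by positivity) (by positivity)
          _ = 2 * X * W := by
              rw [hW]
              ring
      have h6 : 2 * (X : ℝ) / (P : ℝ) ^ 2 ≤ 1 / (2 * (X * kf : ℝ)) := by
        rw [div_le_div_iff₀ (by positivity) (by positivity)]
        calc 2 * (X : ℝ) * (2 * (X * kf)) = 4 * kf * (X : ℝ) ^ 2 := by ring
          _ ≤ (P : ℝ) ^ 2 := rP2
          _ = 1 * (P : ℝ) ^ 2 := (one_mul _).symm
      have h7 : |(p : ℝ) / D| ≤ |(p : ℝ) / D + j / W| + |(j : ℝ) / W| := by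
        have : (p : ℝ) / D = (p / D + j / W) - j / W := by ring
        conv_lhs => rw [this]
        exact abs_sub _ _
      have h8 : 1 / (2 * (X * kf : ℝ)) ≤ |(p : ℝ) / D + j / W| := by
        have h9 : 1 / (X * kf : ℝ) = 1 / (2 * (X * kf : ℝ)) + 1 / (2 * (X * kf : ℝ)) := by
          field_simp
          norm_num
        linarith
      have hXk0 : (0 : ℝ) < X * kf := by positivity
      calc (1 : ℝ) ≤ 2 := by norm_num
        _ = 4 * kf * X * (1 / (2 * (X * kf))) := by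
            field_simp
            norm_num
        _ ≤ 4 * kf * X * |(p : ℝ) / D + j / W| := mul_le_mul_of_nonneg_left h8 (by positivity)
  · have h3 : t - (p / D + j / W) = (θ * W - j) / W := by
      rw [hθ]
      field_simp
      ring
    rw [h3, abs_div, abs_of_pos hW0]
    gcongr
    rw [abs_le]
    constructor <;> linarith

theorem net (k : ℕ) (hk : 2 ≤ k) : ∃ Aw : ℕ, 1 ≤ Aw ∧ ∀ (A L : ℕ) (c1 : ℝ), 1 ≤ L → 0 < c1 →
    ∃ (C : ℝ) (J0 : ℕ), 0 < C ∧ ∀ J P : ℕ, J0 ≤ J → J ^ (6 * Aw + 1) ≤ P →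
    ∃ N : Finset ℝ, (N.card : ℝ) ≤ C * (J : ℝ) ^ (15 * Aw + 9) ∧
      (∀ s ∈ N, 1 ≤ C * (J : ℝ) ^ (5 * Aw) * |s|) ∧
      ∀ a ∈ Q (k - 1) A, (∃ t : ℝ, c1 / (P : ℝ) ^ (k - 1) ≤ |t| ∧ |t| ≤ (J : ℝ) ^ 3 ∧
          (P : ℝ) / (J : ℝ) ^ 5 ≤ ‖T k a P (L * P) t‖) →
        ∃ s ∈ N, (P : ℝ) / (2 * (J : ℝ) ^ 5) ≤ ‖T k a P (L * P) s‖ := by
  obtain ⟨Aw, hAw, harc⟩ := arc_near k (by omega)
  refine ⟨Aw, hAw, fun A L c1 hL hc1 => ?_⟩
  have hpi := Real.pi_pos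
  have hkf : 1 ≤ k.factorial := Nat.factorial_pos k
  set kf := k.factorial with hkfd
  set C' : ℝ := 2 * Real.pi * (1 + k * A) * (L : ℝ) ^ (k + 1) with hC'
  refine ⟨25 * kf * (L : ℝ) ^ (3 * Aw), 2 + L ^ Aw + (⌈(L : ℝ) ^ Aw / c1⌉₊ + 1) +
    4 * kf * L ^ (2 * Aw) + ⌈2 * C'⌉₊, by positivity, ?_⟩
  intro J P hJ0 hP
  have hL' : 0 < L := hL
  have rL : (1 : ℝ) ≤ L := by exact_mod_cast hL
  have hLA : 1 ≤ L ^ Aw := Nat.one_le_pow _ _ hL'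
  have hJ2 : 2 ≤ J := by
    refine le_trans ?_ hJ0
    omega
  have hJ1 : 1 ≤ J := by omega
  have hJL : L ^ Aw ≤ J := by
    refine le_trans ?_ hJ0
    omega
  have hJk : 4 * kf * L ^ (2 * Aw) ≤ J := by
    refine le_trans ?_ hJ0
    omega
  have hJc : (L : ℝ) ^ Aw < c1 * J := by
    have h1 : ⌈(L : ℝ) ^ Aw / c1⌉₊ + 1 ≤ J := by
      refine le_trans ?_ hJ0
      omega
    have h2 : (L : ℝ) ^ Aw / c1 < J := by
      calc (L : ℝ) ^ Aw / c1 ≤ (⌈(L : ℝ) ^ Aw / c1⌉₊ : ℝ) := Nat.le_ceil _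
        _ < (⌈(L : ℝ) ^ Aw / c1⌉₊ : ℝ) + 1 := lt_add_one _
        _ ≤ J := by exact_mod_cast h1
    rw [div_lt_iff₀ hc1] at h2
    linarith
  have hJC : 2 * C' ≤ J := by
    have h1 : ⌈2 * C'⌉₊ ≤ J := by
      refine le_trans ?_ hJ0
      omega
    exact (Nat.le_ceil _).trans (by exact_mod_cast h1)
  have rJ : (1 : ℝ) ≤ J := by exact_mod_cast hJ1
  have rJ0 : (0 : ℝ) < J := by linarith
  set X : ℕ := (L * J ^ 5) ^ Aw with hX
  have hXe : X = L ^ Aw * J ^ (5 * Aw) := by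
    rw [hX, mul_pow, ← pow_mul]
  have hX1 : 1 ≤ X := Nat.one_le_pow _ _ (by positivity)
  have rXe : (X : ℝ) = (L : ℝ) ^ Aw * (J : ℝ) ^ (5 * Aw) := by
    rw [hXe]
    push_cast
    ring
  have hXP : X ≤ P := by
    calc X = L ^ Aw * J ^ (5 * Aw) := hXe
      _ ≤ J * J ^ (5 * Aw) := Nat.mul_le_mul_right _ hJL
      _ = J ^ (5 * Aw + 1) := by ring
      _ ≤ J ^ (6 * Aw + 1) := Nat.pow_le_pow_right hJ1 (by omega)
      _ ≤ P := hP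
  have rP6 : (J : ℝ) ^ (6 * Aw + 1) ≤ P := by exact_mod_cast hP
  have hcX : (X : ℝ) < c1 * P := by
    calc (X : ℝ) = (L : ℝ) ^ Aw * (J : ℝ) ^ (5 * Aw) := rXe
      _ < c1 * J * (J : ℝ) ^ (5 * Aw) := mul_lt_mul_of_pos_right hJc (by positivity)
      _ = c1 * (J : ℝ) ^ (5 * Aw + 1) := by ring
      _ ≤ c1 * (J : ℝ) ^ (6 * Aw + 1) :=
          mul_le_mul_of_nonneg_left (pow_le_pow_right₀ rJ (by omega)) hc1.le
      _ ≤ c1 * P := mul_le_mul_of_nonneg_left rP6 hc1.le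
  have hP2 : 4 * kf * X ^ 2 ≤ P ^ 2 := by
    calc 4 * kf * X ^ 2 = 4 * kf * L ^ (2 * Aw) * J ^ (10 * Aw) := by
          rw [hXe]
          ring
      _ ≤ J * J ^ (10 * Aw) := Nat.mul_le_mul_right _ hJk
      _ = J ^ (10 * Aw + 1) := by ring
      _ ≤ J ^ (2 * (6 * Aw + 1)) := Nat.pow_le_pow_right hJ1 (by omega)
      _ = (J ^ (6 * Aw + 1)) ^ 2 := by ring
      _ ≤ P ^ 2 := Nat.pow_le_pow_left hP 2
  have hP1 : 1 ≤ P := hX1.trans hXP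
  have rP1 : (1 : ℝ) ≤ P := by exact_mod_cast hP1
  have rX1 : (1 : ℝ) ≤ X := by exact_mod_cast hX1
  have rkf : (1 : ℝ) ≤ kf := by exact_mod_cast hkf
  refine ⟨netN kf X (2 * kf * X * J ^ 3) (2 * X * J ^ 6) ((P : ℝ) ^ k * (J : ℝ) ^ 6), ?_, ?_, ?_⟩
  · -- cardinality
    have h1 := netN_card kf X (2 * kf * X * J ^ 3) (2 * X * J ^ 6) ((P : ℝ) ^ k * (J : ℝ) ^ 6)
    have h2 : (((netN kf X (2 * kf * X * J ^ 3) (2 * X * J ^ 6)
        ((P : ℝ) ^ k * (J : ℝ) ^ 6)).card : ℕ) : ℝ) ≤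
        (X : ℝ) * ((2 * (2 * kf * X * (J : ℝ) ^ 3) + 1) * (2 * (2 * X * (J : ℝ) ^ 6) + 1)) := by
      exact_mod_cast h1
    refine h2.trans ?_
    have h3 : 1 ≤ kf * X * (J : ℝ) ^ 3 :=
      one_le_mul_of_one_le_of_one_le (one_le_mul_of_one_le_of_one_le rkf rX1) (one_le_pow₀ rJ)
    have h4 : 1 ≤ X * (J : ℝ) ^ 6 := one_le_mul_of_one_le_of_one_le rX1 (one_le_pow₀ rJ)
    calc (X : ℝ) * ((2 * (2 * kf * X * (J : ℝ) ^ 3) + 1) * (2 * (2 * X * (J : ℝ) ^ 6) + 1))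
        ≤ (X : ℝ) * ((5 * (kf * X * (J : ℝ) ^ 3)) * (5 * (X * (J : ℝ) ^ 6))) := by
          refine mul_le_mul_of_nonneg_left ?_ (by positivity)
          refine mul_le_mul (by linarith) (by linarith) (by positivity) (by positivity)
      _ = 25 * kf * (X : ℝ) ^ 3 * (J : ℝ) ^ 9 := by ring
      _ = 25 * kf * (L : ℝ) ^ (3 * Aw) * (J : ℝ) ^ (15 * Aw + 9) := by
          rw [rXe]
          ring
  · intro s hs
    obtain ⟨-, h1⟩ := mem_netN.1 hs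
    refine h1.trans ?_
    refine mul_le_mul_of_nonneg_right ?_ (abs_nonneg _)
    rw [rXe]
    have h2 : (L : ℝ) ^ Aw ≤ (L : ℝ) ^ (3 * Aw) := pow_le_pow_right₀ rL (by omega)
    calc 4 * (kf : ℝ) * ((L : ℝ) ^ Aw * (J : ℝ) ^ (5 * Aw))
        = 4 * kf * (L : ℝ) ^ Aw * (J : ℝ) ^ (5 * Aw) := by ring
      _ ≤ 25 * kf * (L : ℝ) ^ (3 * Aw) * (J : ℝ) ^ (5 * Aw) := by
          refine mul_le_mul_of_nonneg_right ?_ (by positivity)
          refine mul_le_mul ?_ h2 (by positivity) (by positivity)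
          linarith
  · rintro a ha ⟨t, ht1, ht2, ht3⟩
    have hXLP : (L * J ^ 5) ^ Aw ≤ L * P := by
      calc (L * J ^ 5) ^ Aw = X := hX.symm
        _ ≤ P := hXP
        _ = 1 * P := (one_mul P).symm
        _ ≤ L * P := Nat.mul_le_mul_right _ hL
    obtain ⟨s, hs, hts⟩ := net_approx (t := t) (c1 := c1) hk hkf hX1 hXP hJ1 hcX hP2 ht1 ht2
      (harc L P J hL hJ2 hXLP a t ht3)
    refine ⟨s, hs, ?_⟩
    have hM1 : 1 ≤ L * P := Nat.one_le_iff_ne_zero.2 (by positivity)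
    have h1 := net_lip k A P (L * P) hM1 ha t s
    have hW0 : 0 < (P : ℝ) ^ k * (J : ℝ) ^ 6 := by positivity
    have h2 : ‖T k a P (L * P) t - T k a P (L * P) s‖ ≤ P / (2 * (J : ℝ) ^ 5) := by
      refine h1.trans ?_
      calc 2 * Real.pi * |t - s| * (((L * P : ℕ) : ℝ) * ((1 + k * A) * ((L * P : ℕ) : ℝ) ^ k))
          ≤ 2 * Real.pi * (1 / ((P : ℝ) ^ k * (J : ℝ) ^ 6)) *
            (((L * P : ℕ) : ℝ) * ((1 + k * A) * ((L * P : ℕ) : ℝ) ^ k)) := by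
            refine mul_le_mul_of_nonneg_right ?_ (by positivity)
            exact mul_le_mul_of_nonneg_left hts (by positivity)
        _ = C' * P / (J : ℝ) ^ 6 := by
            rw [hC']
            push_cast
            rw [mul_pow, pow_succ (L : ℝ) k]
            field_simp
        _ ≤ P / (2 * (J : ℝ) ^ 5) := by
            rw [div_le_div_iff₀ (by positivity) (by positivity)]
            have h3 : 2 * C' * (P * (J : ℝ) ^ 5) ≤ J * (P * (J : ℝ) ^ 5) :=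
              mul_le_mul_of_nonneg_right hJC (by positivity)
            calc C' * P * (2 * (J : ℝ) ^ 5) = 2 * C' * (P * (J : ℝ) ^ 5) := by ring
              _ ≤ J * (P * (J : ℝ) ^ 5) := h3
              _ = P * (J : ℝ) ^ 6 := by ring
    have h3 : ‖T k a P (L * P) t‖ ≤ ‖T k a P (L * P) s‖ +
        ‖T k a P (L * P) t - T k a P (L * P) s‖ := by
      have : T k a P (L * P) t = T k a P (L * P) s + (T k a P (L * P) t - T k a P (L * P) s) := by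
        ring
      conv_lhs => rw [this]
      exact norm_add_le _ _
    have h4 : (P : ℝ) / (J : ℝ) ^ 5 = P / (2 * (J : ℝ) ^ 5) + P / (2 * (J : ℝ) ^ 5) := by
      field_simp
      norm_num
    linarith

end Pool.H82.WP
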