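import Pool.Agent.H82.WP.SepPoly

/-!
# Module SEP: power sums separate points of separated intervals

Proof of `sep`. Let C0 be the constant of `sep_poly`, C = C0 k + 1 (k >= 1 when T is nonempty). Let m = T.card,
s_i = 1 if y_i <= x_i and -1 otherwise, so s_i (x_i - y_i) = |x_i - y_i|. Let q be given by `sep_poly` and
h(u) = ∑_{c<m} q_c u^(l+c+1)/(l+c+1), so h'(u) = u^l q(u). For i in T the numbers x_i/P, y_i/P lie in [2i+1, 2i+2],
and by the mean value theorem (`exists_hasDerivAt_eq_slope` or `Convex.image_sub_le...`; or avoid it by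
`MonotoneOn`: s_i h(u) - u is monotone on [2i+1,2i+2] since its derivative s_i u^l q(u) - 1 >= 0 as u >= 1):
  |x_i - y_i|/P = s_i (x_i/P - y_i/P) <= h(x_i/P) - h(y_i/P)   (both cases of the sign).
Sum over i in T: ∑_i |x_i - y_i|/P <= ∑_{c<m} q_c/(l+c+1) P^(-(l+c+1)) ∑_i (x_i^(l+c+1) - y_i^(l+c+1))
<= m C0 W P^(-(l+1)), as W >= 0 and P >= 1 and 1/(l+c+1) <= 1. Multiply by P^(l+1).
-/

set_option autoImplicit false

namespace Pool.H82.WP

open Finset

private theorem sep_mono {m l : ℕ} {q : ℕ → ℝ} {s lo hi : ℝ} (hlo : 1 ≤ lo)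
    (hq : ∀ u : ℝ, lo ≤ u → u ≤ hi → 1 ≤ s * ∑ c ∈ range m, q c * u ^ c) :
    MonotoneOn (fun u : ℝ => s * ∑ c ∈ range m, q c / ((l : ℝ) + c + 1) * u ^ (l + c + 1) - u)
      (Set.Icc lo hi) := by
  have hd : ∀ u : ℝ, HasDerivAt
      (fun u : ℝ => s * ∑ c ∈ range m, q c / ((l : ℝ) + c + 1) * u ^ (l + c + 1) - u)
      (s * ∑ c ∈ range m, q c * u ^ (l + c) - 1) u := by
    intro u
    refine HasDerivAt.sub (HasDerivAt.const_mul s ?_) (hasDerivAt_id u)
    refine HasDerivAt.fun_sum fun c _ => ?_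
    have h := (hasDerivAt_pow (l + c + 1) u).const_mul (q c / ((l : ℝ) + c + 1))
    refine h.congr_deriv ?_
    have hne : (l : ℝ) + c + 1 ≠ 0 := by positivity
    push_cast
    field_simp
  refine monotoneOn_of_deriv_nonneg (convex_Icc lo hi)
    (fun u _ => (hd u).continuousAt.continuousWithinAt)
    (fun u _ => (hd u).differentiableAt.differentiableWithinAt) ?_
  intro u hu
  rw [interior_Icc] at hu
  rw [(hd u).deriv]
  have hu1 : 1 ≤ u := hlo.trans hu.1.le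
  have h1 := hq u hu.1.le hu.2.le
  have h2 : s * ∑ c ∈ range m, q c * u ^ (l + c) = u ^ l * (s * ∑ c ∈ range m, q c * u ^ c) := by
    rw [Finset.mul_sum, Finset.mul_sum, Finset.mul_sum]
    refine Finset.sum_congr rfl fun c _ => ?_
    rw [pow_add]
    ring
  rw [h2]
  have h3 : 1 ≤ u ^ l := one_le_pow₀ hu1
  nlinarith

theorem sep (k : ℕ) : ∃ C : ℝ, 0 < C ∧ ∀ (P : ℕ) (T : Finset (Fin k)) (l : ℕ) (W : ℝ) (x y : Fin k → ℕ),
    1 ≤ P →
    (∀ i ∈ T, ((2 * (i : ℕ) + 1) * P ≤ x i ∧ x i ≤ (2 * (i : ℕ) + 2) * P) ∧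
      ((2 * (i : ℕ) + 1) * P ≤ y i ∧ y i ≤ (2 * (i : ℕ) + 2) * P)) →
    (∀ j, l + 1 ≤ j → j ≤ l + T.card → |∑ i ∈ T, ((x i : ℝ) ^ j - (y i : ℝ) ^ j)| ≤ W) →
    ∀ i ∈ T, |(x i : ℝ) - y i| * (P : ℝ) ^ l ≤ C * W := by
  obtain ⟨C0, hC0, hsep⟩ := sep_poly k
  refine ⟨C0 * k + 1, by positivity, ?_⟩
  intro P T l W x y hP hxy hW i0 hi0
  have hP0 : (0 : ℝ) < P := by exact_mod_cast hP
  have hP1 : (1 : ℝ) ≤ P := by exact_mod_cast hP
  have hm : 1 ≤ T.card := Finset.card_pos.mpr ⟨i0, hi0⟩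
  have hW0 : 0 ≤ W := (abs_nonneg _).trans (hW (l + 1) le_rfl (by omega))
  obtain ⟨q, hqC, hq⟩ := hsep T (fun i => if y i ≤ x i then 1 else -1) (fun i => by
    by_cases h : y i ≤ x i
    · left; simp [h]
    · right; simp [h])
  set m := T.card with hmdef
  have hmk : (m : ℝ) ≤ k := by
    have : T.card ≤ k := by simpa using Finset.card_le_univ T
    exact_mod_cast this
  let h : ℝ → ℝ := fun u => ∑ c ∈ range m, q c / ((l : ℝ) + c + 1) * u ^ (l + c + 1)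
  have hrange : ∀ i ∈ T, ∀ z : ℕ, (2 * (i : ℕ) + 1) * P ≤ z → z ≤ (2 * (i : ℕ) + 2) * P →
      (z : ℝ) / P ∈ Set.Icc (2 * ((i : ℕ) : ℝ) + 1) (2 * ((i : ℕ) : ℝ) + 2) := by
    intro i _ z h1 h2
    have h1' : (2 * ((i : ℕ) : ℝ) + 1) * P ≤ z := by exact_mod_cast h1
    have h2' : (z : ℝ) ≤ (2 * ((i : ℕ) : ℝ) + 2) * P := by exact_mod_cast h2
    constructor
    · rw [le_div_iff₀ hP0]; exact h1'
    · rw [div_le_iff₀ hP0]; exact h2'
  have hterm : ∀ i ∈ T, |(x i : ℝ) - y i| / P ≤ h ((x i : ℝ) / P) - h ((y i : ℝ) / P) := by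
    intro i hi
    have hlo : (1 : ℝ) ≤ 2 * ((i : ℕ) : ℝ) + 1 := by
      have : (0 : ℝ) ≤ ((i : ℕ) : ℝ) := Nat.cast_nonneg _
      linarith
    have hmono := sep_mono (l := l) hlo (hq i hi)
    have hxr := hrange i hi (x i) (hxy i hi).1.1 (hxy i hi).1.2
    have hyr := hrange i hi (y i) (hxy i hi).2.1 (hxy i hi).2.2
    by_cases hle : y i ≤ x i
    · have hle' : (y i : ℝ) / P ≤ (x i : ℝ) / P := by
        have : (y i : ℝ) ≤ x i := by exact_mod_cast hle
        gcongr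
      have h1 := hmono hyr hxr hle'
      simp only [hle, if_true, one_mul] at h1
      have h2 : |(x i : ℝ) - y i| = (x i : ℝ) - y i := by
        rw [abs_of_nonneg]
        have : (y i : ℝ) ≤ x i := by exact_mod_cast hle
        linarith
      rw [h2, sub_div]
      show _ ≤ (∑ c ∈ range m, q c / ((l : ℝ) + c + 1) * ((x i : ℝ) / P) ^ (l + c + 1)) -
        (∑ c ∈ range m, q c / ((l : ℝ) + c + 1) * ((y i : ℝ) / P) ^ (l + c + 1))
      linarith
    · have hle2 : (x i : ℝ) ≤ y i := by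
        have : x i ≤ y i := by omega
        exact_mod_cast this
      have hle' : (x i : ℝ) / P ≤ (y i : ℝ) / P := by gcongr
      have h1 := hmono hxr hyr hle'
      simp only [hle, if_false] at h1
      have h2 : |(x i : ℝ) - y i| = (y i : ℝ) - x i := by
        rw [abs_of_nonpos (by linarith)]
        ring
      rw [h2, sub_div]
      show _ ≤ (∑ c ∈ range m, q c / ((l : ℝ) + c + 1) * ((x i : ℝ) / P) ^ (l + c + 1)) -
        (∑ c ∈ range m, q c / ((l : ℝ) + c + 1) * ((y i : ℝ) / P) ^ (l + c + 1))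
      linarith
  have hone : |(x i0 : ℝ) - y i0| / P ≤ ∑ i ∈ T, (h ((x i : ℝ) / P) - h ((y i : ℝ) / P)) := by
    refine (hterm i0 hi0).trans ?_
    refine Finset.single_le_sum (f := fun i => h ((x i : ℝ) / P) - h ((y i : ℝ) / P)) ?_ hi0
    intro i hi
    exact le_trans (by positivity) (hterm i hi)
  have hswap : ∑ i ∈ T, (h ((x i : ℝ) / P) - h ((y i : ℝ) / P)) =
      ∑ c ∈ range m, q c / ((l : ℝ) + c + 1) / (P : ℝ) ^ (l + c + 1) *
        ∑ i ∈ T, ((x i : ℝ) ^ (l + c + 1) - (y i : ℝ) ^ (l + c + 1)) := by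
    show ∑ i ∈ T, ((∑ c ∈ range m, q c / ((l : ℝ) + c + 1) * ((x i : ℝ) / P) ^ (l + c + 1)) -
        (∑ c ∈ range m, q c / ((l : ℝ) + c + 1) * ((y i : ℝ) / P) ^ (l + c + 1))) = _
    simp only [← Finset.sum_sub_distrib]
    rw [Finset.sum_comm]
    refine Finset.sum_congr rfl fun c _ => ?_
    rw [Finset.mul_sum]
    refine Finset.sum_congr rfl fun i _ => ?_
    rw [div_pow, div_pow]
    ring
  have hbound : ∑ c ∈ range m, q c / ((l : ℝ) + c + 1) / (P : ℝ) ^ (l + c + 1) *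
        ∑ i ∈ T, ((x i : ℝ) ^ (l + c + 1) - (y i : ℝ) ^ (l + c + 1)) ≤
      ∑ _c ∈ range m, C0 / (P : ℝ) ^ (l + 1) * W := by
    refine Finset.sum_le_sum fun c hc => ?_
    have hcm : c < m := Finset.mem_range.mp hc
    refine (le_abs_self _).trans ?_
    rw [abs_mul]
    have hWc := hW (l + c + 1) (by omega) (by omega)
    have hA : |q c / ((l : ℝ) + c + 1) / (P : ℝ) ^ (l + c + 1)| ≤ C0 / (P : ℝ) ^ (l + 1) := by
      rw [abs_div, abs_div]
      have e1 : |(l : ℝ) + c + 1| = (l : ℝ) + c + 1 := abs_of_pos (by positivity)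
      have e2 : |(P : ℝ) ^ (l + c + 1)| = (P : ℝ) ^ (l + c + 1) := abs_of_pos (by positivity)
      rw [e1, e2]
      have h1 : |q c| / ((l : ℝ) + c + 1) ≤ C0 := by
        rw [div_le_iff₀ (by positivity)]
        have h3 : (1 : ℝ) ≤ (l : ℝ) + c + 1 := by
          have : (0 : ℝ) ≤ (l : ℝ) + c := by positivity
          linarith
        calc |q c| ≤ C0 := hqC c
          _ = C0 * 1 := by ring
          _ ≤ C0 * ((l : ℝ) + c + 1) := by gcongr
      have h4 : (P : ℝ) ^ (l + 1) ≤ (P : ℝ) ^ (l + c + 1) := pow_le_pow_right₀ hP1 (by omega)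
      exact div_le_div₀ hC0.le h1 (by positivity) h4
    exact mul_le_mul hA hWc (abs_nonneg _) (by positivity)
  rw [Finset.sum_const, Finset.card_range, nsmul_eq_mul] at hbound
  have hfin : |(x i0 : ℝ) - y i0| / P ≤ (m : ℝ) * (C0 / (P : ℝ) ^ (l + 1) * W) := by
    rw [hswap] at hone
    exact hone.trans hbound
  have h5 : |(x i0 : ℝ) - y i0| * (P : ℝ) ^ l ≤ (m : ℝ) * C0 * W := by
    have h6 := mul_le_mul_of_nonneg_right hfin (by positivity : (0 : ℝ) ≤ (P : ℝ) ^ (l + 1))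
    have e1 : |(x i0 : ℝ) - y i0| / P * (P : ℝ) ^ (l + 1) = |(x i0 : ℝ) - y i0| * (P : ℝ) ^ l := by
      rw [pow_succ]
      field_simp
    have e2 : (m : ℝ) * (C0 / (P : ℝ) ^ (l + 1) * W) * (P : ℝ) ^ (l + 1) = (m : ℝ) * C0 * W := by
      field_simp
    rw [e1, e2] at h6
    exact h6
  calc |(x i0 : ℝ) - y i0| * (P : ℝ) ^ l ≤ (m : ℝ) * C0 * W := h5
    _ ≤ (k : ℝ) * C0 * W := by gcongr
    _ ≤ (C0 * k + 1) * W := by nlinarith

end Pool.H82.WP
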