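import Pool.Agent.H82.WP.Defs

/-!
# Module SEPPOLY: polynomials with prescribed signs on the intervals [2i+1, 2i+2]

Proof of `sep_poly`. Stronger statement, by induction on T (`Finset.induction_on_max`, adding a new maximal element):
for all signs s there is a real polynomial q (natDegree < T.card when T is nonempty; coefficient
functions) such that s_i q(u) >= 1 for all i in T and u in [2i+1, 2i+2], and moreover, with i0 = max T,
s_(i0) q(u) >= 1 for ALL u >= 2 i0 + 1.
T = {i0}: q = s_(i0) (constant).
T' = T ∪ {i'} with i' > i0 = max T: if s_(i') = s_(i0) keep q. If s_(i') = - s_(i0) take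
q' = 2 q (2 i0 + 5/2 - X). For i in T, u in [2i+1,2i+2], u <= 2 i0 + 2, so 2 i0 + 5/2 - u >= 1/2 and s_i q'(u) >= 1.
For u >= 2 i' + 1 >= 2 i0 + 3: 2 i0 + 5/2 - u <= -1/2, s_(i0) q(u) >= 1, hence s_(i') q'(u) = 2 s_(i0) q(u)
(u - 2 i0 - 5/2) >= 1.
The coefficients of 2 q (c - X), 0 <= c <= 2k+3, are at most 2 (2k+4) max|q_c|, so C = (4k+8)^k works.
-/

set_option autoImplicit false

namespace Pool.H82.WP

open Finset

private def seqMul (B : ℝ) (q : ℕ → ℝ) (c : ℕ) : ℝ :=
  2 * (B * q c - (if c = 0 then 0 else q (c - 1)))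

private theorem seqMul_sum (B : ℝ) (q : ℕ → ℝ) (n : ℕ) (hn : q n = 0) (u : ℝ) :
    ∑ c ∈ range (n + 1), seqMul B q c * u ^ c = 2 * (B - u) * ∑ c ∈ range n, q c * u ^ c := by
  have h1 : ∀ m : ℕ, ∑ c ∈ range (m + 1), (if c = 0 then (0 : ℝ) else q (c - 1)) * u ^ c =
      u * ∑ c ∈ range m, q c * u ^ c := by
    intro m
    rw [Finset.sum_range_succ', Finset.mul_sum]
    simp only [Nat.add_sub_cancel, Nat.succ_ne_zero, if_false, if_true, zero_mul, add_zero]
    refine Finset.sum_congr rfl fun c _ => ?_
    rw [pow_succ]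
    ring
  have h2 : ∑ c ∈ range (n + 1), q c * u ^ c = ∑ c ∈ range n, q c * u ^ c := by
    rw [Finset.sum_range_succ, hn, zero_mul, add_zero]
  calc ∑ c ∈ range (n + 1), seqMul B q c * u ^ c
      = ∑ c ∈ range (n + 1), (2 * B * (q c * u ^ c) -
          2 * ((if c = 0 then (0 : ℝ) else q (c - 1)) * u ^ c)) := by
        refine Finset.sum_congr rfl fun c _ => ?_
        unfold seqMul
        ring
    _ = 2 * B * ∑ c ∈ range (n + 1), q c * u ^ c -
          2 * ∑ c ∈ range (n + 1), (if c = 0 then (0 : ℝ) else q (c - 1)) * u ^ c := by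
        rw [Finset.sum_sub_distrib, Finset.mul_sum, Finset.mul_sum]
    _ = 2 * (B - u) * ∑ c ∈ range n, q c * u ^ c := by
        rw [h1, h2]
        ring

private theorem sep_ind (k : ℕ) (s : Fin k → ℝ) (hs : ∀ i, s i = 1 ∨ s i = -1) (T : Finset (Fin k)) :
    T.Nonempty → ∃ q : ℕ → ℝ, (∀ c, |q c| ≤ (4 * (k : ℝ) + 8) ^ T.card) ∧
      (∀ c, T.card ≤ c → q c = 0) ∧
      (∀ i ∈ T, ∀ u : ℝ, 2 * ((i : ℕ) : ℝ) + 1 ≤ u → u ≤ 2 * ((i : ℕ) : ℝ) + 2 →
        1 ≤ s i * ∑ c ∈ range T.card, q c * u ^ c) ∧
      ∀ i ∈ T, (∀ j ∈ T, j ≤ i) → ∀ u : ℝ, 2 * ((i : ℕ) : ℝ) + 1 ≤ u →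
        1 ≤ s i * ∑ c ∈ range T.card, q c * u ^ c := by
  have hk0 : (0 : ℝ) ≤ k := Nat.cast_nonneg k
  have hss : ∀ i, s i * s i = 1 := by
    intro i
    rcases hs i with h | h <;> rw [h] <;> norm_num
  induction T using Finset.induction_on_max with
  | empty => intro h; exact absurd h (by simp)
  | insert a T ha ih =>
    intro _
    have haT : a ∉ T := fun h => lt_irrefl _ (ha a h)
    rw [Finset.card_insert_of_notMem haT]
    rcases T.eq_empty_or_nonempty with rfl | hT
    · refine ⟨fun c => if c = 0 then s a else 0, ?_, ?_, ?_, ?_⟩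
      · intro c
        have h1 : |s a| = 1 := by
          rcases hs a with h | h <;> rw [h] <;> norm_num
        rw [Finset.card_empty, zero_add, pow_one]
        by_cases hc : c = 0
        · simp only [hc, if_true, h1]
          linarith
        · simp only [hc, if_false, abs_zero]
          linarith
      · intro c hc
        rw [Finset.card_empty] at hc
        have : c ≠ 0 := by omega
        simp [this]
      · intro i hi u _ _
        have : i = a := by simpa using hi
        subst this
        simp [hss]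
      · intro i hi _ u _
        have : i = a := by simpa using hi
        subst this
        simp [hss]
    · obtain ⟨q, hq1, hq2, hq3, hq4⟩ := ih hT
      set i0 := T.max' hT with hi0
      have hi0T : i0 ∈ T := T.max'_mem hT
      have hmax : ∀ j ∈ T, j ≤ i0 := fun j hj => T.le_max' j hj
      have hq5 := hq4 i0 hi0T hmax
      have hlt : i0 < a := ha i0 hi0T
      have hltN : (i0 : ℕ) + 1 ≤ (a : ℕ) := hlt
      have hltR : ((i0 : ℕ) : ℝ) + 1 ≤ ((a : ℕ) : ℝ) := by exact_mod_cast hltN
      have hpow1 : (1 : ℝ) ≤ 4 * (k : ℝ) + 8 := by linarith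
      have hpow0 : (0 : ℝ) ≤ (4 * (k : ℝ) + 8) ^ T.card := by positivity
      by_cases hsame : s a = s i0
      · have hsum : ∀ u : ℝ, ∑ c ∈ range (T.card + 1), q c * u ^ c =
            ∑ c ∈ range T.card, q c * u ^ c := by
          intro u
          rw [Finset.sum_range_succ, hq2 _ le_rfl, zero_mul, add_zero]
        have hav : ∀ u : ℝ, 2 * ((a : ℕ) : ℝ) + 1 ≤ u →
            1 ≤ s a * ∑ c ∈ range (T.card + 1), q c * u ^ c := by
          intro u hu
          rw [hsame, hsum]
          exact hq5 u (by linarith)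
        refine ⟨q, ?_, ?_, ?_, ?_⟩
        · intro c
          exact (hq1 c).trans (pow_le_pow_right₀ hpow1 (Nat.le_succ _))
        · intro c hc
          exact hq2 c (by omega)
        · intro i hi u hu1 hu2
          rcases Finset.mem_insert.1 hi with rfl | hi
          · exact hav u hu1
          · rw [hsum]
            exact hq3 i hi u hu1 hu2
        · intro i hi hm u hu
          rcases Finset.mem_insert.1 hi with rfl | hi
          · exact hav u hu
          · exact absurd (ha i hi) (not_lt.2 (hm a (Finset.mem_insert_self a T)))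
      · have hopp : s a = - s i0 := by
          rcases hs a with h | h
          · rcases hs i0 with h' | h'
            · exact absurd (h.trans h'.symm) hsame
            · rw [h, h']; norm_num
          · rcases hs i0 with h' | h'
            · rw [h, h']
            · exact absurd (h.trans h'.symm) hsame
        set B : ℝ := 2 * ((i0 : ℕ) : ℝ) + 5 / 2 with hB
        have hsum := fun u => seqMul_sum B q T.card (hq2 _ le_rfl) u
        have hav : ∀ u : ℝ, 2 * ((a : ℕ) : ℝ) + 1 ≤ u →
            1 ≤ s a * ∑ c ∈ range (T.card + 1), seqMul B q c * u ^ c := by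
          intro u hu
          rw [hsum, hopp]
          have h1 := hq5 u (by linarith)
          have h2 : 1 ≤ 2 * (u - B) := by
            rw [hB]
            linarith
          calc (1 : ℝ) ≤ (2 * (u - B)) * (s i0 * ∑ c ∈ range T.card, q c * u ^ c) := by
                nlinarith
            _ = -s i0 * (2 * (B - u) * ∑ c ∈ range T.card, q c * u ^ c) := by ring
        refine ⟨seqMul B q, ?_, ?_, ?_, ?_⟩
        · intro c
          have hi0k : ((i0 : ℕ) : ℝ) + 1 ≤ (k : ℝ) := by
            have := i0.isLt
            exact_mod_cast this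
          have hi0n : (0 : ℝ) ≤ ((i0 : ℕ) : ℝ) := Nat.cast_nonneg _
          have hx : |(if c = 0 then (0 : ℝ) else q (c - 1))| ≤ (4 * (k : ℝ) + 8) ^ T.card := by
            split_ifs
            · rw [abs_zero]
              exact hpow0
            · exact hq1 _
          have hBn : 0 ≤ B := by rw [hB]; positivity
          unfold seqMul
          rw [abs_mul, abs_of_pos (by norm_num : (0 : ℝ) < 2)]
          calc 2 * |B * q c - (if c = 0 then (0 : ℝ) else q (c - 1))|
              ≤ 2 * (|B * q c| + |(if c = 0 then (0 : ℝ) else q (c - 1))|) := by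
                gcongr
                exact abs_sub _ _
            _ ≤ 2 * (B * (4 * (k : ℝ) + 8) ^ T.card + (4 * (k : ℝ) + 8) ^ T.card) := by
                rw [abs_mul, abs_of_nonneg hBn]
                gcongr
                exact hq1 c
            _ = (2 * (B + 1)) * (4 * (k : ℝ) + 8) ^ T.card := by ring
            _ ≤ (4 * (k : ℝ) + 8) * (4 * (k : ℝ) + 8) ^ T.card := by
                gcongr
                rw [hB]
                linarith
            _ = (4 * (k : ℝ) + 8) ^ (T.card + 1) := by ring
        · intro c hc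
          unfold seqMul
          have h1 : c ≠ 0 := by omega
          rw [if_neg h1, hq2 c (by omega), hq2 (c - 1) (by omega)]
          ring
        · intro i hi u hu1 hu2
          rcases Finset.mem_insert.1 hi with rfl | hi
          · exact hav u hu1
          · rw [hsum]
            have h1 := hq3 i hi u hu1 hu2
            have h2 : ((i : ℕ) : ℝ) ≤ ((i0 : ℕ) : ℝ) := by
              have : (i : ℕ) ≤ (i0 : ℕ) := hmax i hi
              exact_mod_cast this
            have h3 : 1 ≤ 2 * (B - u) := by
              rw [hB]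
              linarith
            calc (1 : ℝ) ≤ (2 * (B - u)) * (s i * ∑ c ∈ range T.card, q c * u ^ c) := by
                  nlinarith
              _ = s i * (2 * (B - u) * ∑ c ∈ range T.card, q c * u ^ c) := by ring
        · intro i hi hm u hu
          rcases Finset.mem_insert.1 hi with rfl | hi
          · exact hav u hu
          · exact absurd (ha i hi) (not_lt.2 (hm a (Finset.mem_insert_self a T)))

theorem sep_poly (k : ℕ) : ∃ C : ℝ, 0 < C ∧ ∀ (T : Finset (Fin k)) (s : Fin k → ℝ),
    (∀ i, s i = 1 ∨ s i = -1) → ∃ q : ℕ → ℝ, (∀ c, |q c| ≤ C) ∧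
      ∀ i ∈ T, ∀ u : ℝ, 2 * ((i : ℕ) : ℝ) + 1 ≤ u → u ≤ 2 * ((i : ℕ) : ℝ) + 2 →
        1 ≤ s i * ∑ c ∈ range T.card, q c * u ^ c := by
  have hk0 : (0 : ℝ) ≤ k := Nat.cast_nonneg k
  refine ⟨(4 * (k : ℝ) + 8) ^ k, by positivity, ?_⟩
  intro T s hs
  rcases T.eq_empty_or_nonempty with rfl | hT
  · refine ⟨fun _ => 0, ?_, ?_⟩
    · intro c
      rw [abs_zero]
      positivity
    · intro i hi
      simp at hi
  · obtain ⟨q, h1, -, h3, -⟩ := sep_ind k s hs T hT
    refine ⟨q, ?_, h3⟩
    intro c
    refine (h1 c).trans (pow_le_pow_right₀ (by linarith) ?_)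
    have := T.card_le_univ
    simpa using this

end Pool.H82.WP
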