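import Pool.Agent.H19.Wa.Rep
import Pool.Agent.H82.WP.Defs

/-!
# Module VSQ: Fourier representations

`gauss_int`: from `Pool.H19.Wa.gauss_hat` with its b := b^2 and w = (√(b^2))⁻¹ exp(-π t^2/b^2): multiply by b.
`V_sq`: ‖V‖^2 = V conj V = ∑_{x,y} e(t(Ph x - Ph y)) (`V_eq`), integrate termwise with `gauss_int`.
`V_sq_le`: for b >= 1, exp(-π b^2 u^2) <= exp(-π u^2).
`rep`: V V T = ∑_{x,y} ∑_z e(t(Ph x + Ph y + F z)) and termwise `gauss_int` (see `rep` in H19/Wa/Rep.lean).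
Integrability: continuous and bounded by a constant times the Gaussian (`integrable_exp_neg_mul_sq`).
-/

set_option autoImplicit false

namespace Pool.H82.WP

open Finset MeasureTheory
open Pool.H19.Wa (e)

theorem gauss_int {b : ℝ} (hb : 0 < b) (u : ℝ) :
    ((b * Real.exp (-(Real.pi * b ^ 2 * u ^ 2)) : ℝ) : ℂ) =
      ∫ t : ℝ, ((Real.exp (-(Real.pi * t ^ 2 / b ^ 2)) : ℝ) : ℂ) * e (t * u) := by
  have h := Pool.H19.Wa.gauss_hat (b := b ^ 2) (by positivity) u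
  unfold Pool.H19.Wa.G Pool.H19.Wa.w at h
  rw [Real.sqrt_sq hb.le] at h
  rw [Complex.ofReal_mul, h, ← integral_const_mul]
  refine integral_congr_ae (Filter.Eventually.of_forall fun t => ?_)
  have hbC : (b : ℂ) ≠ 0 := by exact_mod_cast hb.ne'
  simp only
  push_cast
  field_simp

theorem integrable_gauss {b : ℝ} (hb : 0 < b) :
    Integrable (fun t : ℝ => Real.exp (-(Real.pi * t ^ 2 / b ^ 2))) := by
  have h := integrable_exp_neg_mul_sq (b := Real.pi / b ^ 2) (by positivity)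
  refine h.congr (Filter.Eventually.of_forall fun t => ?_)
  simp only
  congr 1
  ring

private theorem continuous_gaussC (b : ℝ) :
    Continuous (fun t : ℝ => ((Real.exp (-(Real.pi * t ^ 2 / b ^ 2)) : ℝ) : ℂ)) := by
  refine Complex.continuous_ofReal.comp ?_
  fun_prop

theorem integrable_gauss_mul {b : ℝ} (hb : 0 < b) {g : ℝ → ℂ} (hg : Continuous g) {C : ℝ}
    (hC : ∀ t, ‖g t‖ ≤ C) :
    Integrable (fun t : ℝ => ((Real.exp (-(Real.pi * t ^ 2 / b ^ 2)) : ℝ) : ℂ) * g t) := by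
  refine ((integrable_gauss hb).mul_const C).mono' ?_ (Filter.Eventually.of_forall fun t => ?_)
  · exact ((continuous_gaussC b).mul hg).aestronglyMeasurable
  · rw [norm_mul, Complex.norm_real, Real.norm_of_nonneg (Real.exp_pos _).le]
    exact mul_le_mul_of_nonneg_left (hC t) (Real.exp_pos _).le

private theorem conj_e (x : ℝ) : (starRingEnd ℂ) (e x) = e (-x) := by
  unfold Pool.H19.Wa.e
  rw [← Complex.exp_conj]
  congr 1
  simp only [map_mul, Complex.conj_ofReal, Complex.conj_I, map_ofNat]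
  push_cast
  ring

theorem V_sq (k P : ℕ) (a : Fin (k - 1) → ℝ) {b : ℝ} (hb : 0 < b) :
    ∫ t : ℝ, Real.exp (-(Real.pi * t ^ 2 / b ^ 2)) * ‖V k a P t‖ ^ 2 =
      b * ∑ x ∈ Bx k P, ∑ y ∈ Bx k P, Real.exp (-(Real.pi * b ^ 2 * (Ph k a x - Ph k a y) ^ 2)) := by
  have h1 : ∀ t : ℝ, ((Real.exp (-(Real.pi * t ^ 2 / b ^ 2)) * ‖V k a P t‖ ^ 2 : ℝ) : ℂ) =
      ∑ x ∈ Bx k P, ∑ y ∈ Bx k P, ((Real.exp (-(Real.pi * t ^ 2 / b ^ 2)) : ℝ) : ℂ) *
        e (t * (Ph k a x - Ph k a y)) := by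
    intro t
    have h2 : ((‖V k a P t‖ ^ 2 : ℝ) : ℂ) = V k a P t * (starRingEnd ℂ) (V k a P t) := by
      rw [Complex.mul_conj, Complex.normSq_eq_norm_sq]
    rw [Complex.ofReal_mul, h2, V_eq, map_sum, Finset.sum_mul_sum, Finset.mul_sum]
    refine Finset.sum_congr rfl fun x _ => ?_
    rw [Finset.mul_sum]
    refine Finset.sum_congr rfl fun y _ => ?_
    rw [conj_e, ← Pool.H19.Wa.e_add]
    congr 2
    ring
  have h3 : ((∫ t : ℝ, Real.exp (-(Real.pi * t ^ 2 / b ^ 2)) * ‖V k a P t‖ ^ 2 : ℝ) : ℂ) =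
      ((b * ∑ x ∈ Bx k P, ∑ y ∈ Bx k P,
        Real.exp (-(Real.pi * b ^ 2 * (Ph k a x - Ph k a y) ^ 2)) : ℝ) : ℂ) := by
    rw [← integral_complex_ofReal]
    simp only [h1]
    have hi : ∀ u : ℝ, Integrable (fun t : ℝ =>
        ((Real.exp (-(Real.pi * t ^ 2 / b ^ 2)) : ℝ) : ℂ) * e (t * u)) := fun u =>
      integrable_gauss_mul hb (Pool.H19.Wa.continuous_e.comp (by fun_prop)) (C := 1)
        fun t => (Pool.H19.Wa.norm_e _).le
    rw [integral_finsetSum _ fun x _ => integrable_finset_sum _ fun y _ => hi _]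
    rw [Finset.mul_sum, Complex.ofReal_sum]
    refine Finset.sum_congr rfl fun x _ => ?_
    rw [integral_finsetSum _ fun y _ => hi _, Finset.mul_sum, Complex.ofReal_sum]
    refine Finset.sum_congr rfl fun y _ => ?_
    exact (gauss_int hb _).symm
  exact_mod_cast h3

theorem V_sq_le (k P : ℕ) (a : Fin (k - 1) → ℝ) {b : ℝ} (hb : 1 ≤ b) :
    ∫ t : ℝ, Real.exp (-(Real.pi * t ^ 2 / b ^ 2)) * ‖V k a P t‖ ^ 2 ≤ b * H k P a := by
  have hb0 : 0 < b := by linarith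
  rw [V_sq k P a hb0]
  unfold H
  refine mul_le_mul_of_nonneg_left ?_ hb0.le
  refine Finset.sum_le_sum fun x _ => Finset.sum_le_sum fun y _ => ?_
  rw [Real.exp_le_exp, neg_le_neg_iff]
  have h1 : 1 ≤ b ^ 2 := by nlinarith
  have h2 : 0 ≤ (Ph k a x - Ph k a y) ^ 2 := sq_nonneg _
  have h3 := Real.pi_pos
  calc Real.pi * (Ph k a x - Ph k a y) ^ 2 = Real.pi * 1 * (Ph k a x - Ph k a y) ^ 2 := by ring
    _ ≤ Real.pi * b ^ 2 * (Ph k a x - Ph k a y) ^ 2 := by gcongr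

private theorem continuous_VVT (k P L : ℕ) (a : Fin (k - 1) → ℝ) (tau : ℝ) :
    Continuous (fun t : ℝ => e (-(t * tau)) * (V k a P t ^ 2 * T k a P (L * P) t)) :=
  (Pool.H19.Wa.continuous_e.comp (by fun_prop)).mul
    (((continuous_V_t k a P).pow 2).mul (continuous_T_t k a P (L * P)))

theorem integrable_rep (k P L : ℕ) (a : Fin (k - 1) → ℝ) {b : ℝ} (hb : 0 < b) (tau : ℝ) :
    Integrable (fun t : ℝ => ((Real.exp (-(Real.pi * t ^ 2 / b ^ 2)) : ℝ) : ℂ) *
        (e (-(t * tau)) * (V k a P t ^ 2 * T k a P (L * P) t))) := by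
  refine integrable_gauss_mul hb (continuous_VVT k P L a tau)
    (C := ((P : ℝ) ^ k) ^ 2 * ((L * P - P : ℕ) : ℝ)) fun t => ?_
  rw [norm_mul, Pool.H19.Wa.norm_e, one_mul, norm_mul, norm_pow]
  exact mul_le_mul (pow_le_pow_left₀ (norm_nonneg _) (norm_V_le k a P t) 2)
    (norm_T_le k a P (L * P) t) (norm_nonneg _) (by positivity)

theorem rep (k P L : ℕ) (a : Fin (k - 1) → ℝ) {b : ℝ} (hb : 0 < b) (tau : ℝ) :
    ((b * Rb k P L a b tau : ℝ) : ℂ) =
      ∫ t : ℝ, ((Real.exp (-(Real.pi * t ^ 2 / b ^ 2)) : ℝ) : ℂ) *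
        (e (-(t * tau)) * (V k a P t ^ 2 * T k a P (L * P) t)) := by
  have h1 : ∀ t : ℝ, ((Real.exp (-(Real.pi * t ^ 2 / b ^ 2)) : ℝ) : ℂ) *
        (e (-(t * tau)) * (V k a P t ^ 2 * T k a P (L * P) t)) =
      ∑ x ∈ Bx k P, ∑ y ∈ Bx k P, ∑ z ∈ Ioc P (L * P),
        ((Real.exp (-(Real.pi * t ^ 2 / b ^ 2)) : ℝ) : ℂ) *
          e (t * (Ph k a x + Ph k a y + F k a z - tau)) := by
    intro t
    rw [sq (V k a P t), V_eq, Finset.sum_mul_sum]
    unfold T
    rw [Finset.sum_mul, Finset.mul_sum, Finset.mul_sum]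
    refine Finset.sum_congr rfl fun x _ => ?_
    rw [Finset.sum_mul, Finset.mul_sum, Finset.mul_sum]
    refine Finset.sum_congr rfl fun y _ => ?_
    rw [Finset.mul_sum, Finset.mul_sum, Finset.mul_sum]
    refine Finset.sum_congr rfl fun z _ => ?_
    rw [← Pool.H19.Wa.e_add, ← Pool.H19.Wa.e_add, ← Pool.H19.Wa.e_add]
    congr 2
    ring
  have hi : ∀ u : ℝ, Integrable (fun t : ℝ =>
      ((Real.exp (-(Real.pi * t ^ 2 / b ^ 2)) : ℝ) : ℂ) * e (t * u)) := fun u =>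
    integrable_gauss_mul hb (Pool.H19.Wa.continuous_e.comp (by fun_prop)) (C := 1)
      fun t => (Pool.H19.Wa.norm_e _).le
  simp only [h1]
  unfold Rb
  rw [integral_finsetSum _ fun x _ => integrable_finset_sum _ fun y _ =>
    integrable_finset_sum _ fun z _ => hi _]
  rw [Finset.mul_sum, Complex.ofReal_sum]
  refine Finset.sum_congr rfl fun x _ => ?_
  rw [integral_finsetSum _ fun y _ => integrable_finset_sum _ fun z _ => hi _,
    Finset.mul_sum, Complex.ofReal_sum]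
  refine Finset.sum_congr rfl fun y _ => ?_
  rw [integral_finsetSum _ fun z _ => hi _, Finset.mul_sum, Complex.ofReal_sum]
  refine Finset.sum_congr rfl fun z _ => ?_
  exact gauss_int hb _

end Pool.H82.WP
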